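import Pool.Agent.Q260.LF.Bd

/-! # Partial fractions for the logarithmic derivative of the completed zeta function -/

set_option autoImplicit false
set_option maxHeartbeats 1000000

open Complex Filter Topology Set MeasureTheory
open scoped ComplexConjugate
open Pool.Agent.H24R2.JP (XX)
open Pool.Agent.Y23
open H370 (RI Bd mk_eq)

namespace Pool.Agent.Q260.LF

/-- square root bound -/
lemma ZZ_sqrt : ∃ C : ℝ, 0 < C ∧ ∀ w : ℂ, 1 ≤ w.re → ‖ZZ w‖ ≤ C * Real.sqrt ‖w‖ := by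
  obtain ⟨C, hC, h⟩ := ZZ_right
  refine ⟨C * 6, by positivity, fun w hw => (h w hw).trans ?_⟩
  have h1 : 1 ≤ ‖w‖ := hw.trans (Complex.re_le_norm w)
  have h2 : 1 ≤ Real.sqrt ‖w‖ := by rw [Real.one_le_sqrt]; exact h1
  have h3 : Real.log (2 + ‖w‖) ≤ 4 * Real.sqrt ‖w‖ := by
    have h4 : 2 + ‖w‖ ≤ (Real.sqrt (2 + ‖w‖)) ^ 2 := by rw [Real.sq_sqrt (by linarith)]
    have h5 : Real.log (2 + ‖w‖) ≤ 2 * Real.sqrt (2 + ‖w‖) := by
      have h6 : 0 < Real.sqrt (2 + ‖w‖) := Real.sqrt_pos.2 (by linarith)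
      have h7 : Real.log (2 + ‖w‖) = 2 * Real.log (Real.sqrt (2 + ‖w‖)) := by
        rw [Real.log_sqrt (by linarith)]; ring
      have h8 := Real.log_le_sub_one_of_pos h6
      rw [h7]; linarith
    have h9 : Real.sqrt (2 + ‖w‖) ≤ 2 * Real.sqrt ‖w‖ := by
      rw [Real.sqrt_le_left (by positivity), mul_pow, Real.sq_sqrt (by linarith)]
      linarith
    linarith
  nlinarith

/-- good horizontal lines -/
lemma good_lin : ∃ C : ℝ, 0 < C ∧ ∀ T : ℝ, 3 ≤ T → ∃ U : ℝ, T ≤ U ∧ U ≤ T + 1 ∧ ∀ x : ℝ, |x| ≤ 1 →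
    XX ⟨x, U⟩ ≠ 0 ∧ XX ⟨x, -U⟩ ≠ 0 ∧ ‖ZZ ⟨x, U⟩‖ ≤ C * U ∧ ‖ZZ ⟨x, -U⟩‖ ≤ C * U := by
  obtain ⟨C, hC, hgh⟩ := H370.good_height H370.good_zeta
  obtain ⟨C1, hC1, hYL⟩ := YL_bd
  refine ⟨4 * C + 2 * C1, by positivity, fun T hT => ?_⟩
  obtain ⟨U, hU, hg⟩ := hgh T hT
  refine ⟨U, hU.1, hU.2, fun x hx => ?_⟩
  have hU3 : 3 ≤ U := hT.trans hU.1
  have hx' := abs_le.1 hx
  have e : (1 / 2 + (⟨x, U⟩ : ℂ)) = ⟨1 / 2 + x, U⟩ := by apply Complex.ext <;> simp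
  obtain ⟨g1, g2⟩ := hg (1 / 2 + x) ⟨by linarith, by linarith⟩
  have hR : (⟨x, U⟩ : ℂ) ∈ Rg := Rg_im (by show U ≠ 0; linarith)
  have hX : XX ⟨x, U⟩ ≠ 0 := by
    rw [XX_YY hR, e]
    exact mul_ne_zero (YY_ne hR) g1
  have hZ : ‖ZZ ⟨x, U⟩‖ ≤ (4 * C + 2 * C1) * U := by
    rw [ZZ_eq hR (by rw [e]; exact g1), e]
    have h1 := hYL ⟨x, U⟩ hx (by show 1 ≤ |U|; rw [abs_of_pos (by linarith)]; linarith)
    have h2 : |(⟨x, U⟩ : ℂ).im| = U := abs_of_pos (by show 0 < U; linarith)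
    rw [h2] at h1
    have h3 : Real.log T ^ 2 ≤ 4 * U := by
      have h5 : Real.log T ≤ 2 * Real.sqrt T := by
        have h6 : 0 < Real.sqrt T := Real.sqrt_pos.2 (by linarith)
        have h7 : Real.log T = 2 * Real.log (Real.sqrt T) := by
          rw [Real.log_sqrt (by linarith)]; ring
        have h8 := Real.log_le_sub_one_of_pos h6
        rw [h7]; linarith
      have h9 := pow_le_pow_left₀ (Real.log_nonneg (by linarith)) h5 2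
      rw [mul_pow, Real.sq_sqrt (by linarith)] at h9
      linarith [hU.1]
    refine (norm_add_le _ _).trans ((add_le_add h1 g2).trans ?_)
    have h4 : C * Real.log T ^ 2 ≤ C * (4 * U) := mul_le_mul_of_nonneg_left h3 hC.le
    have h5 : C1 * (1 + U) ≤ C1 * (2 * U) := mul_le_mul_of_nonneg_left (by linarith) hC1.le
    nlinarith
  have ec : (⟨x, -U⟩ : ℂ) = conj (⟨x, U⟩ : ℂ) := by apply Complex.ext <;> simp
  refine ⟨hX, ?_, hZ, ?_⟩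
  · rw [ec, Pool.Agent.H24R2.JP.B1h.XX_conj]
    intro h
    rw [map_eq_zero] at h
    exact hX h
  · rw [ec, ZZ_conj, RCLike.norm_conj]
    exact hZ

/-- the kernel -/
noncomputable def hk (z ζ : ℂ) : ℂ := z / (z ^ 2 - ζ ^ 2)

lemma hk_ne {z ζ : ℂ} (h : |ζ.re| < z.re) : z ^ 2 - ζ ^ 2 ≠ 0 := by
  have e : z ^ 2 - ζ ^ 2 = (z - ζ) * (z + ζ) := by ring
  rw [e]
  have := abs_lt.1 h
  refine mul_ne_zero ?_ ?_
  · intro h0
    have h1 := congrArg Complex.re h0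
    simp at h1
    linarith [this.2]
  · intro h0
    have h1 := congrArg Complex.re h0
    simp at h1
    linarith [this.1]

lemma hk_far {z ζ : ℂ} (h : 2 * ‖z‖ ≤ ‖ζ‖) (h0 : 0 < ‖ζ‖) : ‖hk z ζ‖ ≤ 2 * ‖z‖ / ‖ζ‖ ^ 2 := by
  unfold hk
  have h1 : ‖ζ‖ ^ 2 / 2 ≤ ‖z ^ 2 - ζ ^ 2‖ := by
    have h2 := norm_sub_norm_le (ζ ^ 2) (z ^ 2)
    rw [norm_pow, norm_pow, norm_sub_rev] at h2
    have h3 : ‖z‖ ^ 2 ≤ ‖ζ‖ ^ 2 / 4 := by nlinarith [norm_nonneg z]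
    nlinarith [sq_nonneg ‖ζ‖]
  rw [norm_div, div_le_div_iff₀ (by nlinarith [sq_pos_of_pos h0]) (by positivity)]
  nlinarith [norm_nonneg z]

/-- on the zeros -/
lemma hk_zero {z ζ : ℂ} (hz : 1 < z.re) (hζ : |ζ.re| ≤ 1 / 2) :
    ‖hk z ζ‖ ≤ ‖z‖ * (4 + 8 * z.im ^ 2) * (1 / (1 + (ζ.im - 0) ^ 2)) := by
  have hab := abs_le.1 hζ
  have key : ∀ y : ℝ, ∀ w : ℂ, w.re ^ 2 ≥ 1 / 4 → (w.im - y) ^ 2 ≤ w.im ^ 2 + (w.im - y) ^ 2 := by
    intro y w _; nlinarith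
  have e : z ^ 2 - ζ ^ 2 = (z - ζ) * (z + ζ) := by ring
  have n1 : (1 + ζ.im ^ 2) / (4 + 8 * z.im ^ 2) ≤ ‖z - ζ‖ ^ 2 := by
    rw [← Complex.normSq_eq_norm_sq, Complex.normSq_apply, div_le_iff₀ (by positivity)]
    simp only [sub_re, sub_im]
    have h1 : 1 / 4 ≤ (z.re - ζ.re) * (z.re - ζ.re) := by nlinarith
    have h2 : ζ.im ^ 2 ≤ 2 * ((z.im - ζ.im) * (z.im - ζ.im)) + 2 * z.im ^ 2 := by
      nlinarith [sq_nonneg (2 * z.im - ζ.im)]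
    have h3 : 0 ≤ (z.im - ζ.im) * (z.im - ζ.im) := mul_self_nonneg _
    nlinarith [mul_nonneg h3 (sq_nonneg z.im), mul_nonneg (sub_nonneg.2 h1) (sq_nonneg z.im)]
  have n2 : (1 + ζ.im ^ 2) / (4 + 8 * z.im ^ 2) ≤ ‖z + ζ‖ ^ 2 := by
    rw [← Complex.normSq_eq_norm_sq, Complex.normSq_apply, div_le_iff₀ (by positivity)]
    simp only [add_re, add_im]
    have h1 : 1 / 4 ≤ (z.re + ζ.re) * (z.re + ζ.re) := by nlinarith
    have h2 : ζ.im ^ 2 ≤ 2 * ((z.im + ζ.im) * (z.im + ζ.im)) + 2 * z.im ^ 2 := by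
      nlinarith [sq_nonneg (2 * z.im + ζ.im)]
    have h3 : 0 ≤ (z.im + ζ.im) * (z.im + ζ.im) := mul_self_nonneg _
    nlinarith [mul_nonneg h3 (sq_nonneg z.im), mul_nonneg (sub_nonneg.2 h1) (sq_nonneg z.im)]
  have n3 : (1 + ζ.im ^ 2) / (4 + 8 * z.im ^ 2) ≤ ‖z ^ 2 - ζ ^ 2‖ := by
    rw [e, norm_mul]
    have h0 : 0 ≤ (1 + ζ.im ^ 2) / (4 + 8 * z.im ^ 2) := by positivity
    have h1 := mul_le_mul n1 n2 h0 (by positivity)
    have h2 : ((1 + ζ.im ^ 2) / (4 + 8 * z.im ^ 2)) ^ 2 ≤ (‖z - ζ‖ * ‖z + ζ‖) ^ 2 := by nlinarith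
    exact (pow_le_pow_iff_left₀ h0 (by positivity) two_ne_zero).1 h2
  unfold hk
  rw [norm_div, sub_zero]
  have h0 : 0 < (1 + ζ.im ^ 2) / (4 + 8 * z.im ^ 2) := by positivity
  calc ‖z‖ / ‖z ^ 2 - ζ ^ 2‖ ≤ ‖z‖ / ((1 + ζ.im ^ 2) / (4 + 8 * z.im ^ 2)) :=
        div_le_div_of_nonneg_left (norm_nonneg z) h0 n3
    _ = _ := by field_simp

lemma hk_summable {z : ℂ} (hz : 1 < z.re) :
    Summable (fun ρ : Zt => ‖(mu ρ : ℂ) * hk z ((ρ : ℂ) - 1 / 2)‖) := by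
  have h := (zsummable 0).mul_left (‖z‖ * (4 + 8 * z.im ^ 2))
  refine Summable.of_nonneg_of_le (fun _ => norm_nonneg _) (fun ρ => ?_) h
  rw [norm_mul, Complex.norm_natCast]
  have h1 := hk_zero (ζ := (ρ : ℂ) - 1 / 2) hz (half_re ρ)
  have h2 : ((ρ : ℂ) - 1 / 2).im = (ρ : ℂ).im := by simp
  rw [h2] at h1
  calc (mu ρ : ℝ) * ‖hk z ((ρ : ℂ) - 1 / 2)‖ ≤
        (mu ρ : ℝ) * (‖z‖ * (4 + 8 * z.im ^ 2) * (1 / (1 + ((ρ : ℂ).im - 0) ^ 2))) :=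
        mul_le_mul_of_nonneg_left h1 (Nat.cast_nonneg _)
    _ = _ := by ring

/-- the finite form -/
lemma pf_fin {z : ℂ} (hz : 1 < z.re) {U : ℝ} (hU1 : 1 < U) (hUr : z.re < U) (hUi : |z.im| < U)
    (hg : ∀ x : ℝ, |x| ≤ 1 → XX ⟨x, U⟩ ≠ 0 ∧ XX ⟨x, -U⟩ ≠ 0) :
    2 * Real.pi * I * (∑' ρ : Zt, if |(ρ : ℂ).im| < U then (mu ρ : ℂ) * hk z ((ρ : ℂ) - 1 / 2) else 0) =
      ((∫ x in (-1 : ℝ)..1, ZZ ⟨x, -U⟩ * hk z ⟨x, -U⟩) - (∫ x in (-1 : ℝ)..1, ZZ ⟨x, U⟩ * hk z ⟨x, U⟩)) +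
      2 * ((∫ x in (1 : ℝ)..U, ZZ ⟨x, -U⟩ * hk z ⟨x, -U⟩) - (∫ x in (1 : ℝ)..U, ZZ ⟨x, U⟩ * hk z ⟨x, U⟩) +
        I * ∫ y in (-U)..U, ZZ ⟨U, y⟩ * hk z ⟨U, y⟩) + 2 * Real.pi * I * ZZ z := by
  -- the strip
  have hopen : IsOpen {ζ : ℂ | z ^ 2 - ζ ^ 2 ≠ 0} := isOpen_ne_fun (by fun_prop) continuous_const
  have hdiff : DifferentiableOn ℂ (hk z) {ζ : ℂ | z ^ 2 - ζ ^ 2 ≠ 0} := by
    intro ζ hζ
    have hd : DifferentiableAt ℂ (fun ζ : ℂ => z ^ 2 - ζ ^ 2) ζ := by fun_prop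
    exact ((differentiableAt_const z).div hd hζ).differentiableWithinAt
  have hsub : Set.Icc (-1 : ℝ) 1 ×ℂ Set.Icc (-U) U ⊆ {ζ : ℂ | z ^ 2 - ζ ^ 2 ≠ 0} := by
    rintro ζ ⟨h1, _⟩
    refine hk_ne ?_
    rw [mem_preimage, mem_Icc, ← abs_le] at h1
    linarith
  have hzero : ∀ s ∈ Set.Icc (-1 : ℝ) 1 ×ℂ Set.Icc (-U) U, XX s = 0 →
      s ∈ Set.Ioo (-1 : ℝ) 1 ×ℂ Set.Ioo (-U) U := by
    intro s hs h0
    obtain ⟨h1, h2⟩ := hs
    rw [mem_preimage] at h1 h2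
    have h3 : |s.re| ≤ 1 / 2 := Pool.Agent.H24R2.JP.Zer.abs_re_le s h0
    rw [abs_le] at h3
    have hx : |s.re| ≤ 1 := by rw [abs_le]; constructor <;> linarith
    refine ⟨⟨by linarith, by linarith⟩, ⟨?_, ?_⟩⟩
    · refine lt_of_le_of_ne h2.1 fun he => ?_
      apply (hg s.re hx).2
      rw [he]; exact h0
    · refine lt_of_le_of_ne h2.2 fun he => ?_
      apply (hg s.re hx).1
      rw [← he]; exact h0
  obtain ⟨hfin, hres⟩ := residueR XX (hk z) (-1) 1 (-U) U (by norm_num) (by linarith) hopen hsub hdiff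
    (fun s _ => XX_an s) hzero
  rw [finsum_XX (hk z) hfin] at hres
  have hev : ∀ ζ : ℂ, hk z (-ζ) = hk z ζ := fun ζ => by unfold hk; rw [neg_sq]
  have e1 : (∫ y in (-U)..U, ZZ ⟨-1, y⟩ * hk z ⟨-1, y⟩) = -∫ y in (-U)..U, ZZ ⟨1, y⟩ * hk z ⟨1, y⟩ := by
    have e2 := intervalIntegral.integral_comp_neg (a := -U) (b := U)
      (fun y : ℝ => ZZ ⟨-1, y⟩ * hk z ⟨-1, y⟩)
    rw [neg_neg] at e2
    rw [← e2, ← intervalIntegral.integral_neg]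
    refine intervalIntegral.integral_congr fun y _ => ?_
    have e3 : (⟨-1, -y⟩ : ℂ) = -⟨1, y⟩ := by apply Complex.ext <;> simp
    show ZZ ⟨-1, -y⟩ * hk z ⟨-1, -y⟩ = -(ZZ ⟨1, y⟩ * hk z ⟨1, y⟩)
    rw [e3, ZZ_neg, hev]
    ring
  -- the part to the right
  have hopen2 : IsOpen {ζ : ℂ | 1 / 2 < ζ.re} := isOpen_lt continuous_const Complex.continuous_re
  have hg2 : DifferentiableOn ℂ (fun ζ => ZZ ζ * (-z / (ζ + z))) {ζ : ℂ | 1 / 2 < ζ.re} := by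
    intro ζ hζ
    have hne : ζ + z ≠ 0 := by
      intro h0
      have := congrArg Complex.re h0
      simp at this
      have : (1 / 2 : ℝ) < ζ.re := hζ
      linarith
    exact ((ZZ_diff hζ).mul ((differentiableAt_const (-z)).div (by fun_prop) hne)).differentiableWithinAt
  have hsub2 : Set.Icc (1 : ℝ) U ×ℂ Set.Icc (-U) U ⊆ {ζ : ℂ | 1 / 2 < ζ.re} := by
    rintro ζ ⟨h1, _⟩
    rw [mem_preimage] at h1
    show 1 / 2 < ζ.re
    linarith [h1.1]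
  have hUi' := abs_lt.1 hUi
  have hzI : z ∈ Set.Ioo (1 : ℝ) U ×ℂ Set.Ioo (-U) U := ⟨⟨hz, hUr⟩, ⟨hUi'.1, hUi'.2⟩⟩
  have hcau := cauchyR (a := 1) (b := U) (c := -U) (d := U) hU1 (by linarith) hopen2 hsub2 hg2 hzI
  have hcon : RI 1 U (-U) U (fun s => ZZ s * (-z / (s + z)) * (s - z)⁻¹) =
      RI 1 U (-U) U (fun s => ZZ s * hk z s) := by
    refine H370.RI_congr hU1.le (by linarith) fun s hs => ?_
    have hsz : s ≠ z := fun he => H370.Bd_not_Ioo hs (he ▸ hzI)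
    have hsK := H370.Bd_sub hU1.le (by linarith) hs
    have hre := hsub2 hsK
    have hne : s + z ≠ 0 := by
      intro h0
      have := congrArg Complex.re h0
      simp at this
      have : (1 / 2 : ℝ) < s.re := hre
      linarith
    have hne2 : s - z ≠ 0 := sub_ne_zero.2 hsz
    have hne3 : z ^ 2 - s ^ 2 ≠ 0 := by
      have : z ^ 2 - s ^ 2 = -((s - z) * (s + z)) := by ring
      rw [this]
      exact neg_ne_zero.2 (mul_ne_zero hne2 hne)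
    unfold hk
    field_simp
    ring
  rw [hcon] at hcau
  have hz2 : z + z ≠ 0 := by
    intro h0
    have := congrArg Complex.re h0
    simp at this
    linarith
  have hval : ZZ z * (-z / (z + z)) = -(ZZ z) / 2 := by
    have hz0 : z ≠ 0 := by rintro rfl; simp at hz2
    rw [show z + z = 2 * z by ring] at hz2 ⊢
    field_simp
  rw [hval] at hcau
  unfold RI at hres hcau
  have hres' : (∫ x in (-1 : ℝ)..1, ZZ ⟨x, -U⟩ * hk z ⟨x, -U⟩) - (∫ x in (-1 : ℝ)..1, ZZ ⟨x, U⟩ * hk z ⟨x, U⟩) +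
      I * (∫ y in (-U)..U, ZZ ⟨1, y⟩ * hk z ⟨1, y⟩) - I * (∫ y in (-U)..U, ZZ ⟨-1, y⟩ * hk z ⟨-1, y⟩) =
      2 * Real.pi * I * ∑' ρ : Zt, if |(ρ : ℂ).im| < U then (mu ρ : ℂ) * hk z ((ρ : ℂ) - 1 / 2) else 0 := hres
  rw [e1] at hres'
  rw [← hres']
  linear_combination -2 * hcau

/-- partial fractions -/
theorem pf {z : ℂ} (hz : 1 < z.re) :
    ZZ z = ∑' ρ : Zt, (mu ρ : ℂ) * hk z ((ρ : ℂ) - 1 / 2) := by
  obtain ⟨C, hC, hgood⟩ := good_lin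
  obtain ⟨C2, hC2, hsq⟩ := ZZ_sqrt
  choose U hUa hUb hUc using fun n : ℕ => hgood ((n : ℝ) + 3) (by
    have : (0 : ℝ) ≤ n := Nat.cast_nonneg n
    linarith)
  have hT : Tendsto (fun n : ℕ => (n : ℝ) + 3) atTop atTop :=
    tendsto_atTop_add_const_right _ _ tendsto_natCast_atTop_atTop
  have hU : Tendsto U atTop atTop := tendsto_atTop_mono hUa hT
  have hU3 : ∀ n, 3 ≤ U n := fun n => by
    have : (0 : ℝ) ≤ n := Nat.cast_nonneg n
    linarith [hUa n]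
  have hev : ∀ᶠ n in atTop, z.re < U n ∧ |z.im| < U n ∧ 2 * ‖z‖ ≤ U n :=
    ((hU.eventually_gt_atTop z.re).and ((hU.eventually_gt_atTop |z.im|).and
      (hU.eventually_ge_atTop (2 * ‖z‖))))
  -- norms
  have nI : ∀ x y : ℝ, |y| ≤ ‖(⟨x, y⟩ : ℂ)‖ := fun x y => Complex.abs_im_le_norm ⟨x, y⟩
  have nR : ∀ x y : ℝ, |x| ≤ ‖(⟨x, y⟩ : ℂ)‖ := fun x y => Complex.abs_re_le_norm ⟨x, y⟩
  have nA : ∀ x y : ℝ, ‖(⟨x, y⟩ : ℂ)‖ ≤ |x| + |y| := fun x y => Complex.norm_le_abs_re_add_abs_im ⟨x, y⟩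
  have hpt : ∀ n, 2 * ‖z‖ ≤ U n → ∀ ζ : ℂ, U n ≤ ‖ζ‖ → ‖hk z ζ‖ ≤ 2 * ‖z‖ / U n ^ 2 := by
    intro n hn ζ hζ
    have h0 : 0 < U n := by linarith [hU3 n]
    refine (hk_far (hn.trans hζ) (h0.trans_le hζ)).trans ?_
    exact div_le_div_of_nonneg_left (by positivity) (by positivity) (pow_le_pow_left₀ h0.le hζ 2)
  have hinv : Tendsto (fun n => (U n)⁻¹) atTop (𝓝 0) := tendsto_inv_atTop_zero.comp hU
  have hsqi : Tendsto (fun n => (Real.sqrt (U n))⁻¹) atTop (𝓝 0) :=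
    tendsto_inv_atTop_zero.comp (Real.tendsto_sqrt_atTop.comp hU)
  -- the short horizontal integrals
  have hshort : ∀ V : ℕ → ℝ, (∀ n, |V n| = U n) → (∀ n, ∀ x : ℝ, |x| ≤ 1 → ‖ZZ ⟨x, V n⟩‖ ≤ C * U n) →
      Tendsto (fun n => ∫ x in (-1 : ℝ)..1, ZZ ⟨x, V n⟩ * hk z ⟨x, V n⟩) atTop (𝓝 0) := by
    intro V hV hZ
    have h1 := hinv.const_mul (C * (2 * ‖z‖) * 2)
    rw [mul_zero] at h1
    refine squeeze_zero_norm' ?_ h1
    filter_upwards [hev] with n hn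
    have h0 : 0 < U n := by linarith [hU3 n]
    have h2 : ‖∫ x in (-1 : ℝ)..1, ZZ ⟨x, V n⟩ * hk z ⟨x, V n⟩‖ ≤
        (C * U n * (2 * ‖z‖ / U n ^ 2)) * |(1 : ℝ) - (-1)| := by
      apply intervalIntegral.norm_integral_le_of_norm_le_const
      intro x hx
      rw [uIoc_of_le (by norm_num)] at hx
      have hx1 : |x| ≤ 1 := by rw [abs_le]; constructor <;> linarith [hx.1, hx.2]
      rw [norm_mul]
      exact mul_le_mul (hZ n x hx1) (hpt n hn.2.2 _ (by rw [← hV n]; exact nI _ _)) (norm_nonneg _)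
        (by positivity)
    refine h2.trans (le_of_eq ?_)
    have : |(1 : ℝ) - (-1)| = 2 := by norm_num
    rw [this]
    field_simp
  -- the long ones
  have hlb : ∀ n, 2 * ‖z‖ ≤ U n → ∀ ζ : ℂ, 1 ≤ ζ.re → U n ≤ ‖ζ‖ → ‖ζ‖ ≤ 2 * U n →
      ‖ZZ ζ * hk z ζ‖ ≤ C2 * (2 * Real.sqrt (U n)) * (2 * ‖z‖ / U n ^ 2) := by
    intro n hn ζ h1 h2 h3
    rw [norm_mul]
    have h0 : 0 < U n := by linarith [hU3 n]
    refine mul_le_mul ((hsq ζ h1).trans ?_) (hpt n hn ζ h2) (norm_nonneg _) (by positivity)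
    refine mul_le_mul_of_nonneg_left ?_ hC2.le
    rw [Real.sqrt_le_left (by positivity), mul_pow, Real.sq_sqrt h0.le]
    linarith
  have hconst : ∀ n, C2 * (2 * Real.sqrt (U n)) * (2 * ‖z‖ / U n ^ 2) * (2 * U n) =
      C2 * 8 * ‖z‖ * (Real.sqrt (U n))⁻¹ := by
    intro n
    have h0 : 0 < U n := by linarith [hU3 n]
    have h1 : 0 < Real.sqrt (U n) := Real.sqrt_pos.2 h0
    have h2 : Real.sqrt (U n) ^ 2 = U n := Real.sq_sqrt h0.le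
    field_simp
    rw [h2]
    ring
  have hlim2 : Tendsto (fun n => C2 * 8 * ‖z‖ * (Real.sqrt (U n))⁻¹) atTop (𝓝 0) := by
    have := hsqi.const_mul (C2 * 8 * ‖z‖)
    rwa [mul_zero] at this
  have hlong : ∀ V : ℕ → ℝ, (∀ n, |V n| = U n) →
      Tendsto (fun n => ∫ x in (1 : ℝ)..U n, ZZ ⟨x, V n⟩ * hk z ⟨x, V n⟩) atTop (𝓝 0) := by
    intro V hV
    refine squeeze_zero_norm' ?_ hlim2
    filter_upwards [hev] with n hn
    have h0 : 0 < U n := by linarith [hU3 n]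
    have h2 : ‖∫ x in (1 : ℝ)..U n, ZZ ⟨x, V n⟩ * hk z ⟨x, V n⟩‖ ≤
        (C2 * (2 * Real.sqrt (U n)) * (2 * ‖z‖ / U n ^ 2)) * |U n - 1| := by
      apply intervalIntegral.norm_integral_le_of_norm_le_const
      intro x hx
      rw [uIoc_of_le (by linarith [hU3 n])] at hx
      refine hlb n hn.2.2 _ hx.1.le (by rw [← hV n]; exact nI _ _) ((nA _ _).trans ?_)
      rw [hV n, abs_of_pos (by linarith [hx.1])]
      linarith [hx.2]
    refine h2.trans (le_of_le_of_eq ?_ (hconst n))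
    refine mul_le_mul_of_nonneg_left ?_ (by positivity)
    rw [abs_of_nonneg (by linarith [hU3 n])]
    linarith
  have hvert : Tendsto (fun n => ∫ y in (-U n)..U n, ZZ ⟨U n, y⟩ * hk z ⟨U n, y⟩) atTop (𝓝 0) := by
    refine squeeze_zero_norm' ?_ hlim2
    filter_upwards [hev] with n hn
    have h0 : 0 < U n := by linarith [hU3 n]
    have h2 : ‖∫ y in (-U n)..U n, ZZ ⟨U n, y⟩ * hk z ⟨U n, y⟩‖ ≤
        (C2 * (2 * Real.sqrt (U n)) * (2 * ‖z‖ / U n ^ 2)) * |U n - (-U n)| := by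
      apply intervalIntegral.norm_integral_le_of_norm_le_const
      intro y hy
      rw [uIoc_of_le (by linarith)] at hy
      refine hlb n hn.2.2 _ (by show 1 ≤ U n; linarith [hU3 n]) ?_ ((nA _ _).trans ?_)
      · have := nR (U n) y
        rwa [abs_of_pos h0] at this
      · rw [abs_of_pos h0]
        have : |y| ≤ U n := by rw [abs_le]; constructor <;> linarith [hy.1, hy.2]
        linarith
    refine h2.trans (le_of_eq ?_)
    rw [← hconst n, abs_of_nonneg (by linarith)]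
    ring
  have t1 := hshort (fun n => -U n) (fun n => by rw [abs_neg, abs_of_pos (by linarith [hU3 n])])
    (fun n x hx => (hUc n x hx).2.2.2)
  have t2 := hshort U (fun n => abs_of_pos (by linarith [hU3 n])) (fun n x hx => (hUc n x hx).2.2.1)
  have t3 := hlong (fun n => -U n) (fun n => by rw [abs_neg, abs_of_pos (by linarith [hU3 n])])
  have t4 := hlong U (fun n => abs_of_pos (by linarith [hU3 n]))
  have h4 : Tendsto (fun n => ∑' ρ : Zt, if |(ρ : ℂ).im| < U n then (mu ρ : ℂ) * hk z ((ρ : ℂ) - 1 / 2) else 0) atTop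
      (𝓝 (∑' ρ : Zt, (mu ρ : ℂ) * hk z ((ρ : ℂ) - 1 / 2))) := by
    refine tendsto_tsum_of_dominated_convergence (hk_summable hz) ?_ ?_
    · intro ρ
      refine tendsto_const_nhds.congr' ?_
      filter_upwards [hU.eventually_gt_atTop |(ρ : ℂ).im|] with n hn
      rw [if_pos hn]
    · refine Eventually.of_forall fun n ρ => ?_
      split_ifs
      · exact le_rfl
      · rw [norm_zero]; exact norm_nonneg _
  have h5 := ((t1.sub t2).add ((((t3.sub t4).add (hvert.const_mul I))).const_mul 2)).add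
    (tendsto_const_nhds (x := 2 * Real.pi * I * ZZ z))
  have h6 := h4.const_mul (2 * Real.pi * I)
  have h7 := tendsto_nhds_unique (h6.congr' (by
    filter_upwards [hev] with n hn
    exact pf_fin hz (by linarith [hU3 n]) hn.1 hn.2.1 (fun x hx => ⟨(hUc n x hx).1, (hUc n x hx).2.1⟩))) h5
  have hpi : (2 * Real.pi * I : ℂ) ≠ 0 := by
    have := Real.pi_ne_zero
    simp [this]
  simp only [sub_zero, mul_zero, add_zero, zero_add] at h7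
  exact (mul_left_cancel₀ hpi h7).symm

end Pool.Agent.Q260.LF
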