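import Pool.Agent.Q260.LF.Lo

/-! # The final statements -/

set_option autoImplicit false
set_option maxHeartbeats 1000000

open Filter Topology
open scoped ComplexConjugate
open Pool.Agent.Y23 (Zt mu half_re isZ_refl IsZ)

namespace Pool.Agent.Q260.LF

theorem RH_of (h : ∀ s : ℂ, 1 / 2 < s.re → riemannZeta s ≠ 0) : RiemannHypothesis := by
  intro s hs htriv h1
  by_contra hne
  rcases lt_or_gt_of_ne hne with hlt | hgt
  · by_cases h0 : s.re < 0
    · -- trivial zeros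
      have h2 : ∀ n : ℕ, (1 - s) ≠ -n := by
        intro n hn
        have := congrArg Complex.re hn
        simp at this
        have : (0:ℝ) ≤ n := Nat.cast_nonneg n
        linarith
      have h3 : (1 - s) ≠ 1 := by
        intro h3
        have := congrArg Complex.re h3
        simp at this
        linarith
      have key := riemannZeta_one_sub h2 h3
      rw [sub_sub_cancel, hs] at key
      have hz : riemannZeta (1 - s) ≠ 0 := riemannZeta_ne_zero_of_one_lt_re (by simp; linarith)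
      have hG : Complex.Gamma (1 - s) ≠ 0 := Complex.Gamma_ne_zero h2
      have hp : (2 * (Real.pi : ℂ)) ^ (-(1 - s)) ≠ 0 := by
        rw [Complex.cpow_ne_zero_iff]
        left
        have := Real.pi_ne_zero
        simp
      have hc : Complex.cos (Real.pi * (1 - s) / 2) = 0 := by
        by_contra hc
        exact (mul_ne_zero (mul_ne_zero (mul_ne_zero (mul_ne_zero two_ne_zero hp) hG) hc) hz) key.symm
      rw [Complex.cos_eq_zero_iff] at hc
      obtain ⟨k, hk⟩ := hc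
      have hpi : (Real.pi : ℂ) ≠ 0 := by exact_mod_cast Real.pi_ne_zero
      have hs2 : s = -2 * (k : ℂ) := by
        field_simp at hk
        linear_combination (-1 : ℂ) * hk
      have hkpos : 0 < k := by
        have := congrArg Complex.re hs2
        simp at this
        have h5 : (0:ℝ) < k := by linarith
        exact_mod_cast h5
      apply htriv
      refine ⟨(k - 1).toNat, ?_⟩
      have h6 : (((k - 1).toNat : ℕ) : ℂ) = (k : ℂ) - 1 := by
        have : (((k - 1).toNat : ℤ)) = k - 1 := Int.toNat_of_nonneg (by omega)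
        have h7 : (((k - 1).toNat : ℤ) : ℂ) = ((k - 1 : ℤ) : ℂ) := by rw [this]
        push_cast at h7
        exact_mod_cast h7
      rw [h6, hs2]
      ring
    · have h2 : ∀ n : ℕ, s ≠ -n := by
        intro n hn
        rcases Nat.eq_zero_or_pos n with h5 | h5
        · rw [hn, h5] at hs
          simp [riemannZeta_zero] at hs
        · have := congrArg Complex.re hn
          simp at this
          have h6 : (1:ℝ) ≤ n := by exact_mod_cast h5
          linarith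
      have key := riemannZeta_one_sub h2 h1
      rw [hs, mul_zero] at key
      exact h (1 - s) (by simp; linarith) key
  · exact h s hgt hs

/-- a zero to the right of the line -/
lemma zt_of {s : ℂ} (hs : riemannZeta s = 0) (h : 1 / 2 < s.re) : ∃ ρ : Zt, (ρ : ℂ) = s := by
  have h1 : s.re < 1 := by
    by_contra hc
    exact riemannZeta_ne_zero_of_one_le_re (not_lt.1 hc) hs
  exact ⟨⟨s, hs, by linarith, h1⟩, rfl⟩

lemma half_of {b : ℝ} (hb : ∀ s : ℂ, b < s.re → riemannZeta s ≠ 0) (ρ : Zt) : |(ρ : ℂ).re - 1 / 2| ≤ b - 1 / 2 := by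
  have h1 : (ρ : ℂ).re ≤ b := by
    by_contra hc
    exact hb ρ (not_le.1 hc) ρ.2.1
  have h2 : 1 - (ρ : ℂ).re ≤ b := by
    by_contra hc
    have h3 := isZ_refl ρ.2
    refine hb (1 - conj (ρ : ℂ)) ?_ h3.1
    simp only [Complex.sub_re, Complex.one_re, Complex.conj_re]
    exact not_le.1 hc
  rw [abs_le]
  constructor <;> linarith

lemma line_of (h : RiemannHypothesis) (ρ : Zt) : (ρ : ℂ).re = 1 / 2 := by
  refine h ρ ρ.2.1 ?_ ?_
  · rintro ⟨n, hn⟩
    have h1 := ρ.2.2.1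
    rw [hn] at h1
    simp at h1
    have : (0 : ℝ) ≤ n := Nat.cast_nonneg n
    linarith
  · intro h1
    have h2 := ρ.2.2.2
    rw [h1] at h2
    simp at h2

lemma rh_iff : RiemannHypothesis ↔ ∀ s : ℂ, 1 / 2 < s.re → riemannZeta s ≠ 0 := by
  refine ⟨fun h s hs h0 => ?_, RH_of⟩
  obtain ⟨ρ, hρ⟩ := zt_of h0 hs
  have := line_of h ρ
  rw [hρ] at this
  linarith

/-- the integers `n ≥ 1` with `κ' A log A ≤ n ≤ κ A log A` -/
def In (κ' κ A : ℝ) (n : ℕ) : Prop := 1 ≤ n ∧ κ' * (A * Real.log A) ≤ n ∧ (n : ℝ) ≤ κ * (A * Real.log A)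

/-- (A) -/
theorem finA {b κ : ℝ} (hb : 1 / 2 < b) (hb1 : b ≤ 1) (hz : ∀ s : ℂ, b < s.re → riemannZeta s ≠ 0)
    (hκ : κ < (2 * b - 1) + 1 / (2 * b - 1)) :
    ∃ C : ℝ, ∀ᶠ A : ℝ in atTop, ∀ n : ℕ, In 0 κ A n →
      |li A n - n * A * Real.log (n * A)| ≤ C * (n * A) ∧ 0 < li A n := by
  obtain ⟨C, hC, h⟩ := partA (h := b - 1 / 2) (κ := κ) (by linarith) (by linarith) (by
    have e : 2 * (b - 1 / 2) = 2 * b - 1 := by ring
    rw [e]; exact hκ) (half_of hz)
  refine ⟨C, ?_⟩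
  filter_upwards [eventually_ge_atTop 2, eventually_gt_atTop (Real.exp C)] with A hA hA2 n hn
  have h1 := h A hA n hn.1 hn.2.2
  refine ⟨h1, ?_⟩
  have hA0 : 0 < A := by linarith
  have hn1 : (1 : ℝ) ≤ n := by exact_mod_cast hn.1
  have h2 : C < Real.log A := by rw [Real.lt_log_iff_exp_lt hA0]; exact hA2
  have h3 : Real.log A ≤ Real.log (n * A) := Real.log_le_log hA0 (by nlinarith)
  have h4 := (abs_le.1 h1).1
  have h5 : 0 < (n : ℝ) * A := by positivity
  have h6 : 0 < n * A * (Real.log (n * A) - C) := mul_pos h5 (by linarith)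
  nlinarith

/-- (B) -/
theorem finB {s : ℂ} {κ' κ ε σ : ℝ} (hs : riemannZeta s = 0) (hre : 1 / 2 < s.re) (hκ' : κ' < κ)
    (hκ : 2 / (2 * s.re - 1) < κ) (hε : 0 < ε) (hσ : |σ| = 1) :
    ∀ᶠ A : ℝ in atTop, ∃ n : ℕ, In κ' κ A n ∧ σ * li A n < -A ^ (κ * (2 * s.re - 1) - ε) := by
  obtain ⟨ρ, rfl⟩ := zt_of hs hre
  have e : 1 / ((ρ : ℂ).re - 1 / 2) = 2 / (2 * (ρ : ℂ).re - 1) := by
    have h1 : (ρ : ℂ).re - 1 / 2 ≠ 0 := by
      intro h; linarith
    have h2 : 2 * (ρ : ℂ).re - 1 ≠ 0 := by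
      intro h; linarith
    rw [div_eq_div_iff h1 h2]
    ring
  filter_upwards [partB ρ hre hκ' (by rw [e]; exact hκ) hε hσ] with A hA
  obtain ⟨n, h1, h2, h3, h4⟩ := hA
  exact ⟨n, ⟨h1, h2, h3⟩, h4⟩

/-- (F), the easy direction -/
theorem finF {θ : ℝ} (h0 : 1 / 2 ≤ θ) (hz : ∀ s : ℂ, θ < s.re → riemannZeta s ≠ 0) :
    ∀ᶠ A : ℝ in atTop, ∀ n : ℕ, 1 ≤ n → (n : ℝ) ≤ A ^ 2 →
      -(n ^ 2 * Real.exp ((2 * θ - 1) * n / A)) ≤ li A n := by
  have h := partF (h := θ - 1 / 2) (by linarith) (half_of hz)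
  have e : 2 * (θ - 1 / 2) = 2 * θ - 1 := by ring
  rw [e] at h
  exact h

/-- (F), the middle step -/
theorem finF2 {θ : ℝ} (h : ∀ᶠ A : ℝ in atTop, ∀ n : ℕ, 1 ≤ n → (n : ℝ) ≤ A ^ 2 →
      -(n ^ 2 * Real.exp ((2 * θ - 1) * n / A)) ≤ li A n) :
    ∃ C : ℝ, ∀ κ0 : ℝ, ∃ κ' κ : ℝ, κ0 < κ ∧ κ' < κ ∧ ∃ᶠ A : ℝ in atTop, ∀ n : ℕ, In κ' κ A n →
      -(A ^ C * Real.exp ((2 * θ - 1) * n / A)) ≤ li A n := by
  refine ⟨4, fun κ0 => ⟨0, max κ0 0 + 1, ?_, ?_, Eventually.frequently ?_⟩⟩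
  · have := le_max_left κ0 0
    linarith
  · have := le_max_right κ0 0
    linarith
  set κ : ℝ := max κ0 0 + 1 with hκ
  have hκ0 : 0 < κ := by
    have := le_max_right κ0 0
    linarith
  have h1 : ∀ᶠ A : ℝ in atTop, Real.log A / A ^ (1 : ℝ) < 1 / κ :=
    ((isLittleO_log_rpow_atTop one_pos).tendsto_div_nhds_zero).eventually_lt_const (by positivity)
  filter_upwards [h, h1, eventually_ge_atTop 1] with A hA hA1 hA2 n hn
  have hA0 : 0 < A := by linarith
  rw [Real.rpow_one, div_lt_iff₀ hA0] at hA1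
  have h2 : (n : ℝ) ≤ A ^ 2 := by
    refine hn.2.2.trans ?_
    have h3 : κ * Real.log A ≤ A := by
      have := mul_lt_mul_of_pos_left hA1 hκ0
      have e : κ * (1 / κ * A) = A := by field_simp
      linarith
    calc κ * (A * Real.log A) = A * (κ * Real.log A) := by ring
      _ ≤ A * A := by gcongr
      _ = A ^ 2 := by ring
  refine le_trans ?_ (hA n hn.1 h2)
  rw [neg_le_neg_iff]
  have h4 : (n : ℝ) ^ 2 ≤ A ^ (4 : ℝ) := by
    have : A ^ (4 : ℝ) = (A ^ 2) ^ 2 := by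
      rw [← pow_mul]
      norm_num
    rw [this]
    exact pow_le_pow_left₀ (Nat.cast_nonneg _) h2 2
  exact mul_le_mul_of_nonneg_right h4 (Real.exp_pos _).le

/-- (F), the hard direction -/
theorem finF' {θ : ℝ} (h0 : 1 / 2 ≤ θ)
    (h : ∃ C : ℝ, ∀ κ0 : ℝ, ∃ κ' κ : ℝ, κ0 < κ ∧ κ' < κ ∧ ∃ᶠ A : ℝ in atTop, ∀ n : ℕ, In κ' κ A n →
      -(A ^ C * Real.exp ((2 * θ - 1) * n / A)) ≤ li A n) :
    ∀ s : ℂ, θ < s.re → riemannZeta s ≠ 0 := by
  obtain ⟨C, h⟩ := h
  intro s hs hs0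
  have hre : 1 / 2 < s.re := by linarith
  have hd : 0 < s.re - θ := by linarith
  obtain ⟨κ', κ, hκ0, hκ', hf⟩ := h (max (2 / (2 * s.re - 1)) ((C + 1) / (2 * (s.re - θ))))
  have h1 : 2 / (2 * s.re - 1) < κ := lt_of_le_of_lt (le_max_left _ _) hκ0
  have h2 : (C + 1) / (2 * (s.re - θ)) < κ := lt_of_le_of_lt (le_max_right _ _) hκ0
  rw [div_lt_iff₀ (by positivity)] at h2
  have h3 := finB hs0 hre hκ' h1 one_pos (abs_one)
  obtain ⟨A, hA1, hA2, hA3⟩ := (hf.and_eventually (h3.and (eventually_ge_atTop 1))).exists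
  obtain ⟨n, hn1, hn2⟩ := hA2
  rw [one_mul] at hn2
  have hA0 : 0 < A := by linarith
  have h4 := hA1 n hn1
  have h5 : Real.exp ((2 * θ - 1) * n / A) ≤ A ^ (κ * (2 * θ - 1)) := by
    rw [Real.rpow_def_of_pos hA0]
    apply Real.exp_le_exp.2
    have h6 : (n : ℝ) / A ≤ κ * Real.log A := by
      rw [div_le_iff₀ hA0]
      linarith [hn1.2.2]
    have h7 : 0 ≤ 2 * θ - 1 := by linarith
    calc (2 * θ - 1) * n / A = (2 * θ - 1) * (n / A) := by ring
      _ ≤ (2 * θ - 1) * (κ * Real.log A) := by gcongr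
      _ = _ := by ring
  have h8 : A ^ C * Real.exp ((2 * θ - 1) * n / A) ≤ A ^ (κ * (2 * s.re - 1) - 1) := by
    calc A ^ C * Real.exp ((2 * θ - 1) * n / A) ≤ A ^ C * A ^ (κ * (2 * θ - 1)) := by gcongr
      _ = A ^ (C + κ * (2 * θ - 1)) := by rw [Real.rpow_add hA0]
      _ ≤ _ := by
        apply Real.rpow_le_rpow_of_exponent_le hA3
        linarith
  linarith

/-- (C), from the left to the right -/
theorem finC (h : ∃ σ : ℝ, σ < 1 ∧ ∀ s : ℂ, σ < s.re → riemannZeta s ≠ 0) :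
    ∃ κ : ℝ, 2 < κ ∧ ∀ᶠ A : ℝ in atTop, ∀ n : ℕ, In 0 κ A n → 0 < li A n := by
  obtain ⟨σ, hσ, hz⟩ := h
  set b : ℝ := max σ (3 / 4) with hb
  have hb1 : b < 1 := max_lt hσ (by norm_num)
  have hb2 : 3 / 4 ≤ b := le_max_right _ _
  have hzb : ∀ s : ℂ, b < s.re → riemannZeta s ≠ 0 := fun s hs => hz s (lt_of_le_of_lt (le_max_left _ _) hs)
  have hgt : 2 < (2 * b - 1) + 1 / (2 * b - 1) := by
    have h1 : 0 < 2 * b - 1 := by linarith
    have e : (2 * b - 1) + 1 / (2 * b - 1) - 2 = (2 - 2 * b) ^ 2 / (2 * b - 1) := by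
      field_simp; ring
    have h2 : 0 < (2 - 2 * b) ^ 2 / (2 * b - 1) := by
      have : 0 < 2 - 2 * b := by linarith
      positivity
    linarith
  obtain ⟨κ, hκ1, hκ2⟩ := exists_between hgt
  obtain ⟨C, hC⟩ := finA (by linarith) hb1.le hzb hκ2
  refine ⟨κ, hκ1, ?_⟩
  filter_upwards [hC] with A hA n hn
  exact (hA n hn).2

/-- (C), from the right to the left -/
theorem finC' (h : ∃ κ' κ δ : ℝ, κ' < κ ∧ 2 < κ ∧ 0 < δ ∧ ∃ᶠ A : ℝ in atTop, ∀ n : ℕ, In κ' κ A n →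
      -A ^ (κ - δ) ≤ li A n) :
    ∃ σ : ℝ, σ < 1 ∧ ∀ s : ℂ, σ < s.re → riemannZeta s ≠ 0 := by
  obtain ⟨κ', κ, δ, hκ', hκ, hδ, hf⟩ := h
  by_contra hcon
  push Not at hcon
  have hκ0 : 0 < κ := by linarith
  obtain ⟨s, hs1, hs2⟩ := hcon (max (1 / 2 + 1 / κ) (1 - δ / (4 * κ))) (max_lt (by
    have : 1 / κ < 1 / 2 := one_div_lt_one_div_of_lt (by norm_num) hκ
    linarith) (by
    have : 0 < δ / (4 * κ) := by positivity
    linarith))
  have hs3 : 1 / 2 + 1 / κ < s.re := lt_of_le_of_lt (le_max_left _ _) hs1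
  have hs4 : 1 - δ / (4 * κ) < s.re := lt_of_le_of_lt (le_max_right _ _) hs1
  have hre : 1 / 2 < s.re := by
    have : 0 < 1 / κ := by positivity
    linarith
  have hlt : 2 / (2 * s.re - 1) < κ := by
    rw [div_lt_iff₀ (by linarith)]
    have h1 : κ * (1 / κ) < κ * (s.re - 1 / 2) := mul_lt_mul_of_pos_left (by linarith) hκ0
    rw [mul_one_div_cancel hκ0.ne'] at h1
    linarith
  have h3 := finB hs2 hre hκ' hlt (show 0 < δ / 2 by positivity) abs_one
  obtain ⟨A, hA1, hA2, hA3⟩ := (hf.and_eventually (h3.and (eventually_ge_atTop 1))).exists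
  obtain ⟨n, hn1, hn2⟩ := hA2
  rw [one_mul] at hn2
  have h4 := hA1 n hn1
  have h5 : A ^ (κ - δ) ≤ A ^ (κ * (2 * s.re - 1) - δ / 2) := by
    apply Real.rpow_le_rpow_of_exponent_le hA3
    have h6 : κ * (1 - δ / (4 * κ)) < κ * s.re := mul_lt_mul_of_pos_left hs4 hκ0
    have e : κ * (1 - δ / (4 * κ)) = κ - δ / 4 := by field_simp
    rw [e] at h6
    nlinarith
  linarith

/-- (D) -/
theorem finD {ω : ℝ → ℝ} (hω : Tendsto ω atTop atTop) {C : ℝ}
    (h : ∃ᶠ A : ℝ in atTop, ∀ n : ℕ, In 0 (ω A) A n → -A ^ C ≤ li A n) :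
    RiemannHypothesis := by
  refine RH_of (finF' le_rfl ⟨C, fun κ0 => ⟨0, max κ0 0 + 1, ?_, ?_, ?_⟩⟩)
  · have := le_max_left κ0 0
    linarith
  · have := le_max_right κ0 0
    linarith
  refine (h.and_eventually ((hω.eventually_ge_atTop (max κ0 0 + 1)).and (eventually_ge_atTop 1))).mono ?_
  rintro A ⟨hA, hA2, hA3⟩ n hn
  have e : (2 * (1 / 2 : ℝ) - 1) * n / A = 0 := by ring
  rw [e, Real.exp_zero, mul_one]
  refine hA n ⟨hn.1, hn.2.1, hn.2.2.trans ?_⟩
  exact mul_le_mul_of_nonneg_right hA2 (mul_nonneg (by linarith) (Real.log_nonneg hA3))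

/-- (E) -/
theorem finE : RiemannHypothesis ↔ ∃ C : ℝ, ∀ A : ℝ, 2 ≤ A → ∀ n : ℕ, 1 ≤ n →
    |li A n - n * A * Real.log (n * A)| ≤ C * (n * A) := by
  constructor
  · intro h
    obtain ⟨C, _, hC⟩ := (partR (line_of h)).2
    exact ⟨C, hC⟩
  · rintro ⟨C, hC⟩
    refine finD (ω := id) tendsto_id (C := 0) (Eventually.frequently ?_)
    filter_upwards [eventually_ge_atTop 2, eventually_gt_atTop (Real.exp C)] with A hA hA2 n hn
    have h1 := hC A hA n hn.1
    have hA0 : 0 < A := by linarith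
    have hn1 : (1 : ℝ) ≤ n := by exact_mod_cast hn.1
    have h2 : C < Real.log A := by rw [Real.lt_log_iff_exp_lt hA0]; exact hA2
    have h3 : Real.log A ≤ Real.log (n * A) := Real.log_le_log hA0 (by nlinarith)
    have h4 := (abs_le.1 h1).1
    have h5 : 0 < (n : ℝ) * A := by positivity
    have h6 : 0 < n * A * (Real.log (n * A) - C) := mul_pos h5 (by linarith)
    rw [Real.rpow_zero]
    nlinarith

end Pool.Agent.Q260.LF
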