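import Pool.Agent.Q260.LF.Zs1
import Pool.Agent.Y746.OJ.RV
import Pool.Agent.Y815.OJ.AP
import Pool.Agent.Y37.OJ.GA
import Pool.Agent.Y340.OJ.BD

/-! # The Riemann - von Mangoldt formula -/

set_option autoImplicit false
set_option maxHeartbeats 1000000

open Complex Filter Topology Set MeasureTheory
open scoped ComplexConjugate
open Pool.Agent.Y23 (Zt mu Lg one_le_Lg Lg_cont zsum cnt finite_low IsZ cjZ mu_conj finsum_zset)
open H370 (NN zset)
open Pool.Agent.Y746.OJ (S0 NZ)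

namespace Pool.Agent.Q260.LF

/-- the main term -/
noncomputable def MM (t : ℝ) : ℝ :=
  t / (2 * Real.pi) * Real.log (t / (2 * Real.pi)) - t / (2 * Real.pi)

lemma MM_diff {t t' : ℝ} (ht : 10 ≤ t) (h1 : t ≤ t') (h2 : t' ≤ t + 1) :
    |MM t' - MM t| ≤ 2 * Real.log t + 2 := by
  have hpi := Real.pi_gt_three
  have hpi4 := Real.pi_lt_four
  set a := 2 * Real.pi with ha
  have ha1 : 6 < a := by linarith
  have ha2 : a < 8 := by linarith
  have ht0 : 0 < t := by linarith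
  have ht0' : 0 < t' := by linarith
  have ha0 : 0 < a := by linarith
  have hl : 0 < Real.log (t / a) := Real.log_pos (by rw [lt_div_iff₀ (by linarith)]; linarith)
  have hl2 : Real.log (t / a) ≤ Real.log t := Real.log_le_log (by positivity) (div_le_self ht0.le (by linarith))
  have h3 : Real.log (t' / a) ≤ Real.log (t / a) + (t' - t) / t := by
    have e : t' / a = (t / a) * (t' / t) := by field_simp
    rw [e, Real.log_mul (by positivity) (by positivity)]
    have h4 := Real.log_le_sub_one_of_pos (show 0 < t' / t by positivity)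
    have e2 : t' / t - 1 = (t' - t) / t := by field_simp
    linarith
  have h5 : Real.log (t / a) ≤ Real.log (t' / a) := Real.log_le_log (by positivity) (by gcongr)
  have h6 : (t' - t) / t ≤ 1 / 10 := by rw [div_le_iff₀ ht0]; linarith
  have h7 : t' * ((t' - t) / t) ≤ 2 := by
    rw [mul_div_assoc', div_le_iff₀ ht0]
    nlinarith
  have e : MM t' - MM t = (t' * Real.log (t' / a) - t * Real.log (t / a) - (t' - t)) / a := by
    unfold MM
    rw [← ha]
    field_simp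
    ring
  rw [e, abs_div, abs_of_pos (by linarith : 0 < a), div_le_iff₀ (by linarith), abs_le]
  have h8 : t' * Real.log (t' / a) ≤ t' * (Real.log (t / a) + (t' - t) / t) :=
    mul_le_mul_of_nonneg_left h3 (by linarith)
  have h9 : t' * Real.log (t / a) ≤ t' * Real.log (t' / a) := mul_le_mul_of_nonneg_left h5 (by linarith)
  have h10 : 0 ≤ Real.log t := hl.le.trans hl2
  constructor
  · nlinarith
  · nlinarith

/-- the formula for the zeros in the upper half plane -/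
lemma rv_up : ∃ C : ℝ, 0 < C ∧ ∀ t : ℝ, 10 ≤ t → |(NN riemannZeta 1 t : ℝ) - MM t| ≤ C * Real.log t := by
  obtain ⟨C, hC, hrv⟩ := Pool.Agent.Y746.OJ.t_RV Pool.Agent.Y815.OJ.t_AP Pool.Agent.Y37.OJ.t_GA
  obtain ⟨C1, hC1, hbd⟩ := Pool.Agent.Y340.OJ.t_BD
  obtain ⟨C2, hC2, hz⟩ := H370.zcount H370.good_zeta
  refine ⟨C + 2 * C1 + C2 + 4, by positivity, fun t ht => ?_⟩
  have hex : ∃ t' : ℝ, t < t' ∧ t' < t + 1 ∧ NZ t' := by
    by_contra hc
    push Not at hc
    have h1 : Ioo t (t + 1) ⊆ {y : ℝ | 1 < y ∧ ¬ NZ y} := fun y hy => ⟨by linarith [hy.1], hc y hy.1 hy.2⟩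
    have h2 := measure_mono_null h1 Pool.Agent.Y746.OJ.NZ_null
    rw [Real.volume_Ioo] at h2
    norm_num at h2
  obtain ⟨t', h1, h2, h3⟩ := hex
  have a1 := hrv t' (by linarith) h3
  have a2 := (hbd t' (by linarith) h3).2
  have a3 : (NN riemannZeta 1 t' : ℝ) = NN riemannZeta 1 t + NN riemannZeta t t' := by
    exact_mod_cast H370.NN_add H370.good_zeta le_rfl (by linarith : (1 : ℝ) ≤ t) h1.le
  have a4 : (NN riemannZeta t t' : ℝ) ≤ C2 * Real.log t := by
    have h4 : NN riemannZeta t t' ≤ NN riemannZeta (t - 1) (t + 1) :=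
      H370.NN_mono H370.good_zeta (by linarith) (by linarith) h2.le
    have h5 : (NN riemannZeta t t' : ℝ) ≤ NN riemannZeta (t - 1) (t + 1) := by exact_mod_cast h4
    exact h5.trans (hz t (by linarith))
  have a5 := MM_diff ht h1.le h2.le
  have hlt : 1 ≤ Real.log t := by
    rw [Real.le_log_iff_exp_le (by linarith)]
    have := Real.exp_one_lt_d9
    linarith
  have a6 : Real.log t' ≤ 2 * Real.log t := by
    have h6 : Real.log t' ≤ Real.log (t ^ 2) := Real.log_le_log (by linarith) (by nlinarith)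
    rw [Real.log_pow] at h6
    exact_mod_cast h6
  have a7 : (0 : ℝ) ≤ NN riemannZeta t t' := Nat.cast_nonneg _
  have a8 : |(NN riemannZeta 1 t' : ℝ) - MM t' - S0 t'| ≤ C := a1
  rw [abs_le] at a2 a5 a8 ⊢
  have a9 : C1 * Real.log t' ≤ C1 * (2 * Real.log t) := mul_le_mul_of_nonneg_left a6 hC1.le
  constructor
  · nlinarith
  · nlinarith

lemma NN_eq (t : ℝ) : (NN riemannZeta 1 t : ℝ) =
    ∑' ρ : Zt, if 1 < (ρ : ℂ).im ∧ (ρ : ℂ).im ≤ t then (mu ρ : ℝ) else 0 := by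
  have hfin := H370.zset_finite H370.good_zeta 1 t le_rfl
  have h1 := finsum_zset (fun s => (mu s : ℂ)) (U1 := 1) (U2 := t) le_rfl
  have h2 : ((NN riemannZeta 1 t : ℝ) : ℂ) = ∑ᶠ s ∈ zset riemannZeta 1 t, (mu s : ℂ) := by
    unfold NN
    rw [finsum_mem_eq_finite_toFinset_sum _ hfin, finsum_mem_eq_finite_toFinset_sum _ hfin]
    push_cast
    rfl
  have h3 : ((∑' ρ : Zt, (if 1 < (ρ : ℂ).im ∧ (ρ : ℂ).im ≤ t then (mu ρ : ℝ) else 0) : ℝ) : ℂ) =
      ∑' ρ : Zt, if 1 < (ρ : ℂ).im ∧ (ρ : ℂ).im ≤ t then (mu ρ : ℂ) else 0 := by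
    rw [Complex.ofReal_tsum]
    refine tsum_congr fun ρ => ?_
    split_ifs <;> simp
  have h4 : ((NN riemannZeta 1 t : ℝ) : ℂ) =
      ((∑' ρ : Zt, (if 1 < (ρ : ℂ).im ∧ (ρ : ℂ).im ≤ t then (mu ρ : ℝ) else 0) : ℝ) : ℂ) := by
    rw [h2, h1, h3]
  exact_mod_cast h4

lemma fin_sum {P : Zt → Prop} [DecidablePred P] {R : ℝ} (h : ∀ ρ, P ρ → |(ρ : ℂ).im| ≤ R) :
    Summable (fun ρ : Zt => if P ρ then (mu ρ : ℝ) else 0) := by
  refine summable_of_hasFiniteSupport ((finite_low R).subset ?_)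
  intro ρ hρ
  rw [Function.mem_support] at hρ
  by_contra hc
  have h' : ¬ P ρ := fun hP => hc (h ρ hP)
  rw [if_neg h'] at hρ
  exact hρ rfl

lemma N2_split {t : ℝ} (ht : 1 ≤ t) : N2 t = N2 1 + 2 * (NN riemannZeta 1 t : ℝ) := by
  classical
  have h1 : (NN riemannZeta 1 t : ℝ) =
      ∑' ρ : Zt, if 1 < -(ρ : ℂ).im ∧ -(ρ : ℂ).im ≤ t then (mu ρ : ℝ) else 0 := by
    rw [NN_eq, ← cjZ.tsum_eq]
    refine tsum_congr fun ρ => ?_
    have e1 : ((cjZ ρ : Zt) : ℂ) = conj (ρ : ℂ) := rfl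
    rw [e1, Complex.conj_im, mu_conj ρ.2]
  have s1 := N2_summable 1
  have s2 : Summable (fun ρ : Zt => if 1 < (ρ : ℂ).im ∧ (ρ : ℂ).im ≤ t then (mu ρ : ℝ) else 0) :=
    fin_sum (R := t) fun ρ h => by rw [abs_le]; constructor <;> linarith [h.1, h.2]
  have s3 : Summable (fun ρ : Zt => if 1 < -(ρ : ℂ).im ∧ -(ρ : ℂ).im ≤ t then (mu ρ : ℝ) else 0) :=
    fin_sum (R := t) fun ρ h => by rw [abs_le]; constructor <;> linarith [h.1, h.2]
  rw [two_mul]
  conv_rhs => rw [show (NN riemannZeta 1 t : ℝ) + (NN riemannZeta 1 t : ℝ) =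
    (∑' ρ : Zt, if 1 < (ρ : ℂ).im ∧ (ρ : ℂ).im ≤ t then (mu ρ : ℝ) else 0) +
    (∑' ρ : Zt, if 1 < -(ρ : ℂ).im ∧ -(ρ : ℂ).im ≤ t then (mu ρ : ℝ) else 0) from by rw [← h1, ← NN_eq]]
  unfold N2
  rw [← s2.tsum_add s3, ← s1.tsum_add (s2.add s3)]
  refine tsum_congr fun ρ => ?_
  by_cases c1 : |(ρ : ℂ).im| ≤ 1
  · have c2 := abs_le.1 c1
    have c3 : |(ρ : ℂ).im| ≤ t := c1.trans ht
    rw [if_pos c3, if_pos c1, if_neg (by push Not; intro h; linarith [c2.2]),
      if_neg (by push Not; intro h; linarith [c2.1])]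
    ring
  · by_cases c3 : |(ρ : ℂ).im| ≤ t
    · have c4 := abs_le.1 c3
      rw [if_pos c3, if_neg c1]
      rcases le_total 0 (ρ : ℂ).im with h0 | h0
      · rw [abs_of_nonneg h0, not_le] at c1
        rw [if_pos ⟨c1, c4.2⟩, if_neg (by push Not; intro h; linarith)]
        ring
      · rw [abs_of_nonpos h0, not_le] at c1
        rw [if_neg (by push Not; intro h; linarith), if_pos ⟨c1, by linarith [c4.1]⟩]
        ring
    · have c5 : ¬ (1 < (ρ : ℂ).im ∧ (ρ : ℂ).im ≤ t) := by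
        rintro ⟨h1, h2⟩
        exact c3 (by rw [abs_le]; constructor <;> linarith)
      have c6 : ¬ (1 < -(ρ : ℂ).im ∧ -(ρ : ℂ).im ≤ t) := by
        rintro ⟨h1, h2⟩
        exact c3 (by rw [abs_le]; constructor <;> linarith)
      rw [if_neg c3, if_neg c1, if_neg c5, if_neg c6]
      ring

lemma MM_small {t : ℝ} (h0 : 0 < t) (h1 : t ≤ 10) : |MM t| ≤ 20 := by
  have hpi := Real.pi_gt_three
  have hpi4 := Real.pi_lt_four
  unfold MM
  set x := t / (2 * Real.pi) with hx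
  have hx0 : 0 < x := by positivity
  have hx1 : x ≤ 2 := by rw [hx, div_le_iff₀ (by positivity)]; nlinarith
  have h2 : x * Real.log x ≤ 2 := by
    have := Real.log_le_sub_one_of_pos hx0
    nlinarith
  have h3 : -1 ≤ x * Real.log x := by
    have h4 := Real.log_le_sub_one_of_pos (inv_pos.2 hx0)
    rw [Real.log_inv] at h4
    have h5 : x * x⁻¹ = 1 := mul_inv_cancel₀ hx0.ne'
    nlinarith
  rw [abs_le]
  constructor <;> linarith

/-- the formula for all zeros -/
theorem rv : ∃ C : ℝ, 0 < C ∧ ∀ t : ℝ, 0 < t → |N2 t - 2 * MM t| ≤ C * Lg t := by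
  obtain ⟨C, hC, h⟩ := rv_up
  have hn := N2_nonneg 10
  have hn1 := N2_nonneg 1
  refine ⟨2 * C + N2 10 + N2 1 + 40, by positivity, fun t ht => ?_⟩
  have hL := one_le_Lg t
  rcases le_total 10 t with h10 | h10
  · rw [N2_split (by linarith)]
    have h1 := h t h10
    have h2 : Real.log t ≤ Lg t := by
      unfold Lg
      exact Real.log_le_log ht (by rw [abs_of_pos ht]; linarith)
    have h3 : C * Real.log t ≤ C * Lg t := mul_le_mul_of_nonneg_left h2 hC.le
    rw [abs_le] at h1 ⊢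
    constructor
    · nlinarith
    · nlinarith
  · have h1 := MM_small ht h10
    have h2 : N2 t ≤ N2 10 := N2_mono h10
    have h3 := N2_nonneg t
    rw [abs_le] at h1 ⊢
    constructor
    · nlinarith
    · nlinarith

end Pool.Agent.Q260.LF
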