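import Pool.Agent.Q260.LF.B5

/-! # A zero off the line makes an early coefficient negative -/

set_option autoImplicit false
set_option maxHeartbeats 1000000

open Filter Topology
open scoped ComplexConjugate
open Pool.Agent.Y23 (Zt mu half_re cjZ rfZ rfZ_sub mu_rfZ mu_conj finite_low mu_pos)

namespace Pool.Agent.Q260.LF

/-- the reflection -/
noncomputable def ng : Zt ≃ Zt := cjZ.trans rfZ

lemma ng_val (ρ : Zt) : ((ng ρ : Zt) : ℂ) = 1 - (ρ : ℂ) := by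
  have h : ((ng ρ : Zt) : ℂ) = 1 - conj (conj (ρ : ℂ)) := rfl
  rw [h, Complex.conj_conj]

lemma ng_sub (ρ : Zt) : ((ng ρ : Zt) : ℂ) - 1 / 2 = -((ρ : ℂ) - 1 / 2) := by rw [ng_val]; ring

lemma sub_im (ρ : Zt) : ((ρ : ℂ) - 1 / 2).im = (ρ : ℂ).im := by simp

lemma grow {K c0 δ : ℝ} (hK : 0 < K) (hc0 : 0 < c0) (hδ : 0 < δ) :
    ∀ᶠ A : ℝ in atTop, K * (1 + Real.log A) ^ 3 < c0 * A ^ δ := by
  obtain ⟨C, hC, hlg⟩ := log1_le (show 0 < δ / 6 by positivity)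
  have h1 : ∀ᶠ A : ℝ in atTop, K * C ^ 3 / c0 < A ^ (δ / 2) :=
    (tendsto_rpow_atTop (show 0 < δ / 2 by positivity)).eventually_gt_atTop _
  filter_upwards [h1, eventually_ge_atTop 1] with A hA hA1
  have hA0 : 0 < A := by linarith
  have hl : 0 ≤ 1 + Real.log A := by have := Real.log_nonneg hA1; linarith
  have h2 := pow_le_pow_left₀ hl (hlg A hA1) 3
  have h3 : (A ^ (δ / 6)) ^ 3 = A ^ (δ / 2) := by
    rw [← Real.rpow_natCast, ← Real.rpow_mul hA0.le]; congr 1; push_cast; ring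
  have h4 : A ^ (δ / 2) * A ^ (δ / 2) = A ^ δ := by rw [← Real.rpow_add hA0]; congr 1; ring
  have h5 : 0 < A ^ (δ / 2) := Real.rpow_pos_of_pos hA0 _
  rw [div_lt_iff₀ hc0] at hA
  calc K * (1 + Real.log A) ^ 3 ≤ K * (C * A ^ (δ / 6)) ^ 3 := by gcongr
    _ = (K * C ^ 3) * A ^ (δ / 2) := by rw [mul_pow, h3]; ring
    _ < (A ^ (δ / 2) * c0) * A ^ (δ / 2) := by gcongr
    _ = c0 * A ^ δ := by rw [← h4]; ring

/-- the parameters -/
lemma par_ev {κ κ1 c D : ℝ} (d : ℕ) (hκ : 0 ≤ κ) (hκ1 : 0 < κ1) (hc : 0 < c) (hκc : κ = κ1 + 2 * c) (hD : 4 ≤ D) :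
    ∀ᶠ A : ℝ in atTop, Par κ c A d ⌈κ1 * (A * Real.log A)⌉₊ ⌈c * Real.log A⌉₊ ⌈A⌉₊ ⌊A / D⌋₊ := by
  have h1 : ∀ᶠ A : ℝ in atTop, (4 + d) / c ≤ Real.log A := Real.tendsto_log_atTop.eventually_ge_atTop _
  filter_upwards [h1, eventually_ge_atTop 4, eventually_ge_atTop ((9 * Real.exp (κ / c)) ^ 2)] with A hl hA hA2
  have hA0 : 0 < A := by linarith
  have hl0 : 0 ≤ Real.log A := Real.log_nonneg (by linarith)
  have hm' : ((⌊A / D⌋₊ : ℕ) : ℝ) ≤ A / 4 := by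
    refine (Nat.floor_le (by positivity)).trans ?_
    exact div_le_div_of_nonneg_left hA0.le (by norm_num) hD
  have hm2 : ((⌈A⌉₊ : ℕ) : ℝ) ≤ A + 1 := (Nat.ceil_lt_add_one hA0.le).le
  refine ⟨hκ, hc, hA, Nat.le_ceil A, hm2, hm', ?_, Nat.le_ceil _, ?_⟩
  · push_cast
    have hn1 : ((⌈κ1 * (A * Real.log A)⌉₊ : ℕ) : ℝ) ≤ κ1 * (A * Real.log A) + 1 :=
      (Nat.ceil_lt_add_one (by positivity)).le
    have hJ : ((⌈c * Real.log A⌉₊ : ℕ) : ℝ) ≤ c * Real.log A + 1 := (Nat.ceil_lt_add_one (by positivity)).le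
    have hcl : 4 + (d : ℝ) ≤ c * Real.log A := by
      rw [div_le_iff₀ hc] at hl; linarith
    have hd0 : (0 : ℝ) ≤ d := Nat.cast_nonneg _
    calc ((⌈κ1 * (A * Real.log A)⌉₊ : ℕ) : ℝ) + ((⌈c * Real.log A⌉₊ : ℕ) : ℝ) * ((⌈A⌉₊ : ℕ) : ℝ) + d * ((⌊A / D⌋₊ : ℕ) : ℝ)
        ≤ (κ1 * (A * Real.log A) + 1) + (c * Real.log A + 1) * (A + 1) + d * (A / 4) := by gcongr
      _ ≤ κ * (A * Real.log A) := by
        rw [hκc]
        have h2 : (4 + (d : ℝ)) * A ≤ c * Real.log A * A := mul_le_mul_of_nonneg_right hcl hA0.le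
        have h3 : c * Real.log A * 4 ≤ c * Real.log A * A := mul_le_mul_of_nonneg_left hA (by positivity)
        nlinarith
  · rw [Real.le_sqrt (by positivity) hA0.le]
    exact hA2

lemma grow2 {K K' c0 s E : ℝ} (hK : 0 < K) (hc0 : 0 < c0) (hs : 2 < s) (hE : E < s) :
    ∀ᶠ A : ℝ in atTop, K * (1 + Real.log A) ^ 3 * A ^ 2 + K' * A ^ E < c0 * A ^ s := by
  have h1 := grow hK (show 0 < c0 / 2 by positivity) (show 0 < s - 2 by linarith)
  have h2 : ∀ᶠ A : ℝ in atTop, K' / (c0 / 2) < A ^ (s - E) :=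
    (tendsto_rpow_atTop (show 0 < s - E by linarith)).eventually_gt_atTop _
  filter_upwards [h1, h2, eventually_ge_atTop 1] with A hA1 hA2 hA
  have hA0 : 0 < A := by linarith
  have e1 : A ^ (s - 2) * A ^ 2 = A ^ s := by
    rw [Real.rpow_sub hA0]
    have : (A : ℝ) ^ (2 : ℝ) = A ^ 2 := by norm_num
    rw [this]
    field_simp
  have e2 : A ^ (s - E) * A ^ E = A ^ s := by rw [← Real.rpow_add hA0]; congr 1; ring
  have hE0 : 0 < A ^ E := Real.rpow_pos_of_pos hA0 _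
  rw [div_lt_iff₀ (by positivity)] at hA2
  calc K * (1 + Real.log A) ^ 3 * A ^ 2 + K' * A ^ E < c0 / 2 * A ^ (s - 2) * A ^ 2 + A ^ (s - E) * (c0 / 2) * A ^ E := by
        gcongr
    _ = c0 / 2 * (A ^ (s - 2) * A ^ 2) + c0 / 2 * (A ^ (s - E) * A ^ E) := by ring
    _ = _ := by rw [e1, e2]; ring

/-- a zero off the line makes the coefficients oscillate -/
theorem partB (ρ0 : Zt) (hβ : 1 / 2 < (ρ0 : ℂ).re) {κ' κ ε σ : ℝ} (hκ' : κ' < κ)
    (hκ : 1 / ((ρ0 : ℂ).re - 1 / 2) < κ) (hε : 0 < ε) (hσ : |σ| = 1) :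
    ∀ᶠ A : ℝ in atTop, ∃ n : ℕ, 1 ≤ n ∧ κ' * (A * Real.log A) ≤ n ∧ (n : ℝ) ≤ κ * (A * Real.log A) ∧
      σ * li A n < -A ^ (κ * (2 * (ρ0 : ℂ).re - 1) - ε) := by
  classical
  set z0 : ℂ := (ρ0 : ℂ) - 1 / 2 with hz0
  have hz0re : z0.re = (ρ0 : ℂ).re - 1 / 2 := by simp [hz0]
  rw [← hz0re] at hκ
  have hη : 0 < z0.re := by rw [hz0re]; linarith
  have hz0h : |z0.re| ≤ 1 / 2 := half_re ρ0
  have hinv : 0 < 1 / z0.re := by positivity
  set κ1 : ℝ := max (max ((1 / z0.re + κ) / 2) (κ - ε / (4 * z0.re))) κ' with hκ1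
  set c : ℝ := (κ - κ1) / 2 with hc
  have hεp : 0 < ε / (4 * z0.re) := by positivity
  have hκ0 : 0 < κ := hinv.trans hκ
  have hκ1a : 1 / z0.re < κ1 := lt_of_lt_of_le (by linarith) ((le_max_left _ _).trans (le_max_left _ _))
  have hκ1b : κ1 < κ := max_lt (max_lt (by linarith) (by linarith)) hκ'
  have hκ1c : κ' ≤ κ1 := le_max_right _ _
  have hc0 : 0 < c := by rw [hc]; linarith
  have hκ10 : 0 < κ1 := hinv.trans hκ1a
  have hk : 1 < κ1 * z0.re := by rwa [div_lt_iff₀ hη] at hκ1a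
  set E : ℝ := κ * (2 * (ρ0 : ℂ).re - 1) - ε with hE
  have hEk : E < 2 * κ1 * z0.re := by
    have h1 : κ - ε / (4 * z0.re) ≤ κ1 := (le_max_right _ _).trans (le_max_left _ _)
    have h2 : (κ - ε / (4 * z0.re)) * (2 * z0.re) ≤ κ1 * (2 * z0.re) := mul_le_mul_of_nonneg_right h1 (by positivity)
    have h3 : (κ - ε / (4 * z0.re)) * (2 * z0.re) = 2 * κ * z0.re - ε / 2 := by field_simp; ring
    have h4 : E = 2 * κ * z0.re - ε := by rw [hE, hz0re]; ring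
    linarith
  set s : ℝ := (max 2 E + 2 * κ1 * z0.re) / 2 with hs
  have hmx : max 2 E < 2 * κ1 * z0.re := max_lt (by linarith) hEk
  have hs2 : 2 < s := by
    have : (2 : ℝ) ≤ max 2 E := le_max_left _ _
    rw [hs]; linarith
  have hsE : E < s := by
    have : E ≤ max 2 E := le_max_right _ _
    rw [hs]; linarith
  have hsk : s < 2 * κ1 * z0.re := by rw [hs]; linarith
  set Θ : ℝ := 9 * Real.exp (κ / c) with hΘ
  have hΘ9 : 9 ≤ Θ := by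
    have : 1 ≤ Real.exp (κ / c) := Real.one_le_exp (by positivity)
    rw [hΘ]; linarith
  set D : ℝ := 3 * (Θ + 8) with hD
  have hD4 : 4 ≤ D := by rw [hD]; linarith
  have hD0 : 0 < D := by linarith
  -- the window
  have hfin : {ρ : Zt | ρ ≠ ρ0 ∧ ‖(ρ : ℂ) - ρ0‖ ≤ D}.Finite := by
    refine (finite_low (|(ρ0 : ℂ).im| + D)).subset ?_
    rintro ρ ⟨_, h2⟩
    have h3 := (Complex.abs_im_le_norm ((ρ : ℂ) - ρ0)).trans h2
    rw [Complex.sub_im] at h3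
    show |(ρ : ℂ).im| ≤ |(ρ0 : ℂ).im| + D
    have h4 := abs_sub_abs_le_abs_sub (ρ : ℂ).im (ρ0 : ℂ).im
    linarith
  set W : Finset Zt := hfin.toFinset with hW
  have hWmem : ∀ ρ : Zt, ρ ∈ W ↔ ρ ≠ ρ0 ∧ ‖(ρ : ℂ) - ρ0‖ ≤ D := by
    intro ρ; rw [hW, Set.Finite.mem_toFinset]; rfl
  set d : ℕ := W.card with hd
  obtain ⟨c0, hc00, hprod⟩ := prod_low W (fun ρ : Zt => (ρ : ℂ) - 1 / 2) z0 hD0 (by
    intro ρ hρ
    obtain ⟨h1, h2⟩ := (hWmem ρ).1 hρ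
    refine ⟨fun h => h1 ?_, ?_⟩
    · apply Subtype.ext
      rw [hz0] at h
      linear_combination h
    · have e : (ρ : ℂ) - 1 / 2 - z0 = (ρ : ℂ) - ρ0 := by rw [hz0]; ring
      rw [e]; exact h2)
  have hpeak := peak_low hz0h hη hκ10 hsk
  obtain ⟨C, hC, hsum⟩ := sum_bdd
  have hX0 := CX_pos κ d
  have hgrow := grow2 (K' := 4 * 4 ^ d) (show 0 < 4 * C * CX κ d by positivity) hc00 hs2 hsE
  filter_upwards [hprod, hpeak, hgrow, par_ev d hκ0.le hκ10 hc0 (by rw [hc]; ring) hD4, eventually_ge_atTop D,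
    eventually_ge_atTop ‖z0‖, eventually_gt_atTop |(ρ0 : ℂ).im|] with A hA1 hA2 hA3 p hAD hAz hAi
  by_contra hcon
  push Not at hcon
  have hA4 := p.hA
  have hA0 := p.A0
  have hAone : 1 ≤ A := by linarith
  have hlog := p.log0
  set n1 : ℕ := ⌈κ1 * (A * Real.log A)⌉₊ with hn1
  set J : ℕ := ⌈c * Real.log A⌉₊ with hJ
  set m : ℕ := ⌈A⌉₊ with hm
  set m' : ℕ := ⌊A / D⌋₊ with hm'
  set N : ℕ := n1 + J * m + d * m' + 1 with hN
  have hm0 : (0 : ℝ) < m := hA0.trans_le p.hm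
  have hmJ : (0 : ℝ) < (m : ℝ) ^ J := by positivity
  have hY : 0 ≤ A ^ E := Real.rpow_nonneg hA0.le _
  have hAl : 0 < A * Real.log A := mul_pos hA0 (Real.log_pos (by linarith))
  have hpos : ∀ k < N, n1 ≤ k → |(cf A k).re| ≤ σ * (cf A k).re + 2 * A ^ E := by
    intro k hk hk1
    have hkn : κ1 * (A * Real.log A) ≤ k := (Nat.le_ceil _).trans (by exact_mod_cast hk1)
    have hk0 : 1 ≤ k := by
      have : (0 : ℝ) < k := lt_of_lt_of_le (mul_pos hκ10 hAl) hkn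
      exact_mod_cast this
    rw [← li_eq (by linarith) hk0]
    have h1 := hcon k hk0 ((mul_le_mul_of_nonneg_right hκ1c hAl.le).trans hkn) (by
      refine le_trans ?_ p.hdeg
      exact_mod_cast Nat.lt_succ_iff.1 hk)
    have h2 : |li A k| = |σ * li A k| := by rw [abs_mul, hσ, one_mul]
    rw [h2]
    exact abs_le.2 ⟨by linarith, by linarith⟩
  -- the polynomials
  set w0 : ℂ := ww A z0 with hw0
  have hw0ne : w0 ≠ 0 := ww_ne hAone hz0h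
  have hw0n : 0 < ‖w0‖ := norm_pos_iff.2 hw0ne
  set e : ℂ := (‖w0‖ : ℂ) / w0 with he
  have hen : ‖e‖ = 1 := by rw [he, norm_div, Complex.norm_real, norm_norm, div_self hw0n.ne']
  set v : Zt → ℂ := fun ρ => (ww A ((ρ : ℂ) - 1 / 2))⁻¹ ^ m' with hv
  have hvn : ∀ ρ : Zt, ‖v ρ‖ ≤ 3 := by
    intro ρ
    rw [hv]
    simp only [norm_pow]
    have h1 := norm_winv_le hAone (half_re ρ)
    calc ‖(ww A ((ρ : ℂ) - 1 / 2))⁻¹‖ ^ m' ≤ Real.exp (EE A ((ρ : ℂ) - 1 / 2)) ^ m' :=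
          pow_le_pow_left₀ (norm_nonneg _) h1 m'
      _ = Real.exp (m' * EE A ((ρ : ℂ) - 1 / 2)) := by rw [Real.exp_nat_mul]
      _ ≤ Real.exp 1 := Real.exp_le_exp.2 (p.m'E (half_re ρ))
      _ ≤ 3 := by have := Real.exp_one_lt_d9; linarith
  set P : Polynomial ℂ := KK e v W n1 J m m' with hP
  set P' : Polynomial ℂ := KK 1 (fun _ => (-3 : ℂ)) W n1 J m m' with hP'
  have hdeg : P.natDegree < N := by
    have := KK_natDegree e v W n1 J m m'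
    rw [← hP, ← hd] at this
    omega
  have hdeg' : P'.natDegree < N := by
    have := KK_natDegree 1 (fun _ => (-3 : ℂ)) W n1 J m m'
    rw [← hP', ← hd] at this
    omega
  have hdegQ : (QQ W n1 J m m').natDegree < N := by
    have := QQ_natDegree W n1 J m m'
    rw [← hd] at this
    omega
  have hdom : ‖Lam A P N‖ ≤ ‖Lam A P' N‖ + 2 * A ^ E * ((m : ℝ) ^ J * 4 ^ d) := by
    have := Lam_dom (KK_dom hen hvn W n1 J m m') (fun k => QQ_coeff W n1 J m m' k) hdegQ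
      (fun k hk => QQ_coeff_low W n1 J m m' k hk) hσ.le hpos
    rw [QQ_eval_one] at this
    exact this
  -- the values at the zeros
  set F : Zt → ℂ := fun ρ => P.eval (ww A ((ρ : ℂ) - 1 / 2)) with hF
  set g : Zt → ℂ := fun ρ => if ρ = ρ0 then 0 else F ρ with hg
  have hCK := CK_pos κ d
  have hgn : ∀ ρ : Zt, ‖g ρ‖ ≤ (m : ℝ) ^ J * CK κ d := by
    intro ρ
    by_cases h0 : ρ = ρ0
    · rw [hg]
      simp only [if_pos h0, norm_zero]
      positivity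
    · have hgF : g ρ = F ρ := by rw [hg]; simp only [if_neg h0]
      rw [hgF]
      by_cases h1 : ρ ∈ W
      · have : F ρ = 0 := by
          rw [hF]
          simp only []
          rw [hP, KK_eval, Finset.prod_eq_zero h1, mul_zero]
          rw [hv]
          simp only []
          rw [← mul_pow, inv_mul_cancel₀ (ww_ne hAone (half_re ρ)), one_pow, sub_self]
        rw [this, norm_zero]
        positivity
      · refine p.low (half_re ρ) hen hvn W rfl (Or.inl ?_)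
        have h2 : D < ‖(ρ : ℂ) - ρ0‖ := by
          by_contra hc'
          exact h1 ((hWmem ρ).2 ⟨h0, not_lt.1 hc'⟩)
        have h3 := far_pt (D := D) (z := (ρ : ℂ) - 1 / 2) (z0 := z0) hA4 (half_re ρ) hz0h hAz hD0 hAD (by
          have e1 : (ρ : ℂ) - 1 / 2 - z0 = (ρ : ℂ) - ρ0 := by rw [hz0]; ring
          rw [e1]; exact h2.le) p.hm
        have e2 : D / 3 - 8 = 9 * Real.exp (κ / c) := by rw [hD, hΘ]; ring
        rw [e2] at h3
        exact h3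
  set B : Zt → ℂ := fun ρ => (2 * P.eval 1 - g ρ - g (ng ρ)) / 2 with hB
  have hF_g : ∀ ρ : Zt, F ρ = g ρ + (if ρ = ρ0 then F ρ0 else 0) := by
    intro ρ
    show F ρ = (if ρ = ρ0 then 0 else F ρ) + (if ρ = ρ0 then F ρ0 else 0)
    by_cases h0 : ρ = ρ0
    · rw [if_pos h0, if_pos h0, h0, zero_add]
    · rw [if_neg h0, if_neg h0, add_zero]
  have hhat : ∀ ρ : Zt, hat A P ((ρ : ℂ) - 1 / 2) = (2 * P.eval 1 - F ρ - F (ng ρ)) / 2 := by
    intro ρ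
    unfold hat
    rw [← ww_neg, ← ng_sub]
  have hB_hat : ∀ ρ : Zt, B ρ = hat A P ((ρ : ℂ) - 1 / 2) + 1 / 2 * (if ρ = ρ0 then F ρ0 else 0) +
      1 / 2 * (if ng ρ = ρ0 then F ρ0 else 0) := by
    intro ρ
    rw [hhat, hF_g ρ, hF_g (ng ρ), hB]
    simp only []
    ring
  have hBn : ∀ ρ : Zt, ‖B ρ‖ ≤ ((m : ℝ) ^ J * CX κ d * (1 + Real.log A) ^ 2) * (A ^ 4 / (A ^ 4 + (ρ : ℂ).im ^ 2)) := by
    intro ρ
    rcases le_total ((ρ : ℂ).im ^ 2) (A ^ 4) with h | h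
    · refine p.low2 ?_ (hgn ρ) (hgn (ng ρ)) h
      have h2 := (KK_dom hen hvn W n1 J m m').eval_one
      rw [QQ_eval_one] at h2
      exact h2
    · have h1 := p.high (half_re ρ) hen hvn W rfl (by rw [sub_im]; exact h)
      rw [sub_im] at h1
      have him : (ρ0 : ℂ).im ^ 2 < A ^ 4 := by
        have h3 : (ρ0 : ℂ).im ^ 2 < A ^ 2 := by
          rw [← sq_abs (ρ0 : ℂ).im]
          exact pow_lt_pow_left₀ hAi (abs_nonneg _) two_ne_zero
        have h4 : A ^ 2 ≤ A ^ 4 := pow_le_pow_right₀ hAone (by norm_num)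
        linarith
      have n1' : ρ ≠ ρ0 := by
        rintro rfl
        linarith
      have n2' : ng ρ ≠ ρ0 := by
        intro h5
        have h6 : ((ng ρ : Zt) : ℂ).im = (ρ0 : ℂ).im := by rw [h5]
        rw [ng_val, Complex.sub_im, Complex.one_im, zero_sub] at h6
        have : (ρ : ℂ).im ^ 2 = (ρ0 : ℂ).im ^ 2 := by rw [← h6]; ring
        linarith
      rw [hB_hat, if_neg n1', if_neg n2', mul_zero, add_zero, add_zero]
      exact h1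
  have hLP := Lam_hasSum (by linarith : 3 / 2 ≤ A) hdeg
  have hLP' := Lam_hasSum (by linarith : 3 / 2 ≤ A) hdeg'
  have hs1 : HasSum (fun ρ : Zt => if ρ = ρ0 then (mu ρ0 : ℂ) * (1 / 2 * F ρ0) else 0) ((mu ρ0 : ℂ) * (1 / 2 * F ρ0)) :=
    hasSum_ite_eq ρ0 _
  have hs2 : HasSum (fun ρ : Zt => if ρ = ng.symm ρ0 then (mu (ng.symm ρ0 : Zt) : ℂ) * (1 / 2 * F ρ0) else 0)
      ((mu (ng.symm ρ0 : Zt) : ℂ) * (1 / 2 * F ρ0)) := hasSum_ite_eq _ _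
  have hsB : HasSum (fun ρ : Zt => (mu ρ : ℂ) * B ρ)
      (Lam A P N + (mu ρ0 : ℂ) * (1 / 2 * F ρ0) + (mu (ng.symm ρ0 : Zt) : ℂ) * (1 / 2 * F ρ0)) := by
    refine ((hLP.add hs1).add hs2).congr_fun fun ρ => ?_
    rw [hB_hat]
    have e1 : (if ρ = ρ0 then (mu ρ0 : ℂ) * (1 / 2 * F ρ0) else 0) =
        (mu ρ : ℂ) * (1 / 2 * (if ρ = ρ0 then F ρ0 else 0)) := by
      by_cases h : ρ = ρ0
      · rw [if_pos h, if_pos h, h]
      · rw [if_neg h, if_neg h, mul_zero, mul_zero]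
    have e2 : (if ρ = ng.symm ρ0 then (mu (ng.symm ρ0 : Zt) : ℂ) * (1 / 2 * F ρ0) else 0) =
        (mu ρ : ℂ) * (1 / 2 * (if ng ρ = ρ0 then F ρ0 else 0)) := by
      by_cases h : ρ = ng.symm ρ0
      · rw [if_pos h, if_pos (by rw [h]; simp), ← h]
      · rw [if_neg h, if_neg (fun h' => h (by rw [← h']; simp)), mul_zero, mul_zero]
    rw [e1, e2]
    ring
  have hXn : 0 ≤ (m : ℝ) ^ J * CX κ d * (1 + Real.log A) ^ 2 := by positivity
  have hb1 := hsum A hAone B _ _ hXn hBn hsB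
  have hb2 := hsum A hAone (fun ρ => hat A P' ((ρ : ℂ) - 1 / 2)) _ _ hXn (fun ρ => by
    have := p.all W rfl (half_re ρ)
    rw [sub_im] at this
    exact this) hLP'
  -- the peak
  have hew : e * w0 = (‖w0‖ : ℂ) := by rw [he]; field_simp
  have hw1 : 1 ≤ ‖w0‖ := by
    have := w0_low hAone hz0h hη 1
    rw [pow_one] at this
    refine le_trans (Real.one_le_exp ?_) this
    positivity
  have hF0 : c0 * (A ^ s * (m : ℝ) ^ J) ≤ ‖F ρ0‖ := by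
    have e1 : F ρ0 = (e * w0) ^ n1 * (∑ i ∈ Finset.range m, (e * w0) ^ i) ^ J *
        ∏ ρ ∈ W, (1 - v ρ * w0 ^ m') := KK_eval e v W n1 J m m' w0
    rw [e1, norm_mul, norm_mul, hew, norm_pow, norm_pow, Complex.norm_real, norm_norm]
    have e2 : ‖∑ i ∈ Finset.range m, (‖w0‖ : ℂ) ^ i‖ = ∑ i ∈ Finset.range m, ‖w0‖ ^ i := by
      have : ∑ i ∈ Finset.range m, (‖w0‖ : ℂ) ^ i = ((∑ i ∈ Finset.range m, ‖w0‖ ^ i : ℝ) : ℂ) := by push_cast; rfl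
      rw [this, Complex.norm_real, Real.norm_eq_abs, abs_of_nonneg (Finset.sum_nonneg fun i _ => by positivity)]
    rw [e2]
    have h3 : (m : ℝ) ≤ ∑ i ∈ Finset.range m, ‖w0‖ ^ i := by
      calc (m : ℝ) = ∑ _i ∈ Finset.range m, (1 : ℝ) := by simp
        _ ≤ _ := Finset.sum_le_sum fun i _ => one_le_pow₀ hw1
    have h4 := hA2 n1 (Nat.le_ceil _)
    have h5 : 0 ≤ A ^ s := Real.rpow_nonneg hA0.le _
    have h6 : (m : ℝ) ^ J ≤ (∑ i ∈ Finset.range m, ‖w0‖ ^ i) ^ J := pow_le_pow_left₀ hm0.le h3 J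
    have h7 : A ^ s * (m : ℝ) ^ J ≤ ‖w0‖ ^ n1 * (∑ i ∈ Finset.range m, ‖w0‖ ^ i) ^ J :=
      mul_le_mul h4 h6 hmJ.le (h5.trans h4)
    have h8 : 0 ≤ A ^ s * (m : ℝ) ^ J := mul_nonneg h5 hmJ.le
    have h9 := mul_le_mul h7 hA1 hc00.le (h8.trans h7)
    rw [mul_comm c0]
    exact h9
  -- the contradiction
  set X : ℝ := (m : ℝ) ^ J * CX κ d * (1 + Real.log A) ^ 2 with hX
  have hmu0 : (1 : ℝ) ≤ (mu ρ0 : ℝ) := by exact_mod_cast mu_pos ρ0.2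
  have hmu1 : (0 : ℝ) ≤ (mu (ng.symm ρ0 : Zt) : ℝ) := Nat.cast_nonneg _
  have hfin1 : 1 / 2 * ‖F ρ0‖ ≤ 2 * (C * (X * (A ^ 2 * (1 + Real.log A)))) + 2 * A ^ E * ((m : ℝ) ^ J * 4 ^ d) := by
    have e1 : (mu ρ0 : ℂ) * (1 / 2 * F ρ0) + (mu (ng.symm ρ0 : Zt) : ℂ) * (1 / 2 * F ρ0) =
        (Lam A P N + (mu ρ0 : ℂ) * (1 / 2 * F ρ0) + (mu (ng.symm ρ0 : Zt) : ℂ) * (1 / 2 * F ρ0)) - Lam A P N := by ring
    have e2 : ‖(mu ρ0 : ℂ) * (1 / 2 * F ρ0) + (mu (ng.symm ρ0 : Zt) : ℂ) * (1 / 2 * F ρ0)‖ =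
        ((mu ρ0 : ℝ) + (mu (ng.symm ρ0 : Zt) : ℝ)) * (1 / 2 * ‖F ρ0‖) := by
      have : (mu ρ0 : ℂ) * (1 / 2 * F ρ0) + (mu (ng.symm ρ0 : Zt) : ℂ) * (1 / 2 * F ρ0) =
          (((mu ρ0 : ℝ) + (mu (ng.symm ρ0 : Zt) : ℝ) : ℝ) : ℂ) * ((1 / 2 : ℝ) : ℂ) * F ρ0 := by push_cast; ring
      rw [this, norm_mul, norm_mul, Complex.norm_real, Complex.norm_real, Real.norm_eq_abs, Real.norm_eq_abs,
        abs_of_nonneg (by positivity), abs_of_nonneg (by norm_num)]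
      ring
    have h3 : ‖(mu ρ0 : ℂ) * (1 / 2 * F ρ0) + (mu (ng.symm ρ0 : Zt) : ℂ) * (1 / 2 * F ρ0)‖ ≤
        2 * (C * (X * (A ^ 2 * (1 + Real.log A)))) + 2 * A ^ E * ((m : ℝ) ^ J * 4 ^ d) := by
      rw [e1]
      refine (norm_sub_le _ _).trans ?_
      linarith
    rw [e2] at h3
    refine le_trans ?_ h3
    have h4 : 0 ≤ 1 / 2 * ‖F ρ0‖ := by positivity
    nlinarith
  have hfin2 : (m : ℝ) ^ J * (c0 * A ^ s) ≤
      (m : ℝ) ^ J * (4 * C * CX κ d * (1 + Real.log A) ^ 3 * A ^ 2 + 4 * 4 ^ d * A ^ E) := by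
    calc (m : ℝ) ^ J * (c0 * A ^ s) = c0 * (A ^ s * (m : ℝ) ^ J) := by ring
      _ ≤ ‖F ρ0‖ := hF0
      _ ≤ 4 * (C * (X * (A ^ 2 * (1 + Real.log A)))) + 4 * A ^ E * ((m : ℝ) ^ J * 4 ^ d) := by linarith
      _ = _ := by rw [hX]; ring
  have hfin3 := le_of_mul_le_mul_left hfin2 hmJ
  linarith

end Pool.Agent.Q260.LF
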