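import Pool.Agent.Q260.LF.Zs2

/-! # The main term -/

set_option autoImplicit false
set_option maxHeartbeats 1000000

open Complex Filter Topology Set MeasureTheory
open scoped ComplexConjugate
open Pool.Agent.Y23 (Zt mu Lg one_le_Lg Lg_cont)

namespace Pool.Agent.Q260.LF

/-- the angle -/
noncomputable def th (A u : ℝ) : ℝ := Real.pi / 2 - Real.arctan (u / A)

/-- the term for a zero on the line at height `u` -/
noncomputable def ff (A : ℝ) (n : ℕ) (u : ℝ) : ℝ := 1 - Real.cos (2 * n * th A u)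

/-- minus its derivative -/
noncomputable def kk (A : ℝ) (n : ℕ) (u : ℝ) : ℝ := 2 * n * A * Real.sin (2 * n * th A u) / (A ^ 2 + u ^ 2)

lemma th_deriv {A : ℝ} (hA : 0 < A) (u : ℝ) : HasDerivAt (th A) (-(A / (A ^ 2 + u ^ 2))) u := by
  have h1 : HasDerivAt (fun u : ℝ => u / A) (1 / A) u := (hasDerivAt_id u).div_const A
  have h2 := (h1.arctan).const_sub (Real.pi / 2)
  refine h2.congr_deriv ?_
  field_simp

lemma th_nonneg (A u : ℝ) : 0 ≤ th A u := by
  unfold th
  linarith [(Real.arctan_lt_pi_div_two (u / A)).le]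

lemma th_le {A u : ℝ} (hA : 0 < A) (hu : 0 < u) : th A u ≤ A / u := by
  unfold th
  have h1 : 0 < u / A := by positivity
  have h2 := Real.arctan_inv_of_pos h1
  have h3 : Real.arctan ((u / A)⁻¹) ≤ (u / A)⁻¹ := by
    have h0 : 0 ≤ (u / A)⁻¹ := by positivity
    have h4 := Real.le_tan (Real.arctan_nonneg.2 h0) (Real.arctan_lt_pi_div_two _)
    rwa [Real.tan_arctan] at h4
  rw [inv_div] at h2 h3
  linarith

lemma th_tendsto {A : ℝ} (hA : 0 < A) : Tendsto (th A) atTop (𝓝 0) := by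
  have h1 : Tendsto (fun u : ℝ => u / A) atTop atTop := tendsto_id.atTop_div_const hA
  have h2 := (tendsto_nhds_of_tendsto_nhdsWithin Real.tendsto_arctan_atTop).comp h1
  have h3 := h2.const_sub (Real.pi / 2)
  rw [sub_self] at h3
  exact h3

lemma ff_deriv {A : ℝ} (hA : 0 < A) (n : ℕ) (u : ℝ) : HasDerivAt (ff A n) (-(kk A n u)) u := by
  have h1 := (((th_deriv hA u).const_mul (2 * (n : ℝ))).cos).const_sub 1
  refine h1.congr_deriv ?_
  unfold kk
  ring

lemma ff_nonneg (A : ℝ) (n : ℕ) (u : ℝ) : 0 ≤ ff A n u := by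
  unfold ff; linarith [Real.cos_le_one (2 * n * th A u)]

lemma ff_le_two (A : ℝ) (n : ℕ) (u : ℝ) : ff A n u ≤ 2 := by
  unfold ff; linarith [Real.neg_one_le_cos (2 * n * th A u)]

lemma ff_le_sq {A : ℝ} (hA : 0 < A) (n : ℕ) {u : ℝ} (hu : 0 < u) : ff A n u ≤ 2 * (n * A / u) ^ 2 := by
  unfold ff
  have h1 := Real.one_sub_sq_div_two_le_cos (x := 2 * n * th A u)
  have h2 : (2 * (n : ℝ) * th A u) ^ 2 ≤ (2 * n * (A / u)) ^ 2 := by
    have h3 := th_le hA hu
    have h4 := th_nonneg A u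
    exact pow_le_pow_left₀ (by positivity) (mul_le_mul_of_nonneg_left h3 (by positivity)) 2
  have h5 : (2 * n * (A / u)) ^ 2 / 2 = 2 * (n * A / u) ^ 2 := by ring
  linarith

lemma ff_cont {A : ℝ} (hA : 0 < A) (n : ℕ) : Continuous (ff A n) :=
  continuous_iff_continuousAt.2 fun u => (ff_deriv hA n u).continuousAt

lemma kk_cont {A : ℝ} (hA : 0 < A) (n : ℕ) : Continuous (kk A n) := by
  have h1 : Continuous (th A) := continuous_iff_continuousAt.2 fun u => (th_deriv hA u).continuousAt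
  unfold kk
  refine Continuous.div (by fun_prop) (by fun_prop) fun u => ?_
  positivity

lemma ff_tendsto {A : ℝ} (hA : 0 < A) (n : ℕ) : Tendsto (ff A n) atTop (𝓝 0) := by
  have h1 := ((th_tendsto hA).const_mul (2 * (n : ℝ)))
  rw [mul_zero] at h1
  have h2 := (Real.continuous_cos.tendsto 0).comp h1
  rw [Real.cos_zero] at h2
  have h3 := h2.const_sub 1
  rw [sub_self] at h3
  exact h3

lemma kk_abs {A : ℝ} (hA : 1 ≤ A) (n : ℕ) (u : ℝ) : |kk A n u| ≤ 2 * n * A * (1 / (1 + u ^ 2)) := by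
  unfold kk
  rw [abs_div, abs_of_pos (show 0 < A ^ 2 + u ^ 2 by positivity), abs_mul,
    abs_of_nonneg (show (0 : ℝ) ≤ 2 * n * A by positivity), div_eq_mul_one_div]
  have h1 := Real.abs_sin_le_one (2 * n * th A u)
  have h2 : 1 / (A ^ 2 + u ^ 2) ≤ 1 / (1 + u ^ 2) := one_div_le_one_div_of_le (by positivity) (by nlinarith)
  calc 2 * n * A * |Real.sin (2 * n * th A u)| * (1 / (A ^ 2 + u ^ 2)) ≤ 2 * n * A * 1 * (1 / (1 + u ^ 2)) := by
        gcongr
    _ = _ := by ring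

lemma kk_abs_cube {A : ℝ} (hA : 1 ≤ A) (n : ℕ) {u : ℝ} (hu : 0 < u) :
    |kk A n u| ≤ 4 * n ^ 2 * A ^ 2 * (1 / (u * (1 + u ^ 2))) := by
  unfold kk
  rw [abs_div, abs_of_pos (show 0 < A ^ 2 + u ^ 2 by positivity), abs_mul,
    abs_of_nonneg (show (0 : ℝ) ≤ 2 * n * A by positivity), div_eq_mul_one_div]
  have h3 := th_le (by linarith : 0 < A) hu
  have h4 := th_nonneg A u
  have h1 : |Real.sin (2 * n * th A u)| ≤ 2 * n * (A / u) := by
    refine Real.abs_sin_le_abs.trans ?_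
    rw [abs_of_nonneg (by positivity)]
    exact mul_le_mul_of_nonneg_left h3 (by positivity)
  have h2 : 1 / (A ^ 2 + u ^ 2) ≤ 1 / (1 + u ^ 2) := one_div_le_one_div_of_le (by positivity) (by nlinarith)
  calc 2 * n * A * |Real.sin (2 * n * th A u)| * (1 / (A ^ 2 + u ^ 2)) ≤
        2 * n * A * (2 * n * (A / u)) * (1 / (1 + u ^ 2)) := by gcongr
    _ = _ := by field_simp; ring

end Pool.Agent.Q260.LF
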