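import Pool.Agent.Q260.LF.Arch

/-! # The main term: integrals -/

set_option autoImplicit false
set_option maxHeartbeats 1000000

open Complex Filter Topology Set MeasureTheory
open scoped ComplexConjugate
open Pool.Agent.Y23 (Zt mu Lg one_le_Lg Lg_cont)

namespace Pool.Agent.Q260.LF

lemma Lg_int : Integrable (fun u : ℝ => Lg u / (1 + u ^ 2)) := by
  have h1 := (integrable_rpow_neg_one_add_norm_sq (E := ℝ) (r := 3 / 2) (μ := volume) (by norm_num)).const_mul 4
  refine h1.mono' ?_ (Eventually.of_forall fun u => ?_)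
  · have : Continuous (fun u : ℝ => Lg u / (1 + u ^ 2)) :=
      Lg_cont.div (by fun_prop) fun u => by positivity
    exact this.aestronglyMeasurable
  · have hL := one_le_Lg u
    rw [Real.norm_eq_abs, Real.norm_eq_abs, sq_abs, abs_of_nonneg (by positivity)]
    set x : ℝ := 1 + u ^ 2 with hx
    have hx1 : 1 ≤ x := by rw [hx]; nlinarith [sq_nonneg u]
    have hx0 : 0 < x := by linarith
    set y : ℝ := x ^ (1 / 4 : ℝ) with hy
    have hy0 : 0 < y := Real.rpow_pos_of_pos hx0 _
    have hy4 : y ^ 4 = x := by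
      rw [hy, ← Real.rpow_natCast, ← Real.rpow_mul hx0.le]; norm_num
    have h2 : 3 + |u| ≤ 4 * y ^ 2 := by
      have h3 : (3 + |u|) ^ 2 ≤ (4 * y ^ 2) ^ 2 := by
        have h4 : (4 * y ^ 2) ^ 2 = 16 * x := by rw [← hy4]; ring
        rw [h4, hx]
        have h5 := sq_abs u
        nlinarith [sq_nonneg (|u| - 1), abs_nonneg u]
      exact (pow_le_pow_iff_left₀ (by positivity) (by positivity) two_ne_zero).1 h3
    have h6 : Lg u ≤ 4 * y := by
      unfold Lg
      have h7 : Real.log (3 + |u|) ≤ Real.log (4 * y ^ 2) := Real.log_le_log (by positivity) h2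
      rw [Real.log_mul (by norm_num) (by positivity), Real.log_pow,
        show (4 : ℝ) = 2 ^ 2 by norm_num, Real.log_pow] at h7
      have h8 := Real.log_two_lt_d9
      have h9 := Real.log_le_sub_one_of_pos hy0
      push_cast at h7
      linarith
    have h10 : x ^ (-(3 / 2 : ℝ) / 2) = y / x := by
      rw [hy, show (-(3 / 2 : ℝ) / 2) = 1 / 4 - 1 by norm_num, Real.rpow_sub_one hx0.ne']
    rw [h10]
    calc Lg u / x ≤ 4 * y / x := by gcongr
      _ = 4 * (y / x) := by ring

lemma inv_int : Integrable (fun u : ℝ => 1 / (1 + u ^ 2)) := by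
  refine Lg_int.mono' ?_ (Eventually.of_forall fun u => ?_)
  · have : Continuous (fun u : ℝ => 1 / (1 + u ^ 2)) :=
      continuous_const.div (by fun_prop) fun u => by positivity
    exact this.aestronglyMeasurable
  · rw [Real.norm_eq_abs, abs_of_nonneg (by positivity)]
    have := one_le_Lg u
    gcongr

lemma logdiv_int : IntegrableOn (fun u : ℝ => |Real.log u| / (1 + u ^ 2)) (Ioi 0) := by
  have hm : Measurable (fun u : ℝ => |Real.log u| / (1 + u ^ 2)) := by
    refine Measurable.div ?_ (by fun_prop)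
    exact (Real.measurable_log).abs
  rw [← Ioc_union_Ioi_eq_Ioi (zero_le_one (α := ℝ))]
  refine IntegrableOn.union ?_ ?_
  · have h1 : IntegrableOn (fun u : ℝ => |Real.log u|) (Ioc 0 1) := by
      have := (intervalIntegral.intervalIntegrable_log' (a := 0) (b := 1)).abs
      rwa [intervalIntegrable_iff_integrableOn_Ioc_of_le zero_le_one] at this
    refine Integrable.mono' h1 hm.aestronglyMeasurable ?_
    refine Eventually.of_forall fun u => ?_
    rw [Real.norm_eq_abs, abs_of_nonneg (by positivity)]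
    exact div_le_self (abs_nonneg _) (by nlinarith [sq_nonneg u])
  · refine Integrable.mono' Lg_int.integrableOn hm.aestronglyMeasurable ?_
    filter_upwards [ae_restrict_mem measurableSet_Ioi] with u hu
    have hu' : (1 : ℝ) < u := hu
    rw [Real.norm_eq_abs, abs_of_nonneg (by positivity), abs_of_nonneg (Real.log_nonneg hu'.le)]
    have : Real.log u ≤ Lg u := by
      unfold Lg
      exact Real.log_le_log (by linarith) (by rw [abs_of_pos (by linarith)]; linarith)
    gcongr

lemma ff_dom {A : ℝ} (hA : 1 ≤ A) (n : ℕ) {u : ℝ} (hu : 0 < u) :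
    ff A n u ≤ (4 + 4 * (n * A) ^ 2) * (1 / (1 + u ^ 2)) := by
  rw [mul_one_div, le_div_iff₀ (by positivity)]
  rcases le_total u 1 with h | h
  · have h1 := ff_le_two A n u
    have h2 := ff_nonneg A n u
    have h3 : u ^ 2 ≤ 1 := by nlinarith
    nlinarith [sq_nonneg (n * A)]
  · have h1 := ff_le_sq (by linarith : 0 < A) n hu
    have h2 := ff_nonneg A n u
    have h3 : 2 * (n * A / u) ^ 2 * (1 + u ^ 2) ≤ 4 * (n * A) ^ 2 := by
      rw [div_pow, mul_div_assoc', div_mul_eq_mul_div, div_le_iff₀ (by positivity)]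
      have h4 : 1 ≤ u ^ 2 := by nlinarith
      nlinarith [sq_nonneg (n * A)]
    calc ff A n u * (1 + u ^ 2) ≤ 2 * (n * A / u) ^ 2 * (1 + u ^ 2) := by gcongr
      _ ≤ _ := by linarith

lemma ff_int {A : ℝ} (hA : 1 ≤ A) (n : ℕ) : IntegrableOn (ff A n) (Ioi 0) := by
  refine Integrable.mono' (inv_int.const_mul (4 + 4 * (n * A) ^ 2)).integrableOn
    (ff_cont (by linarith) n).aestronglyMeasurable ?_
  filter_upwards [ae_restrict_mem measurableSet_Ioi] with u hu
  rw [Real.norm_eq_abs, abs_of_nonneg (ff_nonneg A n u)]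
  exact ff_dom hA n hu

lemma kk_int {A : ℝ} (hA : 1 ≤ A) (n : ℕ) : Integrable (kk A n) := by
  refine Integrable.mono' (inv_int.const_mul (2 * n * A)) (kk_cont (by linarith) n).aestronglyMeasurable ?_
  exact Eventually.of_forall fun u => by rw [Real.norm_eq_abs]; exact kk_abs hA n u

lemma int_kk {A : ℝ} (hA : 1 ≤ A) (n : ℕ) (t : ℝ) : ∫ u in Ioi t, kk A n u = ff A n t := by
  have h1 := integral_Ioi_of_hasDerivAt_of_tendsto' (a := t) (fun u _ => ff_deriv (by linarith : 0 < A) n u)
    (kk_int hA n).neg.integrableOn (ff_tendsto (by linarith) n)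
  rw [integral_neg] at h1
  linarith

/-- the total mass -/
lemma int_ff {A : ℝ} (hA : 1 ≤ A) (n : ℕ) : ∫ u in Ioi (0 : ℝ), ff A n u = Real.pi * (n * A) := by
  have hA0 : 0 < A := by linarith
  have h0 : ff A 0 = fun _ => 0 := by funext u; unfold ff; simp
  have hcos : ∀ u, 1 - Real.cos (2 * th A u) = 2 * A ^ 2 / (A ^ 2 + u ^ 2) := by
    intro u
    have e : 2 * th A u = Real.pi - 2 * Real.arctan (u / A) := by unfold th; ring
    rw [e, Real.cos_pi_sub, Real.cos_two_mul, Real.cos_sq_arctan]
    field_simp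
    ring
  have hth0 : th A 0 = Real.pi / 2 := by unfold th; simp
  have hthc : ContinuousAt (th A) 0 := (th_deriv hA0 0).continuousAt
  -- n = 1
  have h1 : ∫ u in Ioi (0 : ℝ), ff A 1 u = Real.pi * A := by
    have hd : ∀ u ∈ Ici (0 : ℝ), HasDerivAt (fun u => -(2 * A) * th A u) (ff A 1 u) u := by
      intro u _
      refine ((th_deriv hA0 u).const_mul (-(2 * A))).congr_deriv ?_
      have := hcos u
      unfold ff
      push_cast
      rw [mul_one, this]
      ring
    have ht : Tendsto (fun u => -(2 * A) * th A u) atTop (𝓝 0) := by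
      have := (th_tendsto hA0).const_mul (-(2 * A))
      rwa [mul_zero] at this
    rw [integral_Ioi_of_hasDerivAt_of_tendsto' hd (ff_int hA 1) ht, hth0]
    ring
  -- the recursion
  have hrec : ∀ m : ℕ, (∫ u in Ioi (0 : ℝ), ff A (m + 2) u) =
      2 * (∫ u in Ioi (0 : ℝ), ff A (m + 1) u) - ∫ u in Ioi (0 : ℝ), ff A m u := by
    intro m
    have hpt : ∀ u, ff A (m + 2) u - 2 * ff A (m + 1) u + ff A m u =
        4 * A ^ 2 * Real.cos (2 * (m + 1) * th A u) / (A ^ 2 + u ^ 2) := by
      intro u
      have e1 : Real.cos (2 * ((m + 2 : ℕ) : ℝ) * th A u) =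
          Real.cos (2 * (m + 1) * th A u) * Real.cos (2 * th A u) -
          Real.sin (2 * (m + 1) * th A u) * Real.sin (2 * th A u) := by
        rw [← Real.cos_add]; congr 1; push_cast; ring
      have e2 : Real.cos (2 * (m : ℝ) * th A u) =
          Real.cos (2 * (m + 1) * th A u) * Real.cos (2 * th A u) +
          Real.sin (2 * (m + 1) * th A u) * Real.sin (2 * th A u) := by
        rw [← Real.cos_sub]; congr 1; ring
      unfold ff
      rw [e1, e2]
      have e3 : Real.cos (2 * th A u) = 1 - 2 * A ^ 2 / (A ^ 2 + u ^ 2) := by linarith [hcos u]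
      rw [e3]
      push_cast
      ring
    have hd : ∀ u ∈ Ici (0 : ℝ), HasDerivAt (fun u => -(2 * A / (m + 1)) * Real.sin (2 * (m + 1) * th A u))
        (4 * A ^ 2 * Real.cos (2 * (m + 1) * th A u) / (A ^ 2 + u ^ 2)) u := by
      intro u _
      refine ((((th_deriv hA0 u).const_mul (2 * ((m : ℝ) + 1))).sin).const_mul (-(2 * A / (m + 1)))).congr_deriv ?_
      have : (m : ℝ) + 1 ≠ 0 := by positivity
      field_simp
      ring
    have ht : Tendsto (fun u => -(2 * A / (m + 1)) * Real.sin (2 * (m + 1) * th A u)) atTop (𝓝 0) := by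
      have h2 := (th_tendsto hA0).const_mul (2 * ((m : ℝ) + 1))
      rw [mul_zero] at h2
      have h3 := ((Real.continuous_sin.tendsto 0).comp h2).const_mul (-(2 * A / (m + 1)))
      rw [Real.sin_zero, mul_zero] at h3
      exact h3
    have hi : IntegrableOn (fun u => 4 * A ^ 2 * Real.cos (2 * (m + 1) * th A u) / (A ^ 2 + u ^ 2)) (Ioi 0) := by
      have h2 := ((ff_int hA (m + 2)).sub ((ff_int hA (m + 1)).const_mul 2)).add (ff_int hA m)
      refine h2.congr (Eventually.of_forall fun u => ?_)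
      exact hpt u
    have h2 := integral_Ioi_of_hasDerivAt_of_tendsto' hd hi ht
    have h3 : Real.sin (2 * ((m : ℝ) + 1) * th A 0) = 0 := by
      rw [hth0, show 2 * ((m : ℝ) + 1) * (Real.pi / 2) = ((m + 1 : ℕ) : ℝ) * Real.pi by push_cast; ring]
      exact Real.sin_nat_mul_pi _
    rw [h3, mul_zero, sub_zero] at h2
    have h4 : ∫ u in Ioi (0 : ℝ), (ff A (m + 2) u - 2 * ff A (m + 1) u + ff A m u) = 0 :=
      (integral_congr_ae (Eventually.of_forall fun u => hpt u)).trans h2
    have i1 : Integrable (fun u => ff A (m + 2) u - 2 * ff A (m + 1) u) (volume.restrict (Ioi 0)) :=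
      (ff_int hA (m + 2)).sub ((ff_int hA (m + 1)).const_mul 2)
    have i2 : Integrable (fun u => 2 * ff A (m + 1) u) (volume.restrict (Ioi 0)) :=
      (ff_int hA (m + 1)).const_mul 2
    rw [integral_add i1 (ff_int hA m), integral_sub (ff_int hA (m + 2)) i2, integral_const_mul] at h4
    linarith
  have hall : ∀ m : ℕ, (∫ u in Ioi (0 : ℝ), ff A m u) = Real.pi * (m * A) ∧
      (∫ u in Ioi (0 : ℝ), ff A (m + 1) u) = Real.pi * ((m + 1 : ℕ) * A) := by
    intro m
    induction m with
    | zero =>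
      refine ⟨by rw [h0]; simp, ?_⟩
      rw [zero_add, h1]; simp
    | succ m ih =>
      refine ⟨ih.2, ?_⟩
      rw [hrec m, ih.1, ih.2]
      push_cast
      ring
  exact (hall n).1

end Pool.Agent.Q260.LF
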