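import Pool.Agent.Q260.LF.Arch2

/-! # The main term: the asymptotic formula -/

set_option autoImplicit false
set_option maxHeartbeats 1000000

open Complex Filter Topology Set MeasureTheory
open scoped ComplexConjugate
open Pool.Agent.Y23 (Zt mu Lg one_le_Lg Lg_cont)

namespace Pool.Agent.Q260.LF

lemma kkL_int {A : ℝ} (hA : 1 ≤ A) (n : ℕ) :
    IntegrableOn (fun u => |kk A n u| * ((1 + u) * Lg u)) (Ioi 0) := by
  refine Integrable.mono' (Lg_int.const_mul (8 * n ^ 2 * A ^ 2 + 4 * n * A)).integrableOn ?_ ?_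
  · have : Continuous (fun u => |kk A n u| * ((1 + u) * Lg u)) :=
      (kk_cont (by linarith) n).abs.mul ((by fun_prop : Continuous fun u : ℝ => 1 + u).mul Lg_cont)
    exact this.aestronglyMeasurable
  · filter_upwards [ae_restrict_mem measurableSet_Ioi] with u hu
    have hu' : (0 : ℝ) < u := hu
    have hL := one_le_Lg u
    rw [Real.norm_eq_abs, abs_of_nonneg (by positivity)]
    rcases le_total u 1 with h | h
    · have h1 := kk_abs hA n u
      calc |kk A n u| * ((1 + u) * Lg u) ≤ (2 * n * A * (1 / (1 + u ^ 2))) * (2 * Lg u) := by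
            gcongr; linarith
        _ = (4 * n * A) * (Lg u / (1 + u ^ 2)) := by ring
        _ ≤ _ := by
          apply mul_le_mul_of_nonneg_right _ (by positivity)
          have : (0 : ℝ) ≤ 8 * n ^ 2 * A ^ 2 := by positivity
          linarith
    · have h1 := kk_abs_cube hA n hu'
      calc |kk A n u| * ((1 + u) * Lg u) ≤ (4 * n ^ 2 * A ^ 2 * (1 / (u * (1 + u ^ 2)))) * (2 * u * Lg u) := by
            gcongr; linarith
        _ = (8 * n ^ 2 * A ^ 2) * (Lg u / (1 + u ^ 2)) := by field_simp; ring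
        _ ≤ _ := by
          apply mul_le_mul_of_nonneg_right _ (by positivity)
          have : (0 : ℝ) ≤ 4 * n * A := by positivity
          linarith

/-- the sum over the zeros, moved to the line -/
lemma line_hasSum {A : ℝ} (hA : 1 ≤ A) (n : ℕ) :
    HasSum (fun ρ : Zt => (mu ρ : ℝ) * ff A n |(ρ : ℂ).im|) (∫ u in Ioi (0 : ℝ), kk A n u * N2 u) := by
  have h := fub (kk_cont (by linarith : 0 < A) n).aestronglyMeasurable (kkL_int hA n)
  simp only [int_kk hA n] at h
  exact h

lemma MM_cont : Continuous MM := by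
  unfold MM
  have h := (Real.continuous_mul_log.comp (by fun_prop : Continuous fun t : ℝ => t / (2 * Real.pi)))
  exact h.sub (by fun_prop)

lemma MM_deriv {u : ℝ} (hu : 0 < u) :
    HasDerivAt MM (1 / (2 * Real.pi) * Real.log (u / (2 * Real.pi))) u := by
  have hpi := Real.pi_pos
  have h1 : HasDerivAt (fun t : ℝ => t / (2 * Real.pi)) (1 / (2 * Real.pi)) u :=
    (hasDerivAt_id u).div_const _
  have h2 : HasDerivAt (fun x : ℝ => x * Real.log x - x) (Real.log (u / (2 * Real.pi))) (u / (2 * Real.pi)) := by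
    have h3 := (Real.hasDerivAt_mul_log (x := u / (2 * Real.pi)) (by positivity)).sub (hasDerivAt_id _)
    refine h3.congr_deriv ?_
    ring
  have h3 := h2.comp u h1
  refine h3.congr_deriv ?_
  ring

lemma MM_abs {u : ℝ} (hu : 7 ≤ u) : |MM u| ≤ 3 * u * Real.sqrt u := by
  have hpi := Real.pi_gt_three
  have hpi2 : Real.pi < 3.15 := Real.pi_lt_d2
  unfold MM
  set x := u / (2 * Real.pi) with hx
  have hx1 : 1 ≤ x := by rw [hx, le_div_iff₀ (by positivity)]; linarith
  have hxu : x ≤ u := div_le_self (by linarith) (by linarith)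
  have hl0 := Real.log_nonneg hx1
  have hs : Real.log x ≤ 2 * Real.sqrt x := by
    have h6 : 0 < Real.sqrt x := Real.sqrt_pos.2 (by linarith)
    have h7 : Real.log x = 2 * Real.log (Real.sqrt x) := by rw [Real.log_sqrt (by linarith)]; ring
    have h8 := Real.log_le_sub_one_of_pos h6
    rw [h7]; linarith
  have hs2 : Real.sqrt x ≤ Real.sqrt u := Real.sqrt_le_sqrt hxu
  have hs1 : 1 ≤ Real.sqrt u := by rw [Real.one_le_sqrt]; linarith
  have h1 : x * Real.log x ≤ u * (2 * Real.sqrt u) :=
    mul_le_mul hxu (hs.trans (by linarith)) hl0 (by linarith)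
  have h2 : 0 ≤ x * Real.log x := mul_nonneg (by linarith) hl0
  rw [abs_le]
  constructor
  · nlinarith
  · nlinarith

lemma MM_dom {u : ℝ} (hu : 0 < u) : |MM u| ≤ 20 * ((1 + u) * Lg u) := by
  have hL := one_le_Lg u
  rcases le_total u 10 with h | h
  · have := MM_small hu h
    nlinarith
  · have hpi := Real.pi_gt_three
    have hpi2 : Real.pi < 3.15 := Real.pi_lt_d2
    unfold MM
    set x := u / (2 * Real.pi) with hx
    have hx1 : 1 ≤ x := by rw [hx, le_div_iff₀ (by positivity)]; linarith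
    have hxu : x ≤ u := div_le_self (by linarith) (by linarith)
    have hl0 := Real.log_nonneg hx1
    have hl1 : Real.log x ≤ Lg u := by
      unfold Lg
      exact Real.log_le_log (by linarith) (by rw [abs_of_pos hu]; linarith)
    have h1 : x * Real.log x ≤ u * Lg u := mul_le_mul hxu hl1 hl0 (by linarith)
    have h2 : 0 ≤ x * Real.log x := mul_nonneg (by linarith) hl0
    have h3 : u ≤ u * Lg u := le_mul_of_one_le_right hu.le hL
    rw [abs_le]
    constructor
    · nlinarith
    · nlinarith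

/-- the logarithmic moment -/
lemma log_moment : ∃ K : ℝ, 0 < K ∧ ∀ A : ℝ, 1 ≤ A → ∀ n : ℕ, 1 ≤ n →
    IntegrableOn (fun u => ff A n u * Real.log (u / (n * A))) (Ioi 0) ∧
    |∫ u in Ioi (0 : ℝ), ff A n u * Real.log (u / (n * A))| ≤ K * (n * A) := by
  set K : ℝ := ∫ v in Ioi (0 : ℝ), 4 * (|Real.log v| / (1 + v ^ 2)) with hK
  have hK0 : 0 ≤ K := integral_nonneg fun v => by positivity
  refine ⟨K + 1, by positivity, fun A hA n hn => ?_⟩
  have hn' : (1 : ℝ) ≤ n := by exact_mod_cast hn
  have ha : 0 < (n : ℝ) * A := by positivity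
  have hb : 0 < 1 / ((n : ℝ) * A) := by positivity
  have hi0 : IntegrableOn (fun v => 4 * (|Real.log v| / (1 + v ^ 2))) (Ioi 0) := logdiv_int.const_mul 4
  have hi1 : IntegrableOn (fun u => 4 * (|Real.log (1 / (n * A) * u)| / (1 + (1 / (n * A) * u) ^ 2))) (Ioi 0) := by
    have h1 := (integrableOn_Ioi_comp_mul_left_iff (fun v => 4 * (|Real.log v| / (1 + v ^ 2))) 0 hb).2
      (by rw [mul_zero]; exact hi0)
    exact h1
  have hv : ∫ u in Ioi (0 : ℝ), 4 * (|Real.log (1 / (n * A) * u)| / (1 + (1 / (n * A) * u) ^ 2)) = (n * A) * K := by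
    have h1 := integral_comp_mul_left_Ioi (fun v => 4 * (|Real.log v| / (1 + v ^ 2))) 0 hb
    rw [mul_zero, smul_eq_mul, one_div, inv_inv, ← one_div] at h1
    exact h1
  have hpt : ∀ u ∈ Ioi (0 : ℝ), ‖ff A n u * Real.log (u / (n * A))‖ ≤
      4 * (|Real.log (1 / (n * A) * u)| / (1 + (1 / (n * A) * u) ^ 2)) := by
    intro u hu
    have hu' : (0 : ℝ) < u := hu
    have e : 1 / (n * A) * u = u / (n * A) := by ring
    rw [e, Real.norm_eq_abs, abs_mul, abs_of_nonneg (ff_nonneg A n u)]
    set v := u / (n * A) with hv'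
    have hv0 : 0 < v := by positivity
    have h1 : ff A n u ≤ 4 / (1 + v ^ 2) := by
      rw [le_div_iff₀ (by positivity)]
      rcases le_total v 1 with h | h
      · have h2 := ff_le_two A n u
        have h3 := ff_nonneg A n u
        have h4 : v ^ 2 ≤ 1 := by nlinarith
        nlinarith
      · have h2 := ff_le_sq (by linarith : 0 < A) n hu'
        have h3 := ff_nonneg A n u
        have e2 : n * A / u = 1 / v := by rw [hv']; field_simp
        rw [e2] at h2
        have h4 : 1 ≤ v ^ 2 := by nlinarith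
        have h5 : 2 * (1 / v) ^ 2 * (1 + v ^ 2) ≤ 4 := by
          rw [div_pow, one_pow]
          have : 2 * (1 / v ^ 2) * (1 + v ^ 2) = 2 / v ^ 2 + 2 := by field_simp
          rw [this]
          have : 2 / v ^ 2 ≤ 2 := div_le_self (by norm_num) h4
          linarith
        calc ff A n u * (1 + v ^ 2) ≤ 2 * (1 / v) ^ 2 * (1 + v ^ 2) := by gcongr
          _ ≤ 4 := h5
    calc ff A n u * |Real.log v| ≤ 4 / (1 + v ^ 2) * |Real.log v| := by gcongr
      _ = _ := by ring
  have hm : AEStronglyMeasurable (fun u => ff A n u * Real.log (u / (n * A))) (volume.restrict (Ioi 0)) := by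
    refine ((ff_cont (by linarith) n).measurable.mul ?_).aestronglyMeasurable
    exact Real.measurable_log.comp (by fun_prop)
  constructor
  · refine Integrable.mono' hi1 hm ?_
    filter_upwards [ae_restrict_mem measurableSet_Ioi] with u hu using hpt u hu
  · rw [← Real.norm_eq_abs]
    refine (norm_integral_le_of_norm_le hi1 ?_).trans ?_
    · filter_upwards [ae_restrict_mem measurableSet_Ioi] with u hu using hpt u hu
    · rw [hv]
      nlinarith

/-- integration by parts -/
lemma parts {A : ℝ} (hA : 1 ≤ A) {n : ℕ} (hn : 1 ≤ n) :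
    IntegrableOn (fun u => kk A n u * (2 * MM u)) (Ioi 0) ∧
    ∫ u in Ioi (0 : ℝ), kk A n u * (2 * MM u) =
      1 / Real.pi * ∫ u in Ioi (0 : ℝ), ff A n u * Real.log (u / (2 * Real.pi)) := by
  obtain ⟨K, -, hK⟩ := log_moment
  have hpi := Real.pi_pos
  have hn' : (1 : ℝ) ≤ n := by exact_mod_cast hn
  have ha : 0 < (n : ℝ) * A := by positivity
  have hA0 : 0 < A := by linarith
  have i1 : IntegrableOn (fun u => kk A n u * (2 * MM u)) (Ioi 0) := by
    refine Integrable.mono' ((kkL_int hA n).const_mul 40) ?_ ?_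
    · exact ((kk_cont hA0 n).mul (continuous_const.mul MM_cont)).aestronglyMeasurable
    · filter_upwards [ae_restrict_mem measurableSet_Ioi] with u hu
      have hu' : (0 : ℝ) < u := hu
      rw [Real.norm_eq_abs, abs_mul, abs_mul, abs_two]
      have h1 := MM_dom hu'
      calc |kk A n u| * (2 * |MM u|) ≤ |kk A n u| * (2 * (20 * ((1 + u) * Lg u))) := by gcongr
        _ = _ := by ring
  have i2 : IntegrableOn (fun u => ff A n u * Real.log (u / (2 * Real.pi))) (Ioi 0) := by
    have h1 := (hK A hA n hn).1.add ((ff_int hA n).mul_const (Real.log ((n * A) / (2 * Real.pi))))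
    refine h1.congr ?_
    filter_upwards [ae_restrict_mem measurableSet_Ioi] with u hu
    have hu' : (0 : ℝ) < u := hu
    show ff A n u * Real.log (u / (n * A)) + ff A n u * Real.log ((n * A) / (2 * Real.pi)) = _
    rw [← mul_add, ← Real.log_mul (by positivity) (by positivity)]
    congr 2
    field_simp
  refine ⟨i1, ?_⟩
  have hd : ∀ u ∈ Ioi (0 : ℝ), HasDerivAt (fun u => -(ff A n u * (2 * MM u)))
      (kk A n u * (2 * MM u) - 1 / Real.pi * (ff A n u * Real.log (u / (2 * Real.pi)))) u := by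
    intro u hu
    have h1 := ((ff_deriv hA0 n u).mul ((MM_deriv hu).const_mul 2)).neg
    refine h1.congr_deriv ?_
    field_simp
    ring
  have hc : ContinuousWithinAt (fun u => -(ff A n u * (2 * MM u))) (Ici 0) 0 :=
    ((ff_cont hA0 n).mul (continuous_const.mul MM_cont)).neg.continuousWithinAt
  have ht : Tendsto (fun u => -(ff A n u * (2 * MM u))) atTop (𝓝 0) := by
    have h1 : Tendsto (fun u : ℝ => 12 * (n * A) ^ 2 * (Real.sqrt u)⁻¹) atTop (𝓝 0) := by
      have := (tendsto_inv_atTop_zero.comp Real.tendsto_sqrt_atTop).const_mul (12 * ((n : ℝ) * A) ^ 2)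
      rwa [mul_zero] at this
    refine squeeze_zero_norm' ?_ h1
    filter_upwards [eventually_ge_atTop (7 : ℝ)] with u hu
    have hu0 : 0 < u := by linarith
    rw [norm_neg, Real.norm_eq_abs, abs_mul, abs_mul, abs_two, abs_of_nonneg (ff_nonneg A n u)]
    have h2 := ff_le_sq hA0 n hu0
    have h3 := MM_abs hu
    have h4 : 0 < Real.sqrt u := Real.sqrt_pos.2 hu0
    have h5 : Real.sqrt u ^ 2 = u := Real.sq_sqrt hu0.le
    calc ff A n u * (2 * |MM u|) ≤ (2 * (n * A / u) ^ 2) * (2 * (3 * u * Real.sqrt u)) := by gcongr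
      _ = 12 * (n * A) ^ 2 * (Real.sqrt u)⁻¹ := by
          field_simp
          rw [h5]
          ring
  have h1 := integral_Ioi_of_hasDerivAt_of_tendsto hc hd (i1.sub (i2.const_mul (1 / Real.pi))) ht
  have h0 : MM 0 = 0 := by unfold MM; simp
  rw [h0] at h1
  rw [integral_sub i1 (i2.const_mul (1 / Real.pi)), integral_const_mul] at h1
  simp only [mul_zero, neg_zero, sub_zero] at h1
  linarith

/-- the main term -/
theorem main_term : ∃ C : ℝ, 0 < C ∧ ∀ A : ℝ, 1 ≤ A → ∀ n : ℕ, 1 ≤ n →
    |(∑' ρ : Zt, (mu ρ : ℝ) * ff A n |(ρ : ℂ).im|) - n * A * Real.log (n * A)| ≤ C * (n * A) := by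
  obtain ⟨K, hK0, hK⟩ := log_moment
  obtain ⟨C, hC, hrv⟩ := rv
  set J : ℝ := ∫ u : ℝ, Lg u / (1 + u ^ 2) with hJ
  have hJ0 : 0 ≤ J := integral_nonneg fun u => by have := one_le_Lg u; positivity
  have hpi := Real.pi_gt_three
  refine ⟨2 * C * J + K + |Real.log (2 * Real.pi)|, by positivity, fun A hA n hn => ?_⟩
  have hn' : (1 : ℝ) ≤ n := by exact_mod_cast hn
  have ha : 0 < (n : ℝ) * A := by positivity
  have hA0 : 0 < A := by linarith
  have hs := line_hasSum hA n
  rw [hs.tsum_eq]
  obtain ⟨p1, p2⟩ := parts hA hn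
  have i3 : IntegrableOn (fun u => kk A n u * N2 u) (Ioi 0) := by
    obtain ⟨C', hC', hN⟩ := N2_le
    refine Integrable.mono' ((kkL_int hA n).const_mul C') ?_ ?_
    · exact ((kk_cont hA0 n).measurable.mul N2_mono.measurable).aestronglyMeasurable
    · filter_upwards [ae_restrict_mem measurableSet_Ioi] with u hu
      have hu' : (0 : ℝ) < u := hu
      rw [Real.norm_eq_abs, abs_mul, abs_of_nonneg (N2_nonneg u)]
      calc |kk A n u| * N2 u ≤ |kk A n u| * (C' * ((1 + u) * Lg u)) := by
            gcongr; exact hN u hu'.le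
        _ = _ := by ring
  have e1 : |(∫ u in Ioi (0 : ℝ), kk A n u * N2 u) - ∫ u in Ioi (0 : ℝ), kk A n u * (2 * MM u)| ≤
      2 * C * J * (n * A) := by
    rw [← integral_sub i3 p1, ← Real.norm_eq_abs]
    have hi : Integrable (fun u => 2 * n * A * C * (Lg u / (1 + u ^ 2))) (volume.restrict (Ioi (0 : ℝ))) :=
      (Lg_int.const_mul _).integrableOn
    refine (norm_integral_le_of_norm_le hi ?_).trans ?_
    · filter_upwards [ae_restrict_mem measurableSet_Ioi] with u hu
      have hu' : (0 : ℝ) < u := hu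
      rw [← mul_sub, norm_mul, Real.norm_eq_abs, Real.norm_eq_abs]
      calc |kk A n u| * |N2 u - 2 * MM u| ≤ (2 * n * A * (1 / (1 + u ^ 2))) * (C * Lg u) := by
            gcongr
            · exact kk_abs hA n u
            · exact hrv u hu'
        _ = _ := by ring
    · have h1 : ∫ u in Ioi (0 : ℝ), 2 * n * A * C * (Lg u / (1 + u ^ 2)) ≤
          ∫ u : ℝ, 2 * n * A * C * (Lg u / (1 + u ^ 2)) := by
        refine setIntegral_le_integral (Lg_int.const_mul _) (Eventually.of_forall fun u => ?_)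
        have := one_le_Lg u
        show 0 ≤ 2 * n * A * C * (Lg u / (1 + u ^ 2))
        positivity
      have h2 : ∫ u : ℝ, 2 * n * A * C * (Lg u / (1 + u ^ 2)) = 2 * n * A * C * J := integral_const_mul _ _
      rw [h2] at h1
      calc _ ≤ _ := h1
        _ = _ := by ring
  have e2 : ∫ u in Ioi (0 : ℝ), ff A n u * Real.log (u / (2 * Real.pi)) =
      (∫ u in Ioi (0 : ℝ), ff A n u * Real.log (u / (n * A))) +
        Real.pi * (n * A) * Real.log ((n * A) / (2 * Real.pi)) := by
    rw [← int_ff hA n, ← integral_mul_const, ← integral_add (hK A hA n hn).1 ((ff_int hA n).mul_const _)]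
    refine setIntegral_congr_fun measurableSet_Ioi fun u hu => ?_
    have hu' : (0 : ℝ) < u := hu
    show _ = ff A n u * Real.log (u / (n * A)) + ff A n u * Real.log ((n * A) / (2 * Real.pi))
    rw [← mul_add, ← Real.log_mul (by positivity) (by positivity)]
    congr 2
    field_simp
  have e3 := (hK A hA n hn).2
  have e4 : Real.log ((n * A) / (2 * Real.pi)) = Real.log (n * A) - Real.log (2 * Real.pi) :=
    Real.log_div ha.ne' (by positivity)
  have e5 : 1 / Real.pi * ((∫ u in Ioi (0 : ℝ), ff A n u * Real.log (u / (n * A))) +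
        Real.pi * (n * A) * Real.log ((n * A) / (2 * Real.pi))) =
      (∫ u in Ioi (0 : ℝ), ff A n u * Real.log (u / (n * A))) / Real.pi +
        (n * A) * Real.log (n * A) - (n * A) * Real.log (2 * Real.pi) := by
    rw [e4]
    field_simp
    ring
  rw [p2, e2, e5] at e1
  have e6 : |(∫ u in Ioi (0 : ℝ), ff A n u * Real.log (u / (n * A))) / Real.pi| ≤ K * (n * A) := by
    rw [abs_div, abs_of_pos Real.pi_pos, div_le_iff₀ Real.pi_pos]
    have : 0 ≤ K * (n * A) := by positivity
    nlinarith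
  have e7 := abs_le.1 (le_refl |Real.log (2 * Real.pi)|)
  have e8 : |(n * A) * Real.log (2 * Real.pi)| ≤ |Real.log (2 * Real.pi)| * (n * A) := by
    rw [abs_mul, abs_of_pos ha, mul_comm]
  rw [abs_le] at e1 e6 e8 ⊢
  constructor
  · linarith [e1.1, e6.1, e8.1, e8.2]
  · linarith [e1.2, e6.2, e8.1, e8.2]

end Pool.Agent.Q260.LF
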