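import Mathlib

/-! # The test polynomials and the domination of coefficients -/

set_option autoImplicit false

open Polynomial

namespace Pool.Agent.Q260.LF

/-- domination of the coefficients -/
def Dom (P : ℂ[X]) (Q : ℝ[X]) : Prop := ∀ k, ‖P.coeff k‖ ≤ Q.coeff k

lemma Dom.mul {P P' : ℂ[X]} {Q Q' : ℝ[X]} (h : Dom P Q) (h' : Dom P' Q') : Dom (P * P') (Q * Q') := by
  intro k
  rw [coeff_mul, coeff_mul]
  refine (norm_sum_le _ _).trans (Finset.sum_le_sum fun x _ => ?_)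
  rw [norm_mul]
  exact mul_le_mul (h _) (h' _) (norm_nonneg _) ((norm_nonneg _).trans (h _))

lemma Dom.one : Dom 1 1 := by
  intro k
  rw [coeff_one, coeff_one]
  split_ifs <;> simp

lemma Dom.pow {P : ℂ[X]} {Q : ℝ[X]} (h : Dom P Q) (n : ℕ) : Dom (P ^ n) (Q ^ n) := by
  induction n with
  | zero => simpa using Dom.one
  | succ n ih => rw [pow_succ, pow_succ]; exact ih.mul h

lemma Dom.prod {ι : Type*} {P : ι → ℂ[X]} {Q : ι → ℝ[X]} (W : Finset ι) (h : ∀ i, Dom (P i) (Q i)) :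
    Dom (∏ i ∈ W, P i) (∏ i ∈ W, Q i) := by
  classical
  induction W using Finset.induction_on with
  | empty => simpa using Dom.one
  | insert i W hi ih => rw [Finset.prod_insert hi, Finset.prod_insert hi]; exact (h i).mul ih

lemma Dom.add {P P' : ℂ[X]} {Q Q' : ℝ[X]} (h : Dom P Q) (h' : Dom P' Q') : Dom (P + P') (Q + Q') := by
  intro k
  rw [coeff_add, coeff_add]
  exact (norm_add_le _ _).trans (add_le_add (h k) (h' k))

lemma Dom.zero : Dom 0 0 := by intro k; simp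

lemma Dom.sum {ι : Type*} {P : ι → ℂ[X]} {Q : ι → ℝ[X]} (W : Finset ι) (h : ∀ i, Dom (P i) (Q i)) :
    Dom (∑ i ∈ W, P i) (∑ i ∈ W, Q i) := by
  classical
  induction W using Finset.induction_on with
  | empty => simpa using Dom.zero
  | insert i W hi ih => rw [Finset.sum_insert hi, Finset.sum_insert hi]; exact (h i).add ih

lemma Dom.mono {a : ℂ} {b : ℝ} (h : ‖a‖ ≤ b) (n : ℕ) : Dom (C a * X ^ n) (C b * X ^ n) := by
  intro k
  rw [coeff_C_mul_X_pow, coeff_C_mul_X_pow]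
  split_ifs
  · exact h
  · simp

variable {ι : Type*}

/-- the test polynomial -/
noncomputable def KK (e : ℂ) (v : ι → ℂ) (W : Finset ι) (n1 J m m' : ℕ) : ℂ[X] :=
  (C (e ^ n1) * X ^ n1) * (∑ i ∈ Finset.range m, C (e ^ i) * X ^ i) ^ J * ∏ ρ ∈ W, (1 + C (-(v ρ)) * X ^ m')

/-- the dominating polynomial -/
noncomputable def QQ (W : Finset ι) (n1 J m m' : ℕ) : ℝ[X] :=
  (C 1 * X ^ n1) * (∑ i ∈ Finset.range m, C 1 * X ^ i) ^ J * ∏ _ρ ∈ W, (1 + C 3 * X ^ m')

lemma KK_dom {e : ℂ} (he : ‖e‖ = 1) {v : ι → ℂ} (hv : ∀ i, ‖v i‖ ≤ 3) (W : Finset ι) (n1 J m m' : ℕ) :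
    Dom (KK e v W n1 J m m') (QQ W n1 J m m') := by
  unfold KK QQ
  refine Dom.mul (Dom.mul (Dom.mono (by rw [norm_pow, he, one_pow]) _) (Dom.pow (Dom.sum _ fun i => Dom.mono ?_ _) _))
    (Dom.prod _ fun i => Dom.one.add (Dom.mono ?_ _))
  · rw [norm_pow, he, one_pow]
  · rw [norm_neg]; exact hv i

lemma KK_eval (e : ℂ) (v : ι → ℂ) (W : Finset ι) (n1 J m m' : ℕ) (x : ℂ) :
    (KK e v W n1 J m m').eval x =
      (e * x) ^ n1 * (∑ i ∈ Finset.range m, (e * x) ^ i) ^ J * ∏ ρ ∈ W, (1 - v ρ * x ^ m') := by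
  unfold KK
  rw [eval_mul, eval_mul, eval_mul, eval_pow, eval_pow, eval_C, eval_X, eval_finsetSum, eval_prod, mul_pow]
  congr 1
  · congr 2
    refine Finset.sum_congr rfl fun i _ => ?_
    rw [eval_mul, eval_pow, eval_C, eval_X, mul_pow]
  · refine Finset.prod_congr rfl fun i _ => ?_
    rw [eval_add, eval_mul, eval_pow, eval_C, eval_X, eval_one]
    ring

lemma QQ_map (W : Finset ι) (n1 J m m' : ℕ) :
    (QQ W n1 J m m').map (algebraMap ℝ ℂ) = KK 1 (fun _ => -3) W n1 J m m' := by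
  unfold QQ KK
  simp only [Polynomial.map_mul, Polynomial.map_pow, Polynomial.map_sum, Polynomial.map_prod, Polynomial.map_add,
    Polynomial.map_one, Polynomial.map_C, Polynomial.map_X, one_pow, neg_neg]
  simp

lemma QQ_coeff (W : Finset ι) (n1 J m m' k : ℕ) :
    ((QQ W n1 J m m').coeff k : ℂ) = (KK 1 (fun _ => -3) W n1 J m m').coeff k := by
  rw [← QQ_map, coeff_map]
  rfl

lemma QQ_eval_one (W : Finset ι) (n1 J m m' : ℕ) :
    (QQ W n1 J m m').eval 1 = (m : ℝ) ^ J * 4 ^ W.card := by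
  unfold QQ
  simp only [eval_mul, eval_pow, eval_finsetSum, eval_add, eval_one, eval_C, eval_X, one_pow, mul_one,
    Finset.sum_const, Finset.prod_const, Finset.card_range, nsmul_eq_mul]
  norm_num

lemma QQ_coeff_low (W : Finset ι) (n1 J m m' k : ℕ) (h : k < n1) : (QQ W n1 J m m').coeff k = 0 := by
  unfold QQ
  rw [map_one, one_mul, mul_assoc, coeff_X_pow_mul', if_neg (by omega)]

lemma KK_natDegree (e : ℂ) (v : ι → ℂ) (W : Finset ι) (n1 J m m' : ℕ) :
    (KK e v W n1 J m m').natDegree ≤ n1 + J * m + W.card * m' := by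
  unfold KK
  refine natDegree_mul_le.trans (add_le_add (natDegree_mul_le.trans (add_le_add ?_ ?_)) ?_)
  · exact natDegree_C_mul_X_pow_le _ _
  · refine natDegree_pow_le.trans (Nat.mul_le_mul_left _ ?_)
    refine natDegree_sum_le_of_forall_le _ _ fun i hi => ?_
    exact (natDegree_C_mul_X_pow_le _ _).trans (Finset.mem_range.1 hi).le
  · refine (natDegree_prod_le _ _).trans ?_
    refine (Finset.sum_le_card_nsmul _ _ m' fun i _ => ?_).trans (by rw [smul_eq_mul])
    refine (natDegree_add_le _ _).trans (max_le (by simp) (natDegree_C_mul_X_pow_le _ _))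

end Pool.Agent.Q260.LF
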