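import Pool.Agent.Q260.LF.Coef
import Pool.Agent.Q260.LF.B1

/-! # The functional on polynomials -/

set_option autoImplicit false
set_option maxHeartbeats 1000000

open Polynomial
open scoped ComplexConjugate
open Pool.Agent.Y23 (Zt mu half_re mu_conj cjZ rfZ rfZ_sub mu_rfZ)

namespace Pool.Agent.Q260.LF

/-- the transform of a polynomial -/
noncomputable def hat (A : ℝ) (P : ℂ[X]) (z : ℂ) : ℂ :=
  (2 * P.eval 1 - P.eval (ww A z) - P.eval (ww A z)⁻¹) / 2

/-- the functional -/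
noncomputable def Lam (A : ℝ) (P : ℂ[X]) (N : ℕ) : ℂ := ∑ k ∈ Finset.range N, P.coeff k * cf A k

lemma hat_eq (A : ℝ) {P : ℂ[X]} {N : ℕ} (h : P.natDegree < N) (z : ℂ) :
    hat A P z = ∑ k ∈ Finset.range N, P.coeff k * TT A k z := by
  unfold hat TT
  rw [eval_eq_sum_range' h, eval_eq_sum_range' h, eval_eq_sum_range' h, Finset.mul_sum, ← Finset.sum_sub_distrib,
    ← Finset.sum_sub_distrib, Finset.sum_div]
  refine Finset.sum_congr rfl fun k _ => ?_
  rw [one_pow]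
  ring

lemma Lam_hasSum {A : ℝ} (hA : 3 / 2 ≤ A) {P : ℂ[X]} {N : ℕ} (h : P.natDegree < N) :
    HasSum (fun ρ : Zt => (mu ρ : ℂ) * hat A P ((ρ : ℂ) - 1 / 2)) (Lam A P N) := by
  have h1 : ∀ k ∈ Finset.range N, HasSum (fun ρ : Zt => P.coeff k * ((mu ρ : ℂ) * TT A k ((ρ : ℂ) - 1 / 2)))
      (P.coeff k * cf A k) := fun k _ => (TT_summable hA k).hasSum.mul_left _
  have h2 := hasSum_sum h1
  refine h2.congr_fun fun ρ => ?_
  rw [hat_eq A h, Finset.mul_sum]
  refine Finset.sum_congr rfl fun k _ => ?_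
  ring

lemma cf_conj (A : ℝ) (k : ℕ) : conj (cf A k) = cf A k := by
  unfold cf
  rw [Complex.conj_tsum, ← cjZ.tsum_eq]
  refine tsum_congr fun ρ => ?_
  have k1 : ((cjZ ρ : Zt) : ℂ) = conj (ρ : ℂ) := rfl
  have k2 : conj (ρ : ℂ) - 1 / 2 = conj ((ρ : ℂ) - 1 / 2) := by
    rw [map_sub, map_div₀, map_one, map_ofNat]
  rw [k1, mu_conj ρ.2, k2, TT_conj, map_mul, Complex.conj_conj, Complex.conj_natCast]

lemma cf_re (A : ℝ) (k : ℕ) : cf A k = ((cf A k).re : ℂ) := (Complex.conj_eq_iff_re.1 (cf_conj A k)).symm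

lemma cf_zero (A : ℝ) : cf A 0 = 0 := by
  unfold cf
  refine (tsum_congr fun ρ => ?_).trans tsum_zero
  unfold TT
  simp
  norm_num

/-- the comparison of the values of the functional -/
lemma Lam_dom {A : ℝ} {P P' : ℂ[X]} {Q : ℝ[X]} (hd : Dom P Q) (hQ : ∀ k, (Q.coeff k : ℂ) = P'.coeff k) {N n1 : ℕ}
    (hN : Q.natDegree < N) (hlow : ∀ k < n1, Q.coeff k = 0) {Y σ : ℝ} (hσ : |σ| ≤ 1)
    (hpos : ∀ k < N, n1 ≤ k → |(cf A k).re| ≤ σ * (cf A k).re + 2 * Y) :
    ‖Lam A P N‖ ≤ ‖Lam A P' N‖ + 2 * Y * Q.eval 1 := by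
  have e : Lam A P' N = ((∑ k ∈ Finset.range N, Q.coeff k * (cf A k).re : ℝ) : ℂ) := by
    unfold Lam
    push_cast
    refine Finset.sum_congr rfl fun k _ => ?_
    rw [← hQ k, ← cf_re]
  have hQ0 : ∀ k, 0 ≤ Q.coeff k := fun k => (norm_nonneg _).trans (hd k)
  have h1 : σ * ∑ k ∈ Finset.range N, Q.coeff k * (cf A k).re ≤ ‖Lam A P' N‖ := by
    rw [e, Complex.norm_real, Real.norm_eq_abs]
    refine (le_abs_self _).trans ?_
    rw [abs_mul]
    have := abs_nonneg (∑ k ∈ Finset.range N, Q.coeff k * (cf A k).re)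
    nlinarith
  have h2 : ‖Lam A P N‖ ≤ ∑ k ∈ Finset.range N, (σ * (Q.coeff k * (cf A k).re) + Q.coeff k * (2 * Y)) := by
    unfold Lam
    refine (norm_sum_le _ _).trans (Finset.sum_le_sum fun k hk => ?_)
    rw [norm_mul, cf_re, Complex.norm_real, Real.norm_eq_abs, Complex.ofReal_re]
    rcases lt_or_ge k n1 with h | h
    · have h3 : ‖P.coeff k‖ ≤ 0 := by
        have := hd k
        rw [hlow k h] at this
        exact this
      have h4 : ‖P.coeff k‖ = 0 := le_antisymm h3 (norm_nonneg _)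
      rw [h4, hlow k h]
      simp
    · have h3 := hpos k (Finset.mem_range.1 hk) h
      calc ‖P.coeff k‖ * |(cf A k).re| ≤ Q.coeff k * (σ * (cf A k).re + 2 * Y) :=
            mul_le_mul (hd k) h3 (abs_nonneg _) (hQ0 k)
        _ = _ := by ring
  rw [Finset.sum_add_distrib, ← Finset.sum_mul, ← Finset.mul_sum] at h2
  have h4 : ∑ k ∈ Finset.range N, Q.coeff k = Q.eval 1 := by
    rw [eval_eq_sum_range' hN]
    refine Finset.sum_congr rfl fun k _ => ?_
    rw [one_pow, mul_one]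
  rw [h4] at h2
  linarith

/-- the bound of the transform by the terms -/
lemma hat_le {A : ℝ} {P : ℂ[X]} {Q : ℝ[X]} (hd : Dom P Q) {N : ℕ} (hP : P.natDegree < N) (hQ : Q.natDegree < N)
    {z : ℂ} {t : ℝ} (ht : ∀ k < N, ‖TT A k z‖ ≤ t) : ‖hat A P z‖ ≤ Q.eval 1 * t := by
  rw [hat_eq A hP, eval_eq_sum_range' hQ, Finset.sum_mul]
  refine (norm_sum_le _ _).trans (Finset.sum_le_sum fun k hk => ?_)
  rw [norm_mul, one_pow, mul_one]
  exact mul_le_mul (hd k) (ht k (Finset.mem_range.1 hk)) (norm_nonneg _) ((norm_nonneg _).trans (hd k))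

lemma QQ_natDegree {ι : Type*} (W : Finset ι) (n1 J m m' : ℕ) :
    (QQ W n1 J m m').natDegree ≤ n1 + J * m + W.card * m' := by
  have h1 : ((QQ W n1 J m m').map (algebraMap ℝ ℂ)).natDegree = (QQ W n1 J m m').natDegree :=
    natDegree_map_eq_of_injective (algebraMap ℝ ℂ).injective _
  rw [← h1, QQ_map]
  exact KK_natDegree _ _ _ _ _ _ _

end Pool.Agent.Q260.LF
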