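import Pool.Agent.Q260.LF.Zs1
import Pool.Agent.W190.C3

/-! # Density sums over the zeros -/

set_option autoImplicit false
set_option maxHeartbeats 1000000

open Complex Filter Topology Set MeasureTheory
open scoped ComplexConjugate
open Pool.Agent.Y23 (Zt mu Lg one_le_Lg Lg_cont finite_low IsZ rfZ rfZ_val mu_rfZ)

namespace Pool.Agent.Q260.LF

lemma FF_zero {s : ℂ} (h : IsZ s) : H353.FF s = 0 := by
  have h1 : s ≠ 1 := by
    rintro rfl
    have := h.2.2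
    simp at this
  show ZU.J_g2b.FF s = 0
  rw [ZU.J_g2b.FF_ne h1, h.1, mul_zero]

lemma mu_353 {s : ℂ} (h : IsZ s) : H353.mu s = mu s := by
  have h1 : s ≠ 1 := by
    rintro rfl
    have := h.2.2
    simp at this
  have hev : H353.FF =ᶠ[𝓝 s] fun v => (v - 1) * riemannZeta v := by
    filter_upwards [isOpen_ne.mem_nhds h1] with v hv
    exact ZU.J_g2b.FF_ne hv
  have hA : AnalyticAt ℂ (fun v : ℂ => v - 1) s := by fun_prop
  have hz : AnalyticAt ℂ riemannZeta s := Pool.Agent.Y23.zeta_an h.2.2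
  have h2 : analyticOrderAt (fun v : ℂ => v - 1) s = 0 := by
    rw [hA.analyticOrderAt_eq_zero]
    exact sub_ne_zero.2 h1
  have h3 : analyticOrderAt H353.FF s = analyticOrderAt riemannZeta s := by
    rw [analyticOrderAt_congr hev]
    have := analyticOrderAt_mul hA hz
    rw [h2, zero_add] at this
    exact this
  unfold H353.mu mu analyticOrderNatAt
  rw [h3]

/-- the number of zeros off the line by at least `x` and of height at most `T` -/
noncomputable def Dc (x T : ℝ) : ℝ :=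
  ∑' ρ : Zt, if |(ρ : ℂ).im| ≤ T ∧ x ≤ |(ρ : ℂ).re - 1 / 2| then (mu ρ : ℝ) else 0

lemma Dc_summable (x T : ℝ) :
    Summable (fun ρ : Zt => if |(ρ : ℂ).im| ≤ T ∧ x ≤ |(ρ : ℂ).re - 1 / 2| then (mu ρ : ℝ) else 0) := by
  refine summable_of_hasFiniteSupport ((finite_low T).subset ?_)
  intro ρ hρ
  rw [Function.mem_support] at hρ
  by_contra h
  have h' : ¬ |(ρ : ℂ).im| ≤ T := h
  rw [if_neg (fun hh => h' hh.1)] at hρ
  exact hρ rfl

lemma Lg_le_rpow {ε : ℝ} (hε : 0 < ε) : ∃ C : ℝ, 0 < C ∧ ∀ T : ℝ, 1 ≤ T → Lg T ≤ C * T ^ ε := by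
  refine ⟨4 ^ ε / ε, by positivity, fun T hT => ?_⟩
  unfold Lg
  rw [abs_of_nonneg (by linarith)]
  have h1 := Real.log_le_rpow_div (show (0 : ℝ) ≤ 3 + T by linarith) hε
  have h2 : (3 + T) ^ ε ≤ (4 * T) ^ ε := Real.rpow_le_rpow (by linarith) (by linarith) hε.le
  rw [Real.mul_rpow (by norm_num) (by linarith)] at h2
  calc Real.log (3 + T) ≤ (3 + T) ^ ε / ε := h1
    _ ≤ (4 ^ ε * T ^ ε) / ε := by gcongr
    _ = _ := by ring

lemma Dc_le {x ε : ℝ} (h0 : 0 ≤ x) (h1 : x ≤ 1 / 2) (hε : 0 < ε) :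
    ∃ C : ℝ, 0 < C ∧ ∀ T : ℝ, 1 ≤ T → Dc x T ≤ C * T ^ (1 - 4 * x ^ 2 + ε) := by
  classical
  rcases h0.eq_or_lt with h | h
  · subst h
    obtain ⟨C, hC, hN⟩ := N2_le
    obtain ⟨C1, hC1, hL⟩ := Lg_le_rpow hε
    refine ⟨C * (2 * C1), by positivity, fun T hT => ?_⟩
    have e1 : Dc 0 T ≤ N2 T := by
      refine (Dc_summable 0 T).tsum_le_tsum (fun ρ => ?_) (N2_summable T)
      split_ifs with h1 h2 h3
      · exact le_rfl
      · exact absurd h1.1 h2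
      · exact Nat.cast_nonneg _
      · exact le_rfl
    have e2 : T ^ (1 - 4 * (0 : ℝ) ^ 2 + ε) = T * T ^ ε := by
      rw [show 1 - 4 * (0 : ℝ) ^ 2 + ε = 1 + ε by ring, Real.rpow_add (by linarith), Real.rpow_one]
    rw [e2]
    have h3 := one_le_Lg T
    have h4 := hL T hT
    calc Dc 0 T ≤ N2 T := e1
      _ ≤ C * ((1 + T) * Lg T) := hN T (by linarith)
      _ ≤ C * ((2 * T) * (C1 * T ^ ε)) := by gcongr; linarith
      _ = _ := by ring
  rcases h1.eq_or_lt with h' | h'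
  · refine ⟨1, one_pos, fun T hT => ?_⟩
    have e : Dc x T = 0 := by
      unfold Dc
      refine (tsum_congr fun ρ => ?_).trans tsum_zero
      rw [if_neg]
      rintro ⟨_, h3⟩
      have h4 := ρ.2.2.1
      have h5 := ρ.2.2.2
      rw [h'] at h3
      rcases le_abs.1 h3 with h6 | h6 <;> linarith
    rw [e]
    positivity
  obtain ⟨C, hC, hd⟩ := Pool.Agent.W190.carlson (1 / 2 + x) ε (by linarith) (by linarith) hε
  refine ⟨2 * C, by positivity, fun T hT => ?_⟩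
  have e : 4 * (1 / 2 + x) * (1 - (1 / 2 + x)) + ε = 1 - 4 * x ^ 2 + ε := by ring
  rw [e] at hd
  refine Real.tsum_le_of_sum_le (fun ρ => by split_ifs <;> positivity) fun S => ?_
  set S1 := S.filter (fun ρ : Zt => |(ρ : ℂ).im| ≤ T ∧ x ≤ (ρ : ℂ).re - 1 / 2) with hS1
  set S2 := S.filter (fun ρ : Zt => |(ρ : ℂ).im| ≤ T ∧ x ≤ -((ρ : ℂ).re - 1 / 2)) with hS2
  have b1 : ∑ ρ ∈ S1, (mu ρ : ℝ) ≤ C * T ^ (1 - 4 * x ^ 2 + ε) := by
    have := hd T hT (S1.map (Function.Embedding.subtype _)) (by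
      intro s hs
      rw [Finset.mem_map] at hs
      obtain ⟨ρ, hρ, rfl⟩ := hs
      have := (Finset.mem_filter.1 hρ).2
      exact ⟨FF_zero ρ.2, by simp; linarith, this.1⟩)
    rw [Finset.sum_map] at this
    refine le_trans (le_of_eq ?_) this
    refine Finset.sum_congr rfl fun ρ _ => ?_
    rw [Function.Embedding.subtype_apply, mu_353 ρ.2]
  have b2 : ∑ ρ ∈ S2, (mu ρ : ℝ) ≤ C * T ^ (1 - 4 * x ^ 2 + ε) := by
    have := hd T hT ((S2.map rfZ.toEmbedding).map (Function.Embedding.subtype _)) (by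
      intro s hs
      rw [Finset.mem_map] at hs
      obtain ⟨ρ, hρ, rfl⟩ := hs
      rw [Finset.mem_map] at hρ
      obtain ⟨ρ', hρ', rfl⟩ := hρ
      have := (Finset.mem_filter.1 hρ').2
      have hv : ((rfZ ρ' : Zt) : ℂ) = 1 - conj (ρ' : ℂ) := rfl
      refine ⟨FF_zero (rfZ ρ').2, ?_, ?_⟩
      · simp only [Function.Embedding.subtype_apply, Equiv.coe_toEmbedding, hv, sub_re, one_re, conj_re]
        linarith [this.2]
      · simp only [Function.Embedding.subtype_apply, Equiv.coe_toEmbedding, hv, sub_im, one_im, conj_im]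
        simpa using this.1)
    rw [Finset.sum_map, Finset.sum_map] at this
    refine le_trans (le_of_eq ?_) this
    refine Finset.sum_congr rfl fun ρ _ => ?_
    rw [Function.Embedding.subtype_apply, Equiv.coe_toEmbedding, mu_353 (rfZ ρ).2, mu_rfZ]
  have b3 : ∑ ρ ∈ S, (if |(ρ : ℂ).im| ≤ T ∧ x ≤ |(ρ : ℂ).re - 1 / 2| then (mu ρ : ℝ) else 0) ≤
      ∑ ρ ∈ S1, (mu ρ : ℝ) + ∑ ρ ∈ S2, (mu ρ : ℝ) := by
    rw [hS1, hS2, Finset.sum_filter, Finset.sum_filter, ← Finset.sum_add_distrib]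
    refine Finset.sum_le_sum fun ρ _ => ?_
    have hm : (0 : ℝ) ≤ (mu ρ : ℝ) := Nat.cast_nonneg _
    by_cases hc : |(ρ : ℂ).im| ≤ T ∧ x ≤ |(ρ : ℂ).re - 1 / 2|
    · rw [if_pos hc]
      rcases le_abs.1 hc.2 with h3 | h3
      · rw [if_pos ⟨hc.1, h3⟩]
        split_ifs <;> linarith
      · rw [if_pos (show |(ρ : ℂ).im| ≤ T ∧ x ≤ -((ρ : ℂ).re - 1 / 2) from ⟨hc.1, h3⟩)]
        split_ifs <;> linarith
    · rw [if_neg hc]
      split_ifs <;> positivity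
  linarith

lemma Dc_zero {x h T : ℝ} (hx : h < x) (hz : ∀ ρ : Zt, |(ρ : ℂ).re - 1 / 2| ≤ h) : Dc x T = 0 := by
  unfold Dc
  refine (tsum_congr fun ρ => ?_).trans tsum_zero
  rw [if_neg]
  rintro ⟨_, h3⟩
  linarith [hz ρ]

/-- the density sum -/
theorem dens_sum {h κ m : ℝ} (h1 : h ≤ 1 / 2) (hκ : 0 ≤ κ) (hm : 0 < m)
    (hz : ∀ ρ : Zt, |(ρ : ℂ).re - 1 / 2| ≤ h)
    (hf : ∀ η : ℝ, 0 ≤ η → η ≤ h → m ≤ 4 * η ^ 2 - 2 * κ * η + 1) :
    ∃ C δ : ℝ, 0 < C ∧ 0 < δ ∧ ∀ T : ℝ, 1 ≤ T →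
      ∑' ρ : Zt, (if |(ρ : ℂ).im| ≤ T then (mu ρ : ℝ) * T ^ (2 * κ * |(ρ : ℂ).re - 1 / 2|) else 0) ≤
        C * T ^ (2 - δ) := by
  classical
  obtain ⟨J, hJ⟩ := exists_nat_gt (8 * κ / m + 1)
  have hJ0 : (0 : ℝ) < J := lt_trans (by positivity) hJ
  set d : ℝ := 1 / (2 * J) with hd
  have hd0 : 0 < d := by positivity
  have hdJ : d * J = 1 / 2 := by rw [hd]; field_simp
  have hκd : 2 * κ * d ≤ m / 4 := by
    have h2 : 8 * κ / m < J := by linarith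
    rw [div_lt_iff₀ hm] at h2
    rw [hd, mul_one_div, div_le_iff₀ (by positivity)]
    nlinarith
  have hx : ∀ j ∈ Finset.range (J + 1), 0 ≤ (j : ℝ) * d ∧ (j : ℝ) * d ≤ 1 / 2 := by
    intro j hj
    have : (j : ℝ) ≤ J := by exact_mod_cast Nat.lt_succ_iff.1 (Finset.mem_range.1 hj)
    refine ⟨by positivity, ?_⟩
    rw [← hdJ, mul_comm]
    exact mul_le_mul_of_nonneg_left this hd0.le
  have hex : ∀ j : ℕ, ∃ C : ℝ, 0 < C ∧ (j ∈ Finset.range (J + 1) → ∀ T : ℝ, 1 ≤ T →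
      Dc (j * d) T ≤ C * T ^ (1 - 4 * (j * d) ^ 2 + m / 4)) := by
    intro j
    by_cases hj : j ∈ Finset.range (J + 1)
    · obtain ⟨C, hC, hC'⟩ := Dc_le (hx j hj).1 (hx j hj).2 (show 0 < m / 4 by positivity)
      exact ⟨C, hC, fun _ => hC'⟩
    · exact ⟨1, one_pos, fun h => absurd h hj⟩
  choose Cj hCj hCb using hex
  refine ⟨∑ j ∈ Finset.range (J + 1), Cj j, m / 2, Finset.sum_pos (fun j _ => hCj j) ⟨0, by simp⟩,
    by positivity, fun T hT => ?_⟩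
  have hT0 : 0 < T := by linarith
  have key : ∀ ρ : Zt, (if |(ρ : ℂ).im| ≤ T then (mu ρ : ℝ) * T ^ (2 * κ * |(ρ : ℂ).re - 1 / 2|) else 0) ≤
      ∑ j ∈ Finset.range (J + 1), T ^ (2 * κ * ((j + 1) * d)) *
        (if |(ρ : ℂ).im| ≤ T ∧ j * d ≤ |(ρ : ℂ).re - 1 / 2| then (mu ρ : ℝ) else 0) := by
    intro ρ
    have hnn : ∀ j ∈ Finset.range (J + 1), (0 : ℝ) ≤ T ^ (2 * κ * ((j + 1) * d)) *
        (if |(ρ : ℂ).im| ≤ T ∧ j * d ≤ |(ρ : ℂ).re - 1 / 2| then (mu ρ : ℝ) else 0) := by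
      intro j _
      have : (0 : ℝ) ≤ (if |(ρ : ℂ).im| ≤ T ∧ j * d ≤ |(ρ : ℂ).re - 1 / 2| then (mu ρ : ℝ) else 0) := by
        split_ifs <;> positivity
      positivity
    by_cases hc : |(ρ : ℂ).im| ≤ T
    · rw [if_pos hc]
      set η := |(ρ : ℂ).re - 1 / 2| with hη
      have hη0 : 0 ≤ η := abs_nonneg _
      have hηd : 0 ≤ η / d := by positivity
      have hj1 := Nat.floor_le hηd
      have hj2 := Nat.lt_floor_add_one (η / d)
      set j := ⌊η / d⌋₊ with hj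
      rw [le_div_iff₀ hd0] at hj1
      rw [div_lt_iff₀ hd0] at hj2
      have hjJ : j ∈ Finset.range (J + 1) := by
        rw [Finset.mem_range, Nat.lt_succ_iff]
        have h3 : (j : ℝ) * d ≤ J * d := by
          rw [mul_comm (J : ℝ) d, hdJ]
          exact hj1.trans ((hz ρ).trans h1)
        exact_mod_cast le_of_mul_le_mul_right h3 hd0
      refine le_trans ?_ (Finset.single_le_sum hnn hjJ)
      rw [if_pos ⟨hc, hj1⟩, mul_comm]
      apply mul_le_mul_of_nonneg_right _ (Nat.cast_nonneg _)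
      apply Real.rpow_le_rpow_of_exponent_le hT
      apply mul_le_mul_of_nonneg_left hj2.le (by positivity)
    · rw [if_neg hc]
      exact Finset.sum_nonneg hnn
  have hs : ∀ j ∈ Finset.range (J + 1), Summable (fun ρ : Zt => T ^ (2 * κ * (((j : ℝ) + 1) * d)) *
        (if |(ρ : ℂ).im| ≤ T ∧ j * d ≤ |(ρ : ℂ).re - 1 / 2| then (mu ρ : ℝ) else 0)) :=
    fun j _ => (Dc_summable (j * d) T).mul_left _
  have hsum : Summable (fun ρ : Zt => ∑ j ∈ Finset.range (J + 1), T ^ (2 * κ * (((j : ℝ) + 1) * d)) *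
        (if |(ρ : ℂ).im| ≤ T ∧ j * d ≤ |(ρ : ℂ).re - 1 / 2| then (mu ρ : ℝ) else 0)) :=
    summable_sum hs
  have hs0 : Summable (fun ρ : Zt =>
      (if |(ρ : ℂ).im| ≤ T then (mu ρ : ℝ) * T ^ (2 * κ * |(ρ : ℂ).re - 1 / 2|) else 0)) :=
    Summable.of_nonneg_of_le (fun ρ => by split_ifs <;> positivity) key hsum
  refine (hs0.tsum_le_tsum key hsum).trans ?_
  rw [Summable.tsum_finsetSum hs, Finset.sum_mul]
  refine Finset.sum_le_sum fun j hj => ?_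
  rw [tsum_mul_left]
  have hfold : (∑' ρ : Zt, if |(ρ : ℂ).im| ≤ T ∧ j * d ≤ |(ρ : ℂ).re - 1 / 2| then (mu ρ : ℝ) else 0) =
      Dc (j * d) T := rfl
  rw [hfold]
  by_cases hjh : (j : ℝ) * d ≤ h
  · have h3 := hCb j hj T hT
    have h4 := hf (j * d) (hx j hj).1 hjh
    calc T ^ (2 * κ * (((j : ℝ) + 1) * d)) * Dc (j * d) T ≤
          T ^ (2 * κ * (((j : ℝ) + 1) * d)) * (Cj j * T ^ (1 - 4 * (j * d) ^ 2 + m / 4)) := by gcongr
      _ = Cj j * T ^ (2 * κ * (((j : ℝ) + 1) * d) + (1 - 4 * (j * d) ^ 2 + m / 4)) := by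
          rw [Real.rpow_add hT0 (2 * κ * (((j : ℝ) + 1) * d))]; ring
      _ ≤ Cj j * T ^ (2 - m / 2) := by
          apply mul_le_mul_of_nonneg_left _ (hCj j).le
          apply Real.rpow_le_rpow_of_exponent_le hT
          nlinarith
  · rw [Dc_zero (not_le.1 hjh) hz, mul_zero]
    have := hCj j
    positivity

end Pool.Agent.Q260.LF
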