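import Pool.Agent.Q260.LF.Cmp
import Pool.Agent.Q260.LF.Den

/-! # The asymptotic formula in the range of the zero-free half-plane -/

set_option autoImplicit false
set_option maxHeartbeats 1000000

open Complex Filter Topology Set MeasureTheory
open scoped ComplexConjugate
open Pool.Agent.Y23 (Zt mu Lg one_le_Lg Lg_cont half_re)

namespace Pool.Agent.Q260.LF

lemma log1_le {ε : ℝ} (hε : 0 < ε) : ∃ C : ℝ, 0 < C ∧ ∀ A : ℝ, 1 ≤ A → 1 + Real.log A ≤ C * A ^ ε := by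
  refine ⟨1 + 1 / ε, by positivity, fun A hA => ?_⟩
  have h1 := Real.log_le_rpow_div (show (0 : ℝ) ≤ A by linarith) hε
  have h2 : 1 ≤ A ^ ε := Real.one_le_rpow hA hε.le
  calc 1 + Real.log A ≤ A ^ ε + A ^ ε / ε := by linarith
    _ = _ := by ring

lemma EE_le2 {A : ℝ} (hA : 2 ≤ A) {z : ℂ} :
    EE A z ≤ 2 * |z.re| * (A / (A ^ 2 + z.im ^ 2)) * (1 + 2 / A) := by
  have hA0 : 0 < A := by linarith
  unfold EE
  have h1 : 0 < (A - 1 / 2) ^ 2 + z.im ^ 2 := by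
    have : 0 < A - 1 / 2 := by linarith
    positivity
  have h2 : 0 < A ^ 2 + z.im ^ 2 := by positivity
  rw [div_le_iff₀ h1]
  have h3 : A ^ 2 + z.im ^ 2 ≤ (1 + 2 / A) * ((A - 1 / 2) ^ 2 + z.im ^ 2) := by
    have e : (1 + 2 / A) * ((A - 1 / 2) ^ 2 + z.im ^ 2) =
        (A ^ 2 + A - 7 / 4 + 1 / (2 * A)) + (1 + 2 / A) * z.im ^ 2 := by
      field_simp
      ring
    rw [e]
    have h4 : 0 ≤ 2 / A * z.im ^ 2 := by positivity
    have h5 : 0 ≤ 1 / (2 * A) := by positivity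
    nlinarith
  have h6 : 0 ≤ 2 * |z.re| * A := by positivity
  calc 2 * |z.re| * A = 2 * |z.re| * A / (A ^ 2 + z.im ^ 2) * (A ^ 2 + z.im ^ 2) := by field_simp
    _ ≤ 2 * |z.re| * A / (A ^ 2 + z.im ^ 2) * ((1 + 2 / A) * ((A - 1 / 2) ^ 2 + z.im ^ 2)) := by gcongr
    _ = _ := by ring

/-- the pointwise bound of the error -/
lemma err_pt {h κ A : ℝ} (hκ : 0 ≤ κ) (hA : 2 ≤ A) {n : ℕ} (hn : (n : ℝ) ≤ κ * (A * Real.log A)) {z : ℂ}
    (hz : |z.re| ≤ 1 / 2) (hh : |z.re| ≤ h) :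
    (n * EE A z) ^ 2 / 2 * Real.exp (n * EE A z) ≤
      2 * n ^ 2 * Real.exp (2 * κ) / A ^ 2 * (if |z.im| ≤ A then A ^ (2 * κ * |z.re|) else 0) +
      2 * n ^ 2 * Real.exp (2 * κ) * A ^ (κ * h) * (1 / (A ^ 2 + z.im ^ 2)) := by
  have hA0 : 0 < A := by linarith
  have hlog : 0 ≤ Real.log A := Real.log_nonneg (by linarith)
  have hE0 := EE_nonneg (by linarith : 1 ≤ A) z
  have hE := EE_le2 hA (z := z)
  set D : ℝ := A ^ 2 + z.im ^ 2 with hD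
  have hD0 : 0 < D := by positivity
  set η : ℝ := |z.re| with hη
  have hη0 : 0 ≤ η := abs_nonneg _
  have hDA : A ^ 2 ≤ D := by rw [hD]; nlinarith [sq_nonneg z.im]
  have h2A : 1 + 2 / A ≤ 2 := by
    have : 2 / A ≤ 1 := by rw [div_le_one hA0]; exact hA
    linarith
  have hx0 : 0 ≤ n * EE A z := by positivity
  -- first bound
  have hx1 : n * EE A z ≤ 2 * n * A / D := by
    have : EE A z ≤ 1 * (A / D) * 2 := by
      refine hE.trans ?_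
      have h3 : 0 ≤ A / D := by positivity
      have h4 : 0 ≤ 1 + 2 / A := by positivity
      have h5 : 2 * η ≤ 1 := by linarith
      gcongr
    calc n * EE A z ≤ n * (1 * (A / D) * 2) := by gcongr
      _ = _ := by ring
  have hx2 : (n * EE A z) ^ 2 ≤ 4 * n ^ 2 * (1 / D) := by
    calc (n * EE A z) ^ 2 ≤ (2 * n * A / D) ^ 2 := pow_le_pow_left₀ hx0 hx1 2
      _ = 4 * n ^ 2 * (A ^ 2 / D) * (1 / D) := by field_simp; ring
      _ ≤ 4 * n ^ 2 * 1 * (1 / D) := by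
        gcongr
        rw [div_le_one hD0]; exact hDA
      _ = _ := by ring
  have hx3 : (n * EE A z) ^ 2 ≤ 4 * n ^ 2 / A ^ 2 := by
    refine hx2.trans ?_
    rw [mul_one_div]
    gcongr
  -- second bound
  have hx4 : n * EE A z ≤ 2 * κ + 2 * κ * η * (A ^ 2 / D) * Real.log A := by
    have hlA : Real.log A ≤ A := (Real.log_le_sub_one_of_pos hA0).trans (by linarith)
    calc n * EE A z ≤ (κ * (A * Real.log A)) * (2 * η * (A / D) * (1 + 2 / A)) := by gcongr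
      _ = 2 * κ * η * (A ^ 2 / D) * Real.log A + 2 * κ * (2 * η) * (A / D) * Real.log A := by
        field_simp
      _ ≤ 2 * κ * η * (A ^ 2 / D) * Real.log A + 2 * κ * 1 * (A / A ^ 2) * A := by
        gcongr
        linarith
      _ = _ := by
        rw [show A / A ^ 2 = 1 / A by field_simp]
        field_simp
        ring
  have hexp : ∀ t : ℝ, η * (A ^ 2 / D) ≤ t → Real.exp (n * EE A z) ≤ Real.exp (2 * κ) * A ^ (2 * κ * t) := by
    intro t ht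
    rw [Real.rpow_def_of_pos hA0, ← Real.exp_add]
    apply Real.exp_le_exp.2
    have h3 : 2 * κ * η * (A ^ 2 / D) * Real.log A ≤ Real.log A * (2 * κ * t) := by
      have : 2 * κ * (η * (A ^ 2 / D)) ≤ 2 * κ * t := mul_le_mul_of_nonneg_left ht (by positivity)
      nlinarith
    linarith
  have hexp0 := Real.exp_pos (n * EE A z)
  have hk0 := Real.exp_pos (2 * κ)
  by_cases hc : |z.im| ≤ A
  · rw [if_pos hc]
    have h3 : η * (A ^ 2 / D) ≤ η := by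
      have : A ^ 2 / D ≤ 1 := by rw [div_le_one hD0]; exact hDA
      nlinarith
    have h4 := hexp η h3
    have h5 : 0 ≤ 2 * n ^ 2 * Real.exp (2 * κ) * A ^ (κ * h) * (1 / D) := by positivity
    have h6 : (n * EE A z) ^ 2 / 2 * Real.exp (n * EE A z) ≤
        4 * n ^ 2 / A ^ 2 / 2 * (Real.exp (2 * κ) * A ^ (2 * κ * η)) := by gcongr
    calc (n * EE A z) ^ 2 / 2 * Real.exp (n * EE A z) ≤ _ := h6
      _ = 2 * n ^ 2 * Real.exp (2 * κ) / A ^ 2 * A ^ (2 * κ * η) + 0 := by ring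
      _ ≤ _ := by gcongr
  · rw [if_neg hc, mul_zero, zero_add]
    have hzA : A ^ 2 ≤ z.im ^ 2 := by
      rw [← sq_abs z.im]
      exact pow_le_pow_left₀ hA0.le (not_le.1 hc).le 2
    have h3 : η * (A ^ 2 / D) ≤ h / 2 := by
      have : A ^ 2 / D ≤ 1 / 2 := by
        rw [div_le_div_iff₀ hD0 (by norm_num), hD]
        linarith
      have h7 : 0 ≤ h := hη0.trans hh
      calc η * (A ^ 2 / D) ≤ h * (1 / 2) := by gcongr
        _ = _ := by ring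
    have h4 := hexp (h / 2) h3
    rw [show 2 * κ * (h / 2) = κ * h by ring] at h4
    calc (n * EE A z) ^ 2 / 2 * Real.exp (n * EE A z) ≤
        4 * n ^ 2 * (1 / D) / 2 * (Real.exp (2 * κ) * A ^ (κ * h)) := by gcongr
      _ = _ := by ring

lemma f_pos {h κ η : ℝ} (h0 : 0 < h) (h1 : h ≤ 1 / 2) (hk : κ < 2 * h + 1 / (2 * h)) (hη0 : 0 ≤ η) (hη : η ≤ h) :
    0 < 4 * η ^ 2 - 2 * κ * η + 1 := by
  rcases hη0.eq_or_lt with h2 | h2
  · rw [← h2]; norm_num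
  · have h3 : 2 * κ * η < 4 * h * η + η / h := by
      have : κ * (2 * η) < (2 * h + 1 / (2 * h)) * (2 * η) := mul_lt_mul_of_pos_right hk (by positivity)
      have e : (2 * h + 1 / (2 * h)) * (2 * η) = 4 * h * η + η / h := by field_simp; ring
      linarith
    have h4 : 4 * η ^ 2 + 1 - (4 * h * η + η / h) = (h - η) * (1 / h - 4 * η) := by field_simp; ring
    have h5 : 4 * η ≤ 1 / h := by
      rw [le_div_iff₀ h0]
      nlinarith
    have h6 : 0 ≤ (h - η) * (1 / h - 4 * η) := mul_nonneg (by linarith) (by linarith)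
    linarith

lemma f_min {h κ : ℝ} (h0 : 0 < h) (h1 : h ≤ 1 / 2) (hk : κ < 2 * h + 1 / (2 * h)) :
    ∃ m : ℝ, 0 < m ∧ ∀ η : ℝ, 0 ≤ η → η ≤ h → m ≤ 4 * η ^ 2 - 2 * κ * η + 1 := by
  obtain ⟨x, hx, hmin⟩ := (isCompact_Icc (a := (0 : ℝ)) (b := h)).exists_isMinOn ⟨0, by simp [h0.le]⟩
    (show ContinuousOn (fun η : ℝ => 4 * η ^ 2 - 2 * κ * η + 1) (Icc 0 h) by fun_prop)
  exact ⟨4 * x ^ 2 - 2 * κ * x + 1, f_pos h0 h1 hk hx.1 hx.2, fun η h2 h3 => hmin ⟨h2, h3⟩⟩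

/-- the asymptotic formula -/
theorem partA {h κ : ℝ} (h0 : 0 < h) (h1 : h ≤ 1 / 2) (hk : κ < 2 * h + 1 / (2 * h))
    (hz : ∀ ρ : Zt, |(ρ : ℂ).re - 1 / 2| ≤ h) :
    ∃ C : ℝ, 0 < C ∧ ∀ A : ℝ, 2 ≤ A → ∀ n : ℕ, 1 ≤ n → (n : ℝ) ≤ κ * (A * Real.log A) →
      |li A n - n * A * Real.log (n * A)| ≤ C * (n * A) := by
  -- we may assume that `κ` is nonnegative
  obtain ⟨κ', hκ0, hκκ, hk'⟩ : ∃ κ' : ℝ, 0 ≤ κ' ∧ κ ≤ κ' ∧ κ' < 2 * h + 1 / (2 * h) :=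
    ⟨max κ 0, le_max_right _ _, le_max_left _ _, max_lt hk (by positivity)⟩
  obtain ⟨m, hm, hf⟩ := f_min h0 h1 hk'
  obtain ⟨C1, δ, hC1, hδ, hd⟩ := dens_sum h1 hκ0 hm hz hf
  obtain ⟨C2, hC2, hs2⟩ := sumA
  obtain ⟨C3, hC3, hmain⟩ := main_term
  have hkh : κ' * h < 1 := by
    have e : (2 * h + 1 / (2 * h)) * h = 2 * h ^ 2 + 1 / 2 := by field_simp
    have := mul_lt_mul_of_pos_right hk' h0
    nlinarith
  set ε : ℝ := (1 - κ' * h) / 2 with hε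
  have hε0 : 0 < ε := by rw [hε]; linarith
  obtain ⟨C4, hC4, hlg⟩ := log1_le hε0
  set E := Real.exp (2 * κ') with hE
  have hE0 : 0 < E := Real.exp_pos _
  refine ⟨C3 + C2 + 2 * E * C1 * (κ' / δ) + 2 * E * C2 * κ' * C4 ^ 2, by positivity, fun A hA n hn1 hn => ?_⟩
  have hA0 : 0 < A := by linarith
  have hlog : 0 ≤ Real.log A := Real.log_nonneg (by linarith)
  have hn' : (n : ℝ) ≤ κ' * (A * Real.log A) := hn.trans (mul_le_mul_of_nonneg_right hκκ (by positivity))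
  have hn0 : (0 : ℝ) < n := by exact_mod_cast hn1
  obtain ⟨sA, tA⟩ := hs2 A (by linarith)
  -- the real part of the sum
  have hTs := TT_summable (by linarith : 3 / 2 ≤ A) n
  have hre : (cf A n).re = ∑' ρ : Zt, (mu ρ : ℝ) * (TT A n ((ρ : ℂ) - 1 / 2)).re := by
    unfold cf
    rw [Complex.re_tsum hTs]
    refine tsum_congr fun ρ => ?_
    rw [← Complex.ofReal_natCast, Complex.re_ofReal_mul]
  have hRs : Summable (fun ρ : Zt => (mu ρ : ℝ) * (TT A n ((ρ : ℂ) - 1 / 2)).re) := by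
    refine (Complex.hasSum_re hTs.hasSum).summable.congr fun ρ => ?_
    rw [← Complex.ofReal_natCast, Complex.re_ofReal_mul]
  have hFs := (line_hasSum (by linarith : 1 ≤ A) n).summable
  rw [li_eq (by linarith) hn1, hre]
  have hm1 := hmain A (by linarith) n hn1
  -- the error sum
  set b1 : Zt → ℝ := fun ρ => n * ((mu ρ : ℝ) * (1 / (A ^ 2 + (ρ : ℂ).im ^ 2))) with hb1
  set b2 : Zt → ℝ := fun ρ => 2 * n ^ 2 * E / A ^ 2 *
    (if |(ρ : ℂ).im| ≤ A then (mu ρ : ℝ) * A ^ (2 * κ' * |(ρ : ℂ).re - 1 / 2|) else 0) with hb2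
  set b3 : Zt → ℝ := fun ρ => 2 * n ^ 2 * E * A ^ (κ' * h) * ((mu ρ : ℝ) * (1 / (A ^ 2 + (ρ : ℂ).im ^ 2))) with hb3
  have hb1s : Summable b1 := sA.mul_left _
  have hb3s : Summable b3 := sA.mul_left _
  have hb2s : Summable b2 := by
    refine Summable.mul_left _ ?_
    refine summable_of_hasFiniteSupport ((Pool.Agent.Y23.finite_low A).subset ?_)
    intro ρ hρ
    rw [Function.mem_support] at hρ
    by_contra hc
    have h' : ¬ |(ρ : ℂ).im| ≤ A := hc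
    rw [if_neg h'] at hρ
    exact hρ rfl
  have hpt : ∀ ρ : Zt, |(mu ρ : ℝ) * (TT A n ((ρ : ℂ) - 1 / 2)).re - (mu ρ : ℝ) * ff A n (|(ρ : ℂ).im|)| ≤
      b1 ρ + b2 ρ + b3 ρ := by
    intro ρ
    have him : ((ρ : ℂ) - 1 / 2).im = (ρ : ℂ).im := by simp
    have hrr : ((ρ : ℂ) - 1 / 2).re = (ρ : ℂ).re - 1 / 2 := by simp
    have h3 := cmp_pt (by linarith : 1 ≤ A) (half_re ρ) n
    have h4 := err_pt (h := h) hκ0 hA hn' (half_re ρ) (by rw [hrr]; exact hz ρ)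
    rw [him] at h3 h4
    rw [hrr] at h4
    have hmu : (0 : ℝ) ≤ (mu ρ : ℝ) := Nat.cast_nonneg _
    rw [← mul_sub, abs_mul, abs_of_nonneg hmu]
    calc (mu ρ : ℝ) * |(TT A n ((ρ : ℂ) - 1 / 2)).re - ff A n (|(ρ : ℂ).im|)| ≤
        (mu ρ : ℝ) * (n * (1 / (A ^ 2 + (ρ : ℂ).im ^ 2)) +
          (2 * n ^ 2 * Real.exp (2 * κ') / A ^ 2 * (if |(ρ : ℂ).im| ≤ A then A ^ (2 * κ' * |(ρ : ℂ).re - 1 / 2|) else 0) +
      2 * n ^ 2 * Real.exp (2 * κ') * A ^ (κ' * h) * (1 / (A ^ 2 + (ρ : ℂ).im ^ 2)))) := by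
            apply mul_le_mul_of_nonneg_left _ hmu
            linarith
      _ = b1 ρ + b2 ρ + b3 ρ := by
        simp only [hb1, hb2, hb3]
        split_ifs <;> ring
  have hsum : |∑' ρ : Zt, (mu ρ : ℝ) * (TT A n ((ρ : ℂ) - 1 / 2)).re - ∑' ρ : Zt, (mu ρ : ℝ) * ff A n (|(ρ : ℂ).im|)| ≤
      ∑' ρ : Zt, b1 ρ + ∑' ρ : Zt, b2 ρ + ∑' ρ : Zt, b3 ρ := by
    rw [← hRs.tsum_sub hFs, ← hb1s.tsum_add hb2s, ← (hb1s.add hb2s).tsum_add hb3s]
    have h5 := tsum_of_norm_bounded (f := fun ρ : Zt => (mu ρ : ℝ) * (TT A n ((ρ : ℂ) - 1 / 2)).re -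
      (mu ρ : ℝ) * ff A n (|(ρ : ℂ).im|)) ((hb1s.add hb2s).add hb3s).hasSum
      (fun ρ => by rw [Real.norm_eq_abs]; exact hpt ρ)
    rw [Real.norm_eq_abs] at h5
    exact h5
  have hB1 : ∑' ρ : Zt, b1 ρ ≤ C2 * (n * A) := by
    rw [hb1, tsum_mul_left]
    have h3 : (1 + Real.log A) / A ≤ A := by
      rw [div_le_iff₀ hA0]
      have := Real.log_le_sub_one_of_pos hA0
      nlinarith
    calc (n : ℝ) * ∑' ρ : Zt, (mu ρ : ℝ) * (1 / (A ^ 2 + (ρ : ℂ).im ^ 2)) ≤ n * (C2 * ((1 + Real.log A) / A)) := by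
          gcongr
      _ ≤ n * (C2 * A) := by gcongr
      _ = _ := by ring
  have hB2 : ∑' ρ : Zt, b2 ρ ≤ 2 * E * C1 * (κ' / δ) * (n * A) := by
    rw [hb2, tsum_mul_left]
    have h3 := hd A (by linarith)
    have h4 := Real.log_le_rpow_div hA0.le hδ
    have h5 : A ^ (2 - δ) = A ^ 2 / A ^ δ := by
      rw [Real.rpow_sub hA0]; norm_num
    have h6 : 0 < A ^ δ := Real.rpow_pos_of_pos hA0 _
    calc 2 * (n : ℝ) ^ 2 * E / A ^ 2 * _ ≤ 2 * (n : ℝ) ^ 2 * E / A ^ 2 * (C1 * A ^ (2 - δ)) := by gcongr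
      _ = 2 * E * C1 * (n * (n / A ^ δ)) := by rw [h5]; field_simp
      _ ≤ 2 * E * C1 * (n * (κ' * (A * (A ^ δ / δ)) / A ^ δ)) := by
        gcongr
        exact hn'.trans (by gcongr)
      _ = _ := by field_simp
  have hB3 : ∑' ρ : Zt, b3 ρ ≤ 2 * E * C2 * κ' * C4 ^ 2 * (n * A) := by
    rw [hb3, tsum_mul_left]
    have h3 := hlg A (by linarith)
    have h4 : 0 ≤ 1 + Real.log A := by linarith
    have h5 : A ^ (κ' * h) * (A ^ ε) ^ 2 = A := by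
      rw [← Real.rpow_natCast, ← Real.rpow_mul hA0.le, ← Real.rpow_add hA0, hε]
      have : κ' * h + (1 - κ' * h) / 2 * ((2 : ℕ) : ℝ) = 1 := by push_cast; ring
      rw [this, Real.rpow_one]
    have h7 : 0 < A ^ (κ' * h) := Real.rpow_pos_of_pos hA0 _
    calc 2 * (n : ℝ) ^ 2 * E * A ^ (κ' * h) * _ ≤
        2 * (n : ℝ) ^ 2 * E * A ^ (κ' * h) * (C2 * ((1 + Real.log A) / A)) := by gcongr
      _ = 2 * E * C2 * A ^ (κ' * h) * (n * (n * ((1 + Real.log A) / A))) := by ring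
      _ ≤ 2 * E * C2 * A ^ (κ' * h) * (n * ((κ' * (A * (1 + Real.log A))) * ((1 + Real.log A) / A))) := by
        gcongr
        exact hn'.trans (by gcongr; linarith)
      _ = 2 * E * C2 * κ' * n * (A ^ (κ' * h) * (1 + Real.log A) ^ 2) := by field_simp
      _ ≤ 2 * E * C2 * κ' * n * (A ^ (κ' * h) * (C4 * A ^ ε) ^ 2) := by gcongr
      _ = 2 * E * C2 * κ' * n * C4 ^ 2 * (A ^ (κ' * h) * (A ^ ε) ^ 2) := by ring
      _ = _ := by rw [h5]; ring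
  have h8 := abs_sub_le (∑' ρ : Zt, (mu ρ : ℝ) * (TT A n ((ρ : ℂ) - 1 / 2)).re)
    (∑' ρ : Zt, (mu ρ : ℝ) * ff A n |(ρ : ℂ).im|) (n * A * Real.log (n * A))
  calc _ ≤ _ := h8
    _ ≤ (C2 * (n * A) + 2 * E * C1 * (κ' / δ) * (n * A) + 2 * E * C2 * κ' * C4 ^ 2 * (n * A)) + C3 * (n * A) := by
      linarith
    _ = _ := by ring

end Pool.Agent.Q260.LF
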