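import Pool.Agent.Q260.LF.B2
import Pool.Agent.Q260.LF.PA

/-! # Bounds for the test polynomials at the images of the zeros -/

set_option autoImplicit false
set_option maxHeartbeats 1000000

open Filter Topology
open scoped ComplexConjugate

namespace Pool.Agent.Q260.LF

variable {ι : Type*}

lemma geom_bd {x : ℂ} {R : ℝ} (hx : ‖x‖ ≤ R) (hR : 1 ≤ R) (m : ℕ) :
    ‖∑ i ∈ Finset.range m, x ^ i‖ ≤ m * R ^ m := by
  refine (norm_sum_le _ _).trans ?_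
  calc ∑ i ∈ Finset.range m, ‖x ^ i‖ ≤ ∑ _i ∈ Finset.range m, R ^ m := by
        refine Finset.sum_le_sum fun i hi => ?_
        rw [norm_pow]
        have := Finset.mem_range.1 hi
        exact (pow_le_pow_left₀ (norm_nonneg _) hx i).trans (pow_le_pow_right₀ hR this.le)
    _ = m * R ^ m := by simp

lemma fac_bd {v w : ℂ} {R : ℝ} (hv : ‖v‖ ≤ 3) (hw : ‖w‖ ≤ R) (k : ℕ) : ‖1 - v * w ^ k‖ ≤ 1 + 3 * R ^ k := by
  refine (norm_sub_le _ _).trans ?_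
  rw [norm_one, norm_mul, norm_pow]
  have h1 : ‖w‖ ^ k ≤ R ^ k := pow_le_pow_left₀ (norm_nonneg _) hw k
  have h2 : ‖v‖ * ‖w‖ ^ k ≤ 3 * R ^ k := mul_le_mul hv h1 (by positivity) (by norm_num)
  linarith

/-- the trivial bound -/
lemma KK_triv {A : ℝ} {z : ℂ} (hA : 1 ≤ A) (hz : |z.re| ≤ 1 / 2) {e : ℂ} (he : ‖e‖ = 1) {v : ι → ℂ}
    (hv : ∀ i, ‖v i‖ ≤ 3) (W : Finset ι) (n1 J m m' : ℕ) :
    ‖(KK e v W n1 J m m').eval (ww A z)‖ ≤
      (m : ℝ) ^ J * 4 ^ W.card * Real.exp ((n1 + J * m + W.card * m' : ℕ) * EE A z) := by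
  have hE := EE_nonneg hA z
  set R := Real.exp (EE A z) with hR
  have hR1 : 1 ≤ R := Real.one_le_exp hE
  have hw : ‖ww A z‖ ≤ R := norm_ww_le hA hz
  have hew : ‖e * ww A z‖ ≤ R := by rw [norm_mul, he, one_mul]; exact hw
  rw [KK_eval, norm_mul, norm_mul, norm_pow, norm_pow, norm_prod, Real.exp_nat_mul, ← hR]
  have h1 : ‖e * ww A z‖ ^ n1 ≤ R ^ n1 := pow_le_pow_left₀ (norm_nonneg _) hew n1
  have h2 : ‖∑ i ∈ Finset.range m, (e * ww A z) ^ i‖ ^ J ≤ (m * R ^ m) ^ J :=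
    pow_le_pow_left₀ (norm_nonneg _) (geom_bd hew hR1 m) J
  have h3 : ∏ i ∈ W, ‖1 - v i * ww A z ^ m'‖ ≤ (4 * R ^ m') ^ W.card := by
    rw [← Finset.prod_const]
    refine Finset.prod_le_prod (fun i _ => norm_nonneg _) fun i _ => ?_
    refine (fac_bd (hv i) hw m').trans ?_
    have : 1 ≤ R ^ m' := one_le_pow₀ hR1
    linarith
  calc ‖e * ww A z‖ ^ n1 * ‖∑ i ∈ Finset.range m, (e * ww A z) ^ i‖ ^ J * ∏ i ∈ W, ‖1 - v i * ww A z ^ m'‖ ≤
      R ^ n1 * (m * R ^ m) ^ J * (4 * R ^ m') ^ W.card := by gcongr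
    _ = _ := by
      rw [mul_pow, mul_pow, ← pow_mul, ← pow_mul, pow_add, pow_add, mul_comm J m, mul_comm W.card m']
      ring

/-- the bound away from the point -/
lemma KK_far {A : ℝ} {z : ℂ} (hA : 1 ≤ A) (hz : |z.re| ≤ 1 / 2) {e : ℂ} (he : ‖e‖ = 1) {v : ι → ℂ}
    (hv : ∀ i, ‖v i‖ ≤ 3) (W : Finset ι) (n1 J m m' : ℕ) {Θ : ℝ} (hΘ : 0 < Θ)
    (hfar : Θ ≤ m * ‖e * ww A z - 1‖) (hm : m * EE A z ≤ 2) (hm' : m' * EE A z ≤ 2) :
    ‖(KK e v W n1 J m m').eval (ww A z)‖ ≤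
      Real.exp (n1 * EE A z) * (m * (9 / Θ)) ^ J * 24 ^ W.card := by
  have hE := EE_nonneg hA z
  set R := Real.exp (EE A z) with hR
  have hR1 : 1 ≤ R := Real.one_le_exp hE
  have hw : ‖ww A z‖ ≤ R := norm_ww_le hA hz
  have hew : ‖e * ww A z‖ ≤ R := by rw [norm_mul, he, one_mul]; exact hw
  have he2 : Real.exp 2 ≤ 23 / 3 := by
    have h1 := Real.exp_one_lt_d9
    have h2 : Real.exp 2 = Real.exp 1 ^ 2 := by rw [← Real.exp_nat_mul]; norm_num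
    rw [h2]
    have h3 := Real.exp_pos 1
    nlinarith
  rw [KK_eval, norm_mul, norm_mul, norm_pow, norm_pow, norm_prod, Real.exp_nat_mul, ← hR]
  have h1 : ‖e * ww A z‖ ^ n1 ≤ R ^ n1 := pow_le_pow_left₀ (norm_nonneg _) hew n1
  have hg : ‖∑ i ∈ Finset.range m, (e * ww A z) ^ i‖ ≤ m * (9 / Θ) := by
    have h2 : ‖∑ i ∈ Finset.range m, (e * ww A z) ^ i‖ * ‖e * ww A z - 1‖ ≤ 9 := by
      rw [← norm_mul, geom_sum_mul]
      refine (norm_sub_le _ _).trans ?_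
      rw [norm_one, norm_pow]
      have h3 : ‖e * ww A z‖ ^ m ≤ R ^ m := pow_le_pow_left₀ (norm_nonneg _) hew m
      have h4 : R ^ m ≤ Real.exp 2 := by
        rw [hR, ← Real.exp_nat_mul]; exact Real.exp_le_exp.2 hm
      linarith
    have h5 : 0 ≤ ‖∑ i ∈ Finset.range m, (e * ww A z) ^ i‖ := norm_nonneg _
    rw [mul_div_assoc', le_div_iff₀ hΘ]
    have h6 : (0 : ℝ) ≤ m := Nat.cast_nonneg _
    calc ‖∑ i ∈ Finset.range m, (e * ww A z) ^ i‖ * Θ ≤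
        ‖∑ i ∈ Finset.range m, (e * ww A z) ^ i‖ * (m * ‖e * ww A z - 1‖) := by gcongr
      _ = m * (‖∑ i ∈ Finset.range m, (e * ww A z) ^ i‖ * ‖e * ww A z - 1‖) := by ring
      _ ≤ m * 9 := by gcongr
  have h2 := pow_le_pow_left₀ (norm_nonneg _) hg J
  have h3 : ∏ i ∈ W, ‖1 - v i * ww A z ^ m'‖ ≤ 24 ^ W.card := by
    rw [← Finset.prod_const]
    refine Finset.prod_le_prod (fun i _ => norm_nonneg _) fun i _ => ?_
    refine (fac_bd (hv i) hw m').trans ?_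
    have : R ^ m' ≤ Real.exp 2 := by
      rw [hR, ← Real.exp_nat_mul]; exact Real.exp_le_exp.2 hm'
    linarith
  gcongr

/-- the terms for the high zeros -/
lemma TT_tail {A κ : ℝ} {z : ℂ} (hA : 1 ≤ A) (hκ : 0 ≤ κ) (hz : |z.re| ≤ 1 / 2) (hzi : A ^ 4 ≤ z.im ^ 2) {k : ℕ}
    (hk : (k : ℝ) ≤ κ * (A * Real.log A)) :
    ‖TT A k z‖ ≤ 4 * κ ^ 2 * Real.exp (3 * κ) * (A ^ 4 * (Real.log A) ^ 2 / (A ^ 4 + z.im ^ 2)) := by
  have hA0 : 0 < A := by linarith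
  have hlog : 0 ≤ Real.log A := Real.log_nonneg hA
  have hlA : Real.log A ≤ A := (Real.log_le_sub_one_of_pos hA0).trans (by linarith)
  have hA4 : 0 < A ^ 4 := by positivity
  have hz0 : 0 < z.im ^ 2 := by linarith
  have h1 := norm_TT_le hA hz k
  have hE : k * EE A z ≤ κ := by
    unfold EE
    have h2 : 2 * |z.re| * A / ((A - 1 / 2) ^ 2 + z.im ^ 2) ≤ 1 / A ^ 3 := by
      have h3 : 2 * |z.re| * A ≤ 1 * A := by gcongr; linarith
      have h4 : A ^ 4 ≤ (A - 1 / 2) ^ 2 + z.im ^ 2 := by nlinarith [sq_nonneg (A - 1 / 2)]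
      calc 2 * |z.re| * A / ((A - 1 / 2) ^ 2 + z.im ^ 2) ≤ 1 * A / A ^ 4 := by gcongr
        _ = _ := by field_simp
    calc (k : ℝ) * (2 * |z.re| * A / ((A - 1 / 2) ^ 2 + z.im ^ 2)) ≤ (κ * (A * Real.log A)) * (1 / A ^ 3) := by
          gcongr
      _ ≤ (κ * (A * A)) * (1 / A ^ 3) := by gcongr
      _ = κ * (1 / A) := by field_simp
      _ ≤ κ * 1 := by
        gcongr
        rw [div_le_one hA0]; exact hA
      _ = κ := mul_one _
  have hexp : Real.exp (3 * k * EE A z) ≤ Real.exp (3 * κ) := by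
    apply Real.exp_le_exp.2
    nlinarith
  have hden : 1 / ((A - 1 / 2) ^ 2 + z.im ^ 2) ≤ 2 / (A ^ 4 + z.im ^ 2) := by
    rw [div_le_div_iff₀ (by positivity) (by positivity)]
    nlinarith [sq_nonneg (A - 1 / 2)]
  calc ‖TT A k z‖ ≤ 2 * k ^ 2 * A ^ 2 / ((A - 1 / 2) ^ 2 + z.im ^ 2) * Real.exp (3 * k * EE A z) := h1
    _ = 2 * k ^ 2 * A ^ 2 * (1 / ((A - 1 / 2) ^ 2 + z.im ^ 2)) * Real.exp (3 * k * EE A z) := by ring
    _ ≤ 2 * (κ * (A * Real.log A)) ^ 2 * A ^ 2 * (2 / (A ^ 4 + z.im ^ 2)) * Real.exp (3 * κ) := by gcongr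
    _ = _ := by ring

lemma norm_le_sq {a b : ℝ} (hb : 0 ≤ b) (h : a ^ 2 ≤ b ^ 2) : a ≤ b :=
  (le_abs_self a).trans ((sq_le_sq.1 h).trans (abs_of_nonneg hb).le)

/-- the distance to one -/
lemma far_one {A : ℝ} {z : ℂ} (hA : 1 ≤ A) (hz : |z.re| ≤ 1 / 2) (hzi : z.im ^ 2 ≤ A ^ 3) {m : ℕ} (hm : A ≤ m) :
    √A ≤ m * ‖1 * ww A z - 1‖ := by
  have hA0 : 0 < A := by linarith
  have hzz := abs_le.1 hz
  have hs : 0 < ‖z - A‖ := norm_pos_iff.2 (sub_ne hA hz)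
  have hle : ‖z - A‖ ≤ 2 * A * √A := by
    apply norm_le_sq (by positivity)
    rw [normSq_sub, mul_pow, Real.sq_sqrt hA0.le]
    have h1 : (A - z.re) ^ 2 ≤ (3 / 2 * A) ^ 2 := pow_le_pow_left₀ (by linarith) (by linarith) 2
    have h2 : A ^ 2 ≤ A ^ 3 := pow_le_pow_right₀ hA (by norm_num)
    nlinarith
  rw [one_mul, ww_sub_one hA hz, norm_div]
  have e : ‖(2 * A : ℂ)‖ = 2 * A := by
    rw [norm_mul, Complex.norm_ofNat, Complex.norm_real, Real.norm_eq_abs, abs_of_pos hA0]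
  rw [e]
  calc √A = A * (2 * A / (2 * A * √A)) := by
        have := Real.mul_self_sqrt hA0.le
        have h3 : 0 < √A := Real.sqrt_pos.2 hA0
        field_simp
        nlinarith
    _ ≤ m * (2 * A / ‖z - A‖) := by gcongr

lemma EE_le4 {A : ℝ} (hA : 1 ≤ A) {z : ℂ} (hz : |z.re| ≤ 1 / 2) : EE A z ≤ 4 / A := by
  have hA0 : 0 < A := by linarith
  unfold EE
  have h1 : A ^ 2 / 4 ≤ (A - 1 / 2) ^ 2 + z.im ^ 2 := by nlinarith [sq_nonneg z.im]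
  have h3 : 2 * |z.re| * A ≤ 1 * A := by gcongr; linarith
  calc 2 * |z.re| * A / ((A - 1 / 2) ^ 2 + z.im ^ 2) ≤ 1 * A / (A ^ 2 / 4) := by gcongr
    _ = 4 / A := by field_simp

lemma abs_norm_ww {A : ℝ} (hA : 4 ≤ A) {z : ℂ} (hz : |z.re| ≤ 1 / 2) : |‖ww A z‖ - 1| ≤ 8 / A := by
  have hA0 : 0 < A := by linarith
  have hA1 : 1 ≤ A := by linarith
  have hE0 := EE_nonneg hA1 z
  have hE4 := EE_le4 hA1 hz
  have hE1 : EE A z ≤ 1 := hE4.trans (by rw [div_le_one hA0]; exact hA)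
  have h1 := norm_ww_le hA1 hz
  have h2 := norm_winv_le hA1 hz
  have h3 : Real.exp (EE A z) ≤ 1 + 2 * EE A z := by
    have := Real.abs_exp_sub_one_le (x := EE A z) (by rw [abs_of_nonneg hE0]; exact hE1)
    rw [abs_of_nonneg hE0] at this
    linarith [(abs_le.1 this).2]
  have hw0 : 0 < ‖ww A z‖ := norm_pos_iff.2 (ww_ne hA1 hz)
  rw [norm_inv] at h2
  have h4 : 8 / A = 2 * (4 / A) := by ring
  rw [abs_le]
  constructor
  · -- lower bound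
    have h5 : 1 ≤ ‖ww A z‖ * (1 + 2 * EE A z) := by
      have : ‖ww A z‖⁻¹ ≤ 1 + 2 * EE A z := h2.trans h3
      rw [inv_le_iff_one_le_mul₀ hw0] at this
      linarith
    have h6 : 1 - 2 * EE A z ≤ ‖ww A z‖ := by
      have h7 : (1 - 2 * EE A z) * (1 + 2 * EE A z) ≤ ‖ww A z‖ * (1 + 2 * EE A z) := by nlinarith
      exact le_of_mul_le_mul_right h7 (by positivity)
    linarith
  · linarith

/-- the distance between the images -/
lemma far_pt {A D : ℝ} {z z0 : ℂ} (hA : 4 ≤ A) (hz : |z.re| ≤ 1 / 2) (hz0 : |z0.re| ≤ 1 / 2) (hz0A : ‖z0‖ ≤ A)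
    (hD : 0 < D) (hDA : D ≤ A) (hzD : D ≤ ‖z - z0‖) {m : ℕ} (hm : A ≤ m) :
    D / 3 - 8 ≤ m * ‖((‖ww A z0‖ : ℂ) / ww A z0) * ww A z - 1‖ := by
  have hA0 : 0 < A := by linarith
  have hA1 : 1 ≤ A := by linarith
  have hw0 : ww A z0 ≠ 0 := ww_ne hA1 hz0
  have hn0 : 0 < ‖ww A z0‖ := norm_pos_iff.2 hw0
  have hs : 0 < ‖z - A‖ := norm_pos_iff.2 (sub_ne hA1 hz)
  have hs0 : 0 < ‖z0 - A‖ := norm_pos_iff.2 (sub_ne hA1 hz0)
  have h1 : ww A z - ww A z0 = 2 * A * (z0 - z) / ((z - A) * (z0 - A)) := by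
    have e1 := ww_sub_one hA1 hz
    have e2 := ww_sub_one hA1 hz0
    have hne := sub_ne hA1 hz
    have hne0 := sub_ne hA1 hz0
    have : ww A z - ww A z0 = 2 * A / (z - A) - 2 * A / (z0 - A) := by rw [← e1, ← e2]; ring
    rw [this]
    field_simp
    ring
  set s := ‖z - z0‖ with hsd
  have h2 : ‖z0 - A‖ ≤ 2 * A := by
    refine (norm_sub_le _ _).trans ?_
    rw [Complex.norm_real, Real.norm_eq_abs, abs_of_pos hA0]
    linarith
  have h3 : ‖z - A‖ ≤ s + 2 * A := by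
    calc ‖z - A‖ = ‖(z - z0) + (z0 - A)‖ := by congr 1; ring
      _ ≤ s + ‖z0 - A‖ := norm_add_le _ _
      _ ≤ _ := by linarith
  have h4 : D / (3 * A) ≤ ‖ww A z - ww A z0‖ := by
    rw [h1, norm_div, norm_mul, norm_mul, norm_mul, Complex.norm_ofNat, Complex.norm_real, Real.norm_eq_abs,
      abs_of_pos hA0, norm_sub_rev z0 z, ← hsd]
    have h5 : D / (3 * A) ≤ s / (s + 2 * A) := by
      rw [div_le_div_iff₀ (by positivity) (by linarith)]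
      nlinarith
    refine h5.trans ?_
    have h6 : 0 ≤ s := norm_nonneg _
    calc s / (s + 2 * A) = 2 * A * s / ((s + 2 * A) * (2 * A)) := by field_simp
      _ ≤ 2 * A * s / (‖z - A‖ * ‖z0 - A‖) := by gcongr
  have h7 : ‖((‖ww A z0‖ : ℂ) / ww A z0) * ww A z - 1‖ ≥ ‖ww A z - ww A z0‖ - |‖ww A z0‖ - 1| := by
    have e : ((‖ww A z0‖ : ℂ) / ww A z0) * ww A z - 1 =
        ((‖ww A z0‖ : ℂ) / ww A z0) * (ww A z - ww A z0) + ((‖ww A z0‖ : ℂ) - 1) := by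
      field_simp
      ring
    have e2 : ‖((‖ww A z0‖ : ℂ) / ww A z0) * (ww A z - ww A z0)‖ = ‖ww A z - ww A z0‖ := by
      rw [norm_mul, norm_div, Complex.norm_real, norm_norm, div_self hn0.ne', one_mul]
    have e3 : ‖(‖ww A z0‖ : ℂ) - 1‖ = |‖ww A z0‖ - 1| := by
      rw [← Complex.ofReal_one, ← Complex.ofReal_sub, Complex.norm_real, Real.norm_eq_abs]
    rw [e]
    have := norm_sub_le_norm_add (((‖ww A z0‖ : ℂ) / ww A z0) * (ww A z - ww A z0)) ((‖ww A z0‖ : ℂ) - 1)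
    rw [e2, e3] at this
    exact this
  have h8 := abs_norm_ww hA hz0
  have h9 : (D / 3 - 8) / A ≤ ‖((‖ww A z0‖ : ℂ) / ww A z0) * ww A z - 1‖ := by
    have e : (D / 3 - 8) / A = D / (3 * A) - 8 / A := by field_simp
    rw [e]
    linarith
  rw [div_le_iff₀ hA0] at h9
  refine h9.trans ?_
  rw [mul_comm]
  gcongr

end Pool.Agent.Q260.LF
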