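import Pool.Agent.Q260.LF.B3

/-! # Bounds for the transforms of the test polynomials -/

set_option autoImplicit false
set_option maxHeartbeats 1000000

open Filter Topology
open scoped ComplexConjugate
open Pool.Agent.Y23 (Zt mu half_re cjZ rfZ rfZ_sub mu_rfZ mu_conj)

namespace Pool.Agent.Q260.LF

variable {ι : Type*}

/-- the relations between the parameters -/
structure Par (κ c A : ℝ) (d n1 J m m' : ℕ) : Prop where
  hκ : 0 ≤ κ
  hc : 0 < c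
  hA : 4 ≤ A
  hm : A ≤ m
  hm2 : (m : ℝ) ≤ A + 1
  hm' : (m' : ℝ) ≤ A / 4
  hdeg : ((n1 + J * m + d * m' : ℕ) : ℝ) ≤ κ * (A * Real.log A)
  hJ : c * Real.log A ≤ J
  hbig : 9 * Real.exp (κ / c) ≤ √A

/-- the constant -/
noncomputable def CK (κ : ℝ) (d : ℕ) : ℝ := Real.exp (2 * κ) * 24 ^ d

lemma EE_le3 {A : ℝ} (hA : 4 ≤ A) {z : ℂ} (hz : |z.re| ≤ 1 / 2) : EE A z ≤ 1 / A * (1 + 2 / A) := by
  have hA0 : 0 < A := by linarith
  refine (EE_le2 (by linarith) (z := z)).trans ?_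
  have h1 : A / (A ^ 2 + z.im ^ 2) ≤ 1 / A := by
    rw [div_le_div_iff₀ (by positivity) hA0]
    nlinarith [sq_nonneg z.im]
  have h2 : 2 * |z.re| ≤ 1 := by linarith
  calc 2 * |z.re| * (A / (A ^ 2 + z.im ^ 2)) * (1 + 2 / A) ≤ 1 * (1 / A) * (1 + 2 / A) := by gcongr
    _ = _ := by ring

section par
variable {κ c A : ℝ} {d n1 J m m' : ℕ}

lemma Par.A0 (p : Par κ c A d n1 J m m') : 0 < A := by linarith [p.hA]

lemma Par.log0 (p : Par κ c A d n1 J m m') : 0 ≤ Real.log A := Real.log_nonneg (by linarith [p.hA])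

lemma Par.mE (p : Par κ c A d n1 J m m') {z : ℂ} (hz : |z.re| ≤ 1 / 2) : m * EE A z ≤ 2 := by
  have hA := p.hA
  have hA0 := p.A0
  have h1 := EE_le3 p.hA hz
  have h0 := EE_nonneg (by linarith : 1 ≤ A) z
  have hi : 1 / A ≤ 1 / 4 := one_div_le_one_div_of_le (by norm_num) hA
  have hi0 : 0 < 1 / A := by positivity
  calc (m : ℝ) * EE A z ≤ (A + 1) * (1 / A * (1 + 2 / A)) := by
        have := p.hm2
        gcongr
    _ = (1 + 1 / A) * (1 + 2 * (1 / A)) := by field_simp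
    _ ≤ (1 + 1 / 4) * (1 + 2 * (1 / 4)) := by gcongr
    _ ≤ 2 := by norm_num

lemma Par.m'E (p : Par κ c A d n1 J m m') {z : ℂ} (hz : |z.re| ≤ 1 / 2) : m' * EE A z ≤ 1 := by
  have hA := p.hA
  have hA0 := p.A0
  have h1 := EE_le4 (by linarith : 1 ≤ A) hz
  have h0 := EE_nonneg (by linarith : 1 ≤ A) z
  calc (m' : ℝ) * EE A z ≤ (A / 4) * (4 / A) := by
        have := p.hm'
        gcongr
    _ = 1 := by field_simp

lemma Par.n1E (p : Par κ c A d n1 J m m') {z : ℂ} (hz : |z.re| ≤ 1 / 2) :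
    n1 * EE A z ≤ κ * Real.log A + 2 * κ := by
  have hA := p.hA
  have hA0 := p.A0
  have hκ := p.hκ
  have hl := p.log0
  have h1 := EE_le3 p.hA hz
  have h0 := EE_nonneg (by linarith : 1 ≤ A) z
  have hn : (n1 : ℝ) ≤ κ * (A * Real.log A) := by
    refine le_trans ?_ p.hdeg
    have : n1 ≤ n1 + J * m + d * m' := by omega
    exact_mod_cast this
  have hlA : Real.log A ≤ A := (Real.log_le_sub_one_of_pos hA0).trans (by linarith)
  calc (n1 : ℝ) * EE A z ≤ (κ * (A * Real.log A)) * (1 / A * (1 + 2 / A)) := by gcongr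
    _ = κ * Real.log A + 2 * κ * (Real.log A / A) := by field_simp
    _ ≤ κ * Real.log A + 2 * κ * 1 := by
      gcongr
      rw [div_le_one hA0]; exact hlA
    _ = _ := by ring

/-- the bound at the points away from the peak -/
lemma Par.low (p : Par κ c A d n1 J m m') {z : ℂ} (hz : |z.re| ≤ 1 / 2) {e : ℂ} (he : ‖e‖ = 1) {v : ι → ℂ}
    (hv : ∀ i, ‖v i‖ ≤ 3) (W : Finset ι) (hW : W.card = d)
    (hfar : 9 * Real.exp (κ / c) ≤ m * ‖e * ww A z - 1‖ ∨ A ^ 3 ≤ z.im ^ 2) :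
    ‖(KK e v W n1 J m m').eval (ww A z)‖ ≤ (m : ℝ) ^ J * CK κ d := by
  have hA := p.hA
  have hA0 := p.A0
  have hκ := p.hκ
  have hc := p.hc
  have hl := p.log0
  have hm0 : (0 : ℝ) < m := hA0.trans_le p.hm
  rcases hfar with hfar | hfar
  · have hΘ : 0 < 9 * Real.exp (κ / c) := by positivity
    have h1 := KK_far (by linarith : 1 ≤ A) hz he hv W n1 J m m' hΘ hfar (p.mE hz) ((p.m'E hz).trans (by norm_num))
    refine h1.trans ?_
    have h2 : Real.exp (n1 * EE A z) ≤ Real.exp (2 * κ) * Real.exp (κ * Real.log A) := by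
      rw [← Real.exp_add]
      exact Real.exp_le_exp.2 (by linarith [p.n1E hz])
    have h3 : (9 / (9 * Real.exp (κ / c))) ^ J ≤ Real.exp (-(κ * Real.log A)) := by
      have e1 : 9 / (9 * Real.exp (κ / c)) = Real.exp (-(κ / c)) := by
        rw [Real.exp_neg]; field_simp
      rw [e1, ← Real.exp_nat_mul]
      apply Real.exp_le_exp.2
      have h4 : κ * Real.log A = κ / c * (c * Real.log A) := by field_simp
      have h5 : κ / c * (c * Real.log A) ≤ κ / c * J := mul_le_mul_of_nonneg_left p.hJ (by positivity)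
      linarith
    rw [hW, mul_pow]
    calc Real.exp (n1 * EE A z) * ((m : ℝ) ^ J * (9 / (9 * Real.exp (κ / c))) ^ J) * 24 ^ d ≤
        (Real.exp (2 * κ) * Real.exp (κ * Real.log A)) * ((m : ℝ) ^ J * Real.exp (-(κ * Real.log A))) * 24 ^ d := by
          gcongr
      _ = (m : ℝ) ^ J * CK κ d * (Real.exp (κ * Real.log A) * Real.exp (-(κ * Real.log A))) := by
        unfold CK; ring
      _ = _ := by rw [← Real.exp_add, add_neg_cancel, Real.exp_zero, mul_one]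
  · have h1 := KK_triv (by linarith : 1 ≤ A) hz he hv W n1 J m m'
    refine h1.trans ?_
    rw [hW]
    have hE : EE A z ≤ 1 / A ^ 2 := by
      unfold EE
      have h3 : 2 * |z.re| * A ≤ 1 * A := by gcongr; linarith
      have h4 : A ^ 3 ≤ (A - 1 / 2) ^ 2 + z.im ^ 2 := by nlinarith [sq_nonneg (A - 1 / 2)]
      calc 2 * |z.re| * A / ((A - 1 / 2) ^ 2 + z.im ^ 2) ≤ 1 * A / A ^ 3 := by gcongr
        _ = _ := by field_simp
    have hE0 := EE_nonneg (by linarith : 1 ≤ A) z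
    have hlA : Real.log A ≤ A := (Real.log_le_sub_one_of_pos hA0).trans (by linarith)
    have h5 : ((n1 + J * m + d * m' : ℕ) : ℝ) * EE A z ≤ 2 * κ := by
      calc ((n1 + J * m + d * m' : ℕ) : ℝ) * EE A z ≤ (κ * (A * Real.log A)) * (1 / A ^ 2) := by
            have := p.hdeg
            gcongr
        _ ≤ (κ * (A * A)) * (1 / A ^ 2) := by gcongr
        _ = κ := by field_simp
        _ ≤ 2 * κ := by linarith
    have h6 : (4 : ℝ) ^ d ≤ 24 ^ d := pow_le_pow_left₀ (by norm_num) (by norm_num) d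
    calc (m : ℝ) ^ J * 4 ^ d * Real.exp (((n1 + J * m + d * m' : ℕ) : ℝ) * EE A z) ≤
        (m : ℝ) ^ J * 24 ^ d * Real.exp (2 * κ) := by gcongr
      _ = _ := by unfold CK; ring

end par

lemma Dom.eval_one {P : Polynomial ℂ} {Q : Polynomial ℝ} (h : Dom P Q) : ‖P.eval 1‖ ≤ Q.eval 1 := by
  set N := max P.natDegree Q.natDegree + 1 with hN
  rw [Polynomial.eval_eq_sum_range' (show P.natDegree < N by omega),
    Polynomial.eval_eq_sum_range' (show Q.natDegree < N by omega)]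
  refine (norm_sum_le _ _).trans (Finset.sum_le_sum fun k _ => ?_)
  rw [norm_mul, one_pow, one_pow, norm_one, mul_one, mul_one]
  exact h k

/-- the constant in the bound for the transforms -/
noncomputable def CX (κ : ℝ) (d : ℕ) : ℝ := 4 * (4 ^ d + CK κ d) + 4 ^ d * (4 * κ ^ 2 * Real.exp (3 * κ))

lemma CK_pos (κ : ℝ) (d : ℕ) : 0 < CK κ d := by unfold CK; positivity

lemma CX_pos (κ : ℝ) (d : ℕ) : 0 < CX κ d := by
  have := CK_pos κ d
  unfold CX; positivity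

section par2
variable {κ c A : ℝ} {d n1 J m m' : ℕ}

/-- the bound for the high zeros -/
lemma Par.high (p : Par κ c A d n1 J m m') {z : ℂ} (hz : |z.re| ≤ 1 / 2) {e : ℂ} (he : ‖e‖ = 1) {v : ι → ℂ}
    (hv : ∀ i, ‖v i‖ ≤ 3) (W : Finset ι) (hW : W.card = d) (hzi : A ^ 4 ≤ z.im ^ 2) :
    ‖hat A (KK e v W n1 J m m') z‖ ≤
      (m : ℝ) ^ J * CX κ d * (1 + Real.log A) ^ 2 * (A ^ 4 / (A ^ 4 + z.im ^ 2)) := by
  have hA := p.hA
  have hA0 := p.A0
  have hκ := p.hκ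
  have hl := p.log0
  have hd := KK_dom he hv W n1 J m m'
  have hP := KK_natDegree e v W n1 J m m'
  have hQ := QQ_natDegree W n1 J m m'
  rw [hW] at hP hQ
  have h1 := hat_le (A := A) (z := z) hd (N := n1 + J * m + d * m' + 1) (by omega) (by omega)
    (t := 4 * κ ^ 2 * Real.exp (3 * κ) * (A ^ 4 * (Real.log A) ^ 2 / (A ^ 4 + z.im ^ 2))) (fun k hk => by
      refine TT_tail (by linarith) hκ hz hzi (le_trans ?_ p.hdeg)
      exact_mod_cast Nat.lt_succ_iff.1 hk)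
  rw [QQ_eval_one, hW] at h1
  refine h1.trans ?_
  have h2 : Real.log A ^ 2 ≤ (1 + Real.log A) ^ 2 := pow_le_pow_left₀ hl (by linarith) 2
  have h3 : 4 ^ d * (4 * κ ^ 2 * Real.exp (3 * κ)) ≤ CX κ d := by
    have := CK_pos κ d
    unfold CX
    have : 0 ≤ 4 * ((4 : ℝ) ^ d + CK κ d) := by positivity
    linarith
  have h4 : 0 ≤ A ^ 4 / (A ^ 4 + z.im ^ 2) := by positivity
  have hX := CX_pos κ d
  calc (m : ℝ) ^ J * 4 ^ d * (4 * κ ^ 2 * Real.exp (3 * κ) * (A ^ 4 * Real.log A ^ 2 / (A ^ 4 + z.im ^ 2))) =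
      (m : ℝ) ^ J * (4 ^ d * (4 * κ ^ 2 * Real.exp (3 * κ))) * Real.log A ^ 2 * (A ^ 4 / (A ^ 4 + z.im ^ 2)) := by ring
    _ ≤ _ := by gcongr

/-- the bound for the low zeros -/
lemma Par.low2 (p : Par κ c A d n1 J m m') {a b b' : ℂ} {y : ℝ} (ha : ‖a‖ ≤ (m : ℝ) ^ J * 4 ^ d)
    (hb : ‖b‖ ≤ (m : ℝ) ^ J * CK κ d) (hb' : ‖b'‖ ≤ (m : ℝ) ^ J * CK κ d) (hy : y ^ 2 ≤ A ^ 4) :
    ‖(2 * a - b - b') / 2‖ ≤
      (m : ℝ) ^ J * CX κ d * (1 + Real.log A) ^ 2 * (A ^ 4 / (A ^ 4 + y ^ 2)) := by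
  have hA := p.hA
  have hA0 := p.A0
  have hl := p.log0
  have hκ := p.hκ
  have hCK := CK_pos κ d
  have h1 : ‖(2 * a - b - b') / 2‖ ≤ (m : ℝ) ^ J * (4 ^ d + CK κ d) := by
    rw [norm_div, Complex.norm_ofNat, div_le_iff₀ (by norm_num)]
    calc ‖2 * a - b - b'‖ ≤ ‖2 * a - b‖ + ‖b'‖ := norm_sub_le _ _
      _ ≤ ‖2 * a‖ + ‖b‖ + ‖b'‖ := by gcongr; exact norm_sub_le _ _
      _ = 2 * ‖a‖ + ‖b‖ + ‖b'‖ := by rw [norm_mul, Complex.norm_ofNat]
      _ ≤ _ := by linarith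
  have h2 : 1 / 2 ≤ A ^ 4 / (A ^ 4 + y ^ 2) := by
    rw [div_le_div_iff₀ (by norm_num) (by positivity)]
    linarith
  have h3 : 1 ≤ (1 + Real.log A) ^ 2 := by nlinarith
  have h4 : 4 * (4 ^ d + CK κ d) ≤ CX κ d := by
    unfold CX
    have : 0 ≤ (4 : ℝ) ^ d * (4 * κ ^ 2 * Real.exp (3 * κ)) := by positivity
    linarith
  have hX := CX_pos κ d
  calc ‖(2 * a - b - b') / 2‖ ≤ (m : ℝ) ^ J * (4 ^ d + CK κ d) := h1
    _ = (m : ℝ) ^ J * (4 * (4 ^ d + CK κ d)) * 1 * (1 / 4) := by ring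
    _ ≤ (m : ℝ) ^ J * CX κ d * (1 + Real.log A) ^ 2 * (A ^ 4 / (A ^ 4 + y ^ 2)) := by
      have h5 : (1 / 4 : ℝ) ≤ A ^ 4 / (A ^ 4 + y ^ 2) := by linarith
      exact mul_le_mul (mul_le_mul (mul_le_mul_of_nonneg_left h4 (by positivity)) h3 (by norm_num) (by positivity))
        h5 (by norm_num) (by positivity)

/-- all zeros, for the dominating polynomial -/
lemma Par.all (p : Par κ c A d n1 J m m') (W : Finset ι) (hW : W.card = d) {z : ℂ} (hz : |z.re| ≤ 1 / 2) :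
    ‖hat A (KK 1 (fun _ => (-3 : ℂ)) W n1 J m m') z‖ ≤
      (m : ℝ) ^ J * CX κ d * (1 + Real.log A) ^ 2 * (A ^ 4 / (A ^ 4 + z.im ^ 2)) := by
  have hv : ∀ i : ι, ‖(fun _ : ι => (-3 : ℂ)) i‖ ≤ 3 := fun i => by simp
  rcases le_total (A ^ 4) (z.im ^ 2) with h | h
  · exact p.high hz (by simp) hv W hW h
  · have hA := p.hA
    unfold hat
    rw [← ww_neg]
    have hz' : |(-z).re| ≤ 1 / 2 := by simpa using hz
    have key : ∀ z : ℂ, |z.re| ≤ 1 / 2 → ‖(KK 1 (fun _ => (-3 : ℂ)) W n1 J m m').eval (ww A z)‖ ≤ (m : ℝ) ^ J * CK κ d := by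
      intro z hz
      refine p.low hz (by simp) hv W hW ?_
      rcases le_total (A ^ 3) (z.im ^ 2) with h | h
      · exact Or.inr h
      · exact Or.inl (p.hbig.trans (far_one (by linarith) hz h p.hm))
    refine p.low2 ?_ (key z hz) (key (-z) hz') h
    have h2 := (KK_dom (e := 1) (by simp) hv W n1 J m m').eval_one
    rw [QQ_eval_one, hW] at h2
    exact h2

end par2

/-- summing the bounds -/
theorem sum_bdd : ∃ C : ℝ, 0 < C ∧ ∀ A : ℝ, 1 ≤ A → ∀ (B : Zt → ℂ) (X : ℝ) (S : ℂ), 0 ≤ X →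
    (∀ ρ : Zt, ‖B ρ‖ ≤ X * (A ^ 4 / (A ^ 4 + (ρ : ℂ).im ^ 2))) →
    HasSum (fun ρ : Zt => (mu ρ : ℂ) * B ρ) S → ‖S‖ ≤ C * (X * (A ^ 2 * (1 + Real.log A))) := by
  obtain ⟨C, hC, hs⟩ := sumA
  refine ⟨2 * C, by positivity, fun A hA B X S hX hB hS => ?_⟩
  have hA0 : 0 < A := by linarith
  have hl : 0 ≤ Real.log A := Real.log_nonneg hA
  obtain ⟨h1, h2⟩ := hs (A ^ 2) (one_le_pow₀ hA)
  have e : (A ^ 2) ^ 2 = A ^ 4 := by ring
  rw [e] at h1 h2
  have h3 : ∀ ρ : Zt, ‖(mu ρ : ℂ) * B ρ‖ ≤ X * A ^ 4 * ((mu ρ : ℝ) * (1 / (A ^ 4 + (ρ : ℂ).im ^ 2))) := by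
    intro ρ
    rw [norm_mul, Complex.norm_natCast]
    calc (mu ρ : ℝ) * ‖B ρ‖ ≤ (mu ρ : ℝ) * (X * (A ^ 4 / (A ^ 4 + (ρ : ℂ).im ^ 2))) := by
          gcongr; exact hB ρ
      _ = _ := by ring
  have h4 := tsum_of_norm_bounded (h1.mul_left (X * A ^ 4)).hasSum h3
  rw [hS.tsum_eq, tsum_mul_left] at h4
  refine h4.trans ?_
  rw [Real.log_pow] at h2
  push_cast at h2
  calc X * A ^ 4 * ∑' ρ : Zt, (mu ρ : ℝ) * (1 / (A ^ 4 + (ρ : ℂ).im ^ 2)) ≤
      X * A ^ 4 * (C * ((1 + 2 * Real.log A) / A ^ 2)) := by gcongr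
    _ = C * (X * (A ^ 2 * (1 + 2 * Real.log A))) := by field_simp
    _ ≤ C * (X * (A ^ 2 * (2 * (1 + Real.log A)))) := by gcongr; linarith
    _ = _ := by ring

end Pool.Agent.Q260.LF
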