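import Pool.Agent.Q260.LF.B4

/-! # Limits -/

set_option autoImplicit false
set_option maxHeartbeats 1000000

open Filter Topology
open scoped ComplexConjugate
open Pool.Agent.Y23 (Zt mu half_re cjZ rfZ rfZ_sub mu_rfZ mu_conj)

namespace Pool.Agent.Q260.LF

lemma inv_lim (z : ℂ) : Tendsto (fun A : ℝ => z / (A : ℂ)) atTop (𝓝 0) := by
  have h1 : Tendsto (fun A : ℝ => ((A⁻¹ : ℝ) : ℂ)) atTop (𝓝 ((0 : ℝ) : ℂ)) :=
    (Complex.continuous_ofReal.tendsto 0).comp tendsto_inv_atTop_zero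
  have h2 := h1.const_mul z
  rw [Complex.ofReal_zero, mul_zero] at h2
  refine h2.congr fun A => ?_
  rw [Complex.ofReal_inv]
  rfl

lemma pow_lim (z : ℂ) {D : ℝ} (hD : 0 < D) :
    Tendsto (fun A : ℝ => (1 + z / A) ^ ⌊A / D⌋₊) atTop (𝓝 (Complex.exp (z / D))) := by
  have h1 : Tendsto (fun A : ℝ => (A : ℂ) * (z / A)) atTop (𝓝 z) := by
    refine tendsto_const_nhds.congr' ?_
    filter_upwards [eventually_gt_atTop 0] with A hA
    have : (A : ℂ) ≠ 0 := by exact_mod_cast hA.ne'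
    field_simp
  have h2 := Complex.tendsto_mul_log_one_add_of_tendsto h1
  have h3 : Tendsto (fun A : ℝ => ((⌊A / D⌋₊ : ℝ) / (A / D))) atTop (𝓝 1) :=
    tendsto_nat_floor_div_atTop.comp (tendsto_id.atTop_div_const hD)
  have h4 : Tendsto (fun A : ℝ => (((⌊A / D⌋₊ : ℝ) / (A / D) : ℝ) : ℂ)) atTop (𝓝 ((1 : ℝ) : ℂ)) :=
    (Complex.continuous_ofReal.tendsto 1).comp h3
  have h5 := ((h4.mul h2).mul_const (1 / (D : ℂ)))
  have h6 : Tendsto (fun A : ℝ => ((⌊A / D⌋₊ : ℕ) : ℂ) * Complex.log (1 + z / A)) atTop (𝓝 (z / D)) := by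
    have e : (((1 : ℝ) : ℂ)) * z * (1 / (D : ℂ)) = z / D := by push_cast; ring
    rw [e] at h5
    refine h5.congr' ?_
    filter_upwards [eventually_gt_atTop 0] with A hA
    have hA' : (A : ℂ) ≠ 0 := by exact_mod_cast hA.ne'
    have hD' : (D : ℂ) ≠ 0 := by exact_mod_cast hD.ne'
    push_cast
    field_simp
  have h7 := (Complex.continuous_exp.tendsto _).comp h6
  refine h7.congr' ?_
  have h8 := (inv_lim z).const_add 1
  rw [add_zero] at h8
  filter_upwards [h8.eventually_ne one_ne_zero] with A hA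
  simp only [Function.comp]
  rw [Complex.exp_nat_mul, Complex.exp_log hA]

lemma ww_pow_lim (z : ℂ) {D : ℝ} (hD : 0 < D) :
    Tendsto (fun A : ℝ => (-(ww A z)) ^ ⌊A / D⌋₊) atTop (𝓝 (Complex.exp (2 * z / D))) := by
  have h1 := pow_lim z hD
  have h2 := pow_lim (-z) hD
  have h3 := h1.div h2 (Complex.exp_ne_zero _)
  have e : Complex.exp (z / D) / Complex.exp (-z / D) = Complex.exp (2 * z / D) := by
    rw [← Complex.exp_sub]; congr 1; ring
  rw [e] at h3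
  refine h3.congr' ?_
  filter_upwards [eventually_gt_atTop 0] with A hA
  have hA' : (A : ℂ) ≠ 0 := by exact_mod_cast hA.ne'
  simp only [Pi.div_apply]
  rw [← div_pow]
  congr 1
  unfold ww
  have e1 : 1 + z / (A : ℂ) = (z + A) / A := by field_simp; ring
  have e2 : 1 + -z / (A : ℂ) = -(z - A) / A := by field_simp; ring
  rw [e1, e2, div_div_div_cancel_right₀ hA', div_neg]

lemma fac_lim (z z0 : ℂ) {D : ℝ} (hD : 0 < D) :
    Tendsto (fun A : ℝ => 1 - (ww A z)⁻¹ ^ ⌊A / D⌋₊ * (ww A z0) ^ ⌊A / D⌋₊) atTop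
      (𝓝 (1 - Complex.exp (2 * (z0 - z) / D))) := by
  have h1 := ww_pow_lim z hD
  have h2 := ww_pow_lim z0 hD
  have h3 := (h2.div h1 (Complex.exp_ne_zero _)).const_sub 1
  have e : Complex.exp (2 * z0 / D) / Complex.exp (2 * z / D) = Complex.exp (2 * (z0 - z) / D) := by
    rw [← Complex.exp_sub]; congr 1; ring
  rw [e] at h3
  refine h3.congr fun A => ?_
  simp only [Pi.div_apply]
  rw [← div_pow, neg_div_neg_eq, div_eq_mul_inv, mul_pow, mul_comm]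

lemma exp_ne_one {z z0 : ℂ} {D : ℝ} (hD : 0 < D) (hne : z ≠ z0) (hle : ‖z - z0‖ ≤ D) :
    (1 : ℂ) - Complex.exp (2 * (z0 - z) / D) ≠ 0 := by
  intro h
  have h1 : Complex.exp (2 * (z0 - z) / D) = 1 := by linear_combination -h
  rw [Complex.exp_eq_one_iff] at h1
  obtain ⟨n, hn⟩ := h1
  have h2 : ‖2 * (z0 - z) / (D : ℂ)‖ ≤ 2 := by
    rw [norm_div, norm_mul, Complex.norm_ofNat, Complex.norm_real, Real.norm_eq_abs, abs_of_pos hD, norm_sub_rev,
      div_le_iff₀ hD]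
    linarith
  rw [hn, norm_mul, norm_mul, norm_mul, Complex.norm_I, Complex.norm_real, Real.norm_eq_abs,
    abs_of_pos Real.pi_pos, Complex.norm_ofNat, Complex.norm_intCast] at h2
  have hpi := Real.pi_gt_three
  have h3 : |(n : ℝ)| < 1 := by
    by_contra hc
    push Not at hc
    nlinarith
  have h4 : n = 0 := by
    rw [← Int.cast_abs] at h3
    have : |n| < 1 := by exact_mod_cast h3
    exact Int.abs_lt_one_iff.1 this
  rw [h4] at hn
  simp only [Int.cast_zero, zero_mul] at hn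
  have hD' : (D : ℂ) ≠ 0 := by exact_mod_cast hD.ne'
  rw [div_eq_zero_iff] at hn
  rcases hn with hn | hn
  · have h5 : z0 - z = 0 := by
      rcases mul_eq_zero.1 hn with h6 | h6
      · norm_num at h6
      · exact h6
    exact hne (sub_eq_zero.1 h5).symm
  · exact hD' hn

/-- the product at the peak -/
lemma prod_low {ι : Type*} (W : Finset ι) (zz : ι → ℂ) (z0 : ℂ) {D : ℝ} (hD : 0 < D)
    (hW : ∀ i ∈ W, zz i ≠ z0 ∧ ‖zz i - z0‖ ≤ D) :
    ∃ c0 : ℝ, 0 < c0 ∧ ∀ᶠ A : ℝ in atTop,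
      c0 ≤ ‖∏ i ∈ W, (1 - (ww A (zz i))⁻¹ ^ ⌊A / D⌋₊ * (ww A z0) ^ ⌊A / D⌋₊)‖ := by
  set L : ℂ := ∏ i ∈ W, (1 - Complex.exp (2 * (z0 - zz i) / D)) with hL
  have hL0 : L ≠ 0 := Finset.prod_ne_zero_iff.2 fun i hi => exp_ne_one hD (hW i hi).1 (hW i hi).2
  have hn : 0 < ‖L‖ := norm_pos_iff.2 hL0
  have h1 : Tendsto (fun A : ℝ => ∏ i ∈ W, (1 - (ww A (zz i))⁻¹ ^ ⌊A / D⌋₊ * (ww A z0) ^ ⌊A / D⌋₊)) atTop (𝓝 L) :=
    tendsto_finsetProd _ fun i _ => fac_lim (zz i) z0 hD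
  refine ⟨‖L‖ / 2, by positivity, ?_⟩
  filter_upwards [h1.norm.eventually (eventually_gt_nhds (show ‖L‖ / 2 < ‖L‖ by linarith))] with A hA
  exact hA.le

/-- the size of the peak -/
lemma w0_low {A : ℝ} {z : ℂ} (hA : 1 ≤ A) (hz : |z.re| ≤ 1 / 2) (hz0 : 0 < z.re) (n : ℕ) :
    Real.exp (n * (2 * z.re * A / ((A + z.re) ^ 2 + z.im ^ 2))) ≤ ‖ww A z‖ ^ n := by
  have hA0 : 0 < A := by linarith
  have hw := ww_ne hA hz
  have hw0 : 0 < ‖ww A z‖ := norm_pos_iff.2 hw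
  set y : ℝ := 2 * z.re * A / ((A + z.re) ^ 2 + z.im ^ 2) with hy
  have hden : 0 < (A + z.re) ^ 2 + z.im ^ 2 := by positivity
  have h1 : ‖(ww A z)⁻¹‖ ^ 2 ≤ Real.exp (-y) ^ 2 := by
    rw [← Real.exp_nat_mul]
    refine le_trans ?_ (Real.add_one_le_exp _)
    unfold ww
    rw [inv_div, norm_div, div_pow, normSq_add, normSq_sub]
    push_cast
    rw [hy]
    apply le_of_eq
    field_simp
    ring
  have h2 : ‖(ww A z)⁻¹‖ ≤ Real.exp (-y) := norm_le_sq (Real.exp_pos _).le h1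
  have h3 : Real.exp y ≤ ‖ww A z‖ := by
    rw [norm_inv, Real.exp_neg] at h2
    exact (inv_le_inv₀ hw0 (Real.exp_pos y)).1 h2
  rw [Real.exp_nat_mul]
  exact pow_le_pow_left₀ (Real.exp_pos _).le h3 n

lemma ratio_lim (a b : ℝ) : Tendsto (fun A : ℝ => A ^ 2 / ((A + a) ^ 2 + b ^ 2)) atTop (𝓝 1) := by
  have h1 : Tendsto (fun A : ℝ => 1 / ((1 + a * A⁻¹) ^ 2 + (b * A⁻¹) ^ 2)) atTop (𝓝 (1 / ((1 + a * 0) ^ 2 + (b * 0) ^ 2))) := by
    have h2 : Tendsto (fun A : ℝ => A⁻¹) atTop (𝓝 0) := tendsto_inv_atTop_zero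
    refine Tendsto.div tendsto_const_nhds ((((h2.const_mul a).const_add 1).pow 2).add ((h2.const_mul b).pow 2)) ?_
    norm_num
  have e : (1 : ℝ) / ((1 + a * 0) ^ 2 + (b * 0) ^ 2) = 1 := by norm_num
  rw [e] at h1
  refine h1.congr' ?_
  filter_upwards [eventually_gt_atTop 0] with A hA
  have e1 : (1 + a * A⁻¹) ^ 2 + (b * A⁻¹) ^ 2 = ((A + a) ^ 2 + b ^ 2) / A ^ 2 := by
    field_simp
  rw [e1, one_div_div]

/-- the size of the peak -/
lemma peak_low {z : ℂ} (hz : |z.re| ≤ 1 / 2) (hz0 : 0 < z.re) {κ1 s : ℝ} (hκ1 : 0 < κ1) (hs : s < 2 * κ1 * z.re) :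
    ∀ᶠ A : ℝ in atTop, ∀ n : ℕ, κ1 * (A * Real.log A) ≤ n → A ^ s ≤ ‖ww A z‖ ^ n := by
  have hp : 0 < 2 * κ1 * z.re := by positivity
  have hlt : s / (2 * κ1 * z.re) < 1 := by
    rw [div_lt_one hp]; exact hs
  filter_upwards [(ratio_lim z.re z.im).eventually (eventually_gt_nhds hlt), eventually_ge_atTop 2] with A hA hA2 n hn
  have hA0 : 0 < A := by linarith
  have hl : 0 ≤ Real.log A := Real.log_nonneg (by linarith)
  refine le_trans ?_ (w0_low (by linarith) hz hz0 n)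
  rw [Real.rpow_def_of_pos hA0]
  apply Real.exp_le_exp.2
  have hden : 0 < (A + z.re) ^ 2 + z.im ^ 2 := by positivity
  rw [div_lt_iff₀ hp] at hA
  have h1 : (κ1 * (A * Real.log A)) * (2 * z.re * A / ((A + z.re) ^ 2 + z.im ^ 2)) ≤
      n * (2 * z.re * A / ((A + z.re) ^ 2 + z.im ^ 2)) := by gcongr
  refine le_trans ?_ h1
  have e : (κ1 * (A * Real.log A)) * (2 * z.re * A / ((A + z.re) ^ 2 + z.im ^ 2)) =
      Real.log A * ((A ^ 2 / ((A + z.re) ^ 2 + z.im ^ 2)) * (2 * κ1 * z.re)) := by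
    field_simp
  rw [e]
  exact mul_le_mul_of_nonneg_left hA.le hl

end Pool.Agent.Q260.LF
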