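import Pool.Agent.Q260.LF.Res
import Pool.Agent.Y23.We3

/-! # The logarithmic derivative of the completed zeta function to the right of the strip -/

set_option autoImplicit false

open Complex Filter Topology Set MeasureTheory
open scoped ComplexConjugate
open Pool.Agent.H24R2.JP (XX)
open Pool.Agent.Y23

namespace Pool.Agent.Q260.LF

lemma logDeriv_Gammaℝ {z : ℂ} (hz : 0 < z.re) :
    logDeriv Gammaℝ z = -(Real.log Real.pi : ℂ) / 2 + 1 / 2 * logDeriv Gamma (z / 2) := by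
  have hne : ∀ m : ℕ, z / 2 ≠ -(m : ℂ) := by
    intro m h
    have h1 := congrArg Complex.re h
    have h2 : (z / 2).re = z.re / 2 := by simp
    rw [h2] at h1
    simp only [neg_re, natCast_re] at h1
    have : (0 : ℝ) ≤ m := Nat.cast_nonneg m
    linarith
  have hpi : (Real.pi : ℂ) ≠ 0 := ofReal_ne_zero.mpr Real.pi_ne_zero
  have d1 : HasDerivAt (fun z : ℂ => (Real.pi : ℂ) ^ (-z / 2))
      ((Real.pi : ℂ) ^ (-z / 2) * log (Real.pi : ℂ) * (-1 / 2)) z := by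
    have h1 : HasDerivAt (fun z : ℂ => -z / 2) (-1 / 2) z := by
      simpa using ((hasDerivAt_id z).neg).div_const 2
    exact h1.const_cpow (Or.inl hpi)
  have d2 : HasDerivAt (fun z : ℂ => Gamma (z / 2)) (deriv Gamma (z / 2) * (1 / 2)) z := by
    have h1 : HasDerivAt (fun z : ℂ => z / 2) (1 / 2) z := by
      simpa using (hasDerivAt_id z).div_const 2
    exact HasDerivAt.comp z (differentiableAt_Gamma _ hne).hasDerivAt h1
  have hG : Gammaℝ = fun z : ℂ => (Real.pi : ℂ) ^ (-z / 2) * Gamma (z / 2) := by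
    funext z
    rw [Gammaℝ_def]
  have d3 := d1.mul d2
  have hΓ : Gamma (z / 2) ≠ 0 := Gamma_ne_zero hne
  have hpc : (Real.pi : ℂ) ^ (-z / 2) ≠ 0 := by
    rw [Ne, cpow_eq_zero_iff]
    exact fun h => hpi h.1
  rw [logDeriv_apply, logDeriv_apply, hG]
  erw [d3.deriv]
  rw [← Complex.ofReal_log Real.pi_pos.le]
  field_simp

/-- the norm of the logarithm -/
lemma norm_log_le {w : ℂ} (h : 1 ≤ ‖w‖) : ‖log w‖ ≤ Real.log ‖w‖ + Real.pi := by
  have e : log w = ((Real.log ‖w‖ : ℝ) : ℂ) + (arg w : ℂ) * I := rfl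
  rw [e]
  refine (norm_add_le _ _).trans (add_le_add ?_ ?_)
  · rw [Complex.norm_real, Real.norm_eq_abs, abs_of_nonneg (Real.log_nonneg h)]
  · rw [norm_mul, norm_I, mul_one, Complex.norm_real, Real.norm_eq_abs]
    exact abs_arg_le_pi _

lemma digamma_right' : ∃ C : ℝ, 0 < C ∧ ∀ w : ℂ, 1 / 2 ≤ w.re →
    ‖logDeriv Gamma w‖ ≤ C * (1 + Real.log (2 + ‖w‖)) := by
  set Z := ∑' n : ℕ, 1 / ((n : ℝ) + 1) ^ 2 with hZ
  have hZ0 : 0 ≤ Z := tsum_nonneg fun n => by positivity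
  refine ⟨Real.pi + 4 + Z, by have := Real.pi_pos; positivity, fun w hw => ?_⟩
  have h0 : 0 < w.re := by linarith
  rw [H370.DG.logDeriv_Gamma' h0]
  have n0 : 1 / 2 ≤ ‖w‖ := hw.trans (Complex.re_le_norm w)
  have n1 : 1 ≤ ‖w + 1‖ := by
    refine le_trans ?_ (Complex.re_le_norm _)
    simp; linarith
  have n2 : 1 ≤ ‖w + 2‖ := by
    refine le_trans ?_ (Complex.re_le_norm _)
    simp; linarith
  have n3 : ‖w + 2‖ ≤ 2 + ‖w‖ := by
    refine (norm_add_le _ _).trans ?_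
    rw [Complex.norm_ofNat]; linarith
  have a1 := norm_log_le n2
  have a2 : Real.log ‖w + 2‖ ≤ Real.log (2 + ‖w‖) := Real.log_le_log (by linarith) n3
  have a3 : ‖1 / w‖ ≤ 2 := by
    rw [norm_div, norm_one, div_le_iff₀ (by linarith)]; linarith
  have a4 : ‖1 / (w + 1)‖ ≤ 1 := by
    rw [norm_div, norm_one, div_le_iff₀ (by linarith)]; linarith
  have a5 := H370.DG.norm_tsum_er h0
  have a6 : 0 ≤ Real.log (2 + ‖w‖) := Real.log_nonneg (by linarith)
  have b1 := norm_add_le (log (w + 2) - 1 / w - 1 / (w + 1)) (∑' n, H370.DG.er n w)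
  have b2 := norm_sub_le (log (w + 2) - 1 / w) (1 / (w + 1))
  have b3 := norm_sub_le (log (w + 2)) (1 / w)
  have hpi := Real.pi_pos
  nlinarith

lemma YL_right : ∃ C : ℝ, 0 < C ∧ ∀ w : ℂ, 1 ≤ w.re → ‖YL w‖ ≤ C * (1 + Real.log (2 + ‖w‖)) := by
  obtain ⟨C, hC, h⟩ := digamma_right'
  refine ⟨C + 3 + |Real.log Real.pi|, by positivity, fun w hw => ?_⟩
  have n0 : 1 ≤ ‖w‖ := hw.trans (Complex.re_le_norm w)
  have hs : 0 < (1 / 2 + w : ℂ).re := by simp; linarith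
  unfold YL
  rw [logDeriv_Gammaℝ hs]
  have b1 : ‖8 * w / (4 * w ^ 2 - 1)‖ ≤ 3 := by
    rw [norm_div]
    have h3 : 3 * ‖w‖ ^ 2 ≤ ‖4 * w ^ 2 - 1‖ := by
      have h4 := norm_sub_norm_le (4 * w ^ 2) 1
      rw [norm_mul, norm_pow, norm_one, Complex.norm_ofNat] at h4
      nlinarith
    rw [div_le_iff₀ (by nlinarith), norm_mul, Complex.norm_ofNat]
    nlinarith
  have b2 := h ((1 / 2 + w) / 2) (by
    have : ((1 / 2 + w : ℂ) / 2).re = (1 / 2 + w.re) / 2 := by simp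
    rw [this]; linarith)
  have b3 : ‖(1 / 2 + w : ℂ) / 2‖ ≤ ‖w‖ := by
    rw [norm_div, Complex.norm_ofNat, div_le_iff₀ (by norm_num)]
    refine (norm_add_le _ _).trans ?_
    have : ‖(1 / 2 : ℂ)‖ = 1 / 2 := by simp
    rw [this]; linarith
  have b4 : Real.log (2 + ‖(1 / 2 + w : ℂ) / 2‖) ≤ Real.log (2 + ‖w‖) :=
    Real.log_le_log (by positivity) (by linarith)
  have b5 : 0 ≤ Real.log (2 + ‖w‖) := Real.log_nonneg (by linarith)
  have b6 : ‖-(Real.log Real.pi : ℂ) / 2‖ ≤ |Real.log Real.pi| := by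
    rw [norm_div, norm_neg, Complex.norm_real, Real.norm_eq_abs, Complex.norm_ofNat]
    have := abs_nonneg (Real.log Real.pi)
    linarith
  have b7 : ‖(1 / 2 : ℂ) * logDeriv Gamma ((1 / 2 + w) / 2)‖ ≤ C * (1 + Real.log (2 + ‖w‖)) := by
    rw [norm_mul]
    have : ‖(1 / 2 : ℂ)‖ = 1 / 2 := by simp
    rw [this]
    have h5 : C * (1 + Real.log (2 + ‖(1 / 2 + w : ℂ) / 2‖)) ≤ C * (1 + Real.log (2 + ‖w‖)) :=
      mul_le_mul_of_nonneg_left (by linarith) hC.le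
    have h6 : 0 ≤ C * (1 + Real.log (2 + ‖w‖)) := by positivity
    have h7 := norm_nonneg (logDeriv Gamma ((1 / 2 + w) / 2))
    linarith
  have c1 := norm_add_le (8 * w / (4 * w ^ 2 - 1))
    (-(Real.log Real.pi : ℂ) / 2 + 1 / 2 * logDeriv Gamma ((1 / 2 + w) / 2))
  have c2 := norm_add_le (-(Real.log Real.pi : ℂ) / 2) (1 / 2 * logDeriv Gamma ((1 / 2 + w) / 2))
  have c3 : 0 ≤ |Real.log Real.pi| := abs_nonneg _
  nlinarith [mul_nonneg c3 b5]

lemma LD_right : ∃ C : ℝ, 0 < C ∧ ∀ s : ℂ, 3 / 2 ≤ s.re →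
    ‖deriv riemannZeta s / riemannZeta s‖ ≤ C := by
  refine ⟨∑' n : ℕ, ‖LSeries.term (fun n => (ArithmeticFunction.vonMangoldt n : ℂ)) (3 / 2 : ℂ) n‖ + 1,
    by positivity, fun s hs => ?_⟩
  have h := ArithmeticFunction.LSeries_vonMangoldt_eq_deriv_riemannZeta_div (s := s) (by linarith)
  have h2 : deriv riemannZeta s / riemannZeta s =
      -LSeries (fun n => (ArithmeticFunction.vonMangoldt n : ℂ)) s := by
    rw [h]; ring
  rw [h2, norm_neg]
  have hsum : LSeriesSummable (fun n => (ArithmeticFunction.vonMangoldt n : ℂ)) (3 / 2 : ℂ) :=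
    ArithmeticFunction.LSeriesSummable_vonMangoldt (by norm_num)
  have h3 : ‖LSeries (fun n => (ArithmeticFunction.vonMangoldt n : ℂ)) s‖ ≤
      ∑' n : ℕ, ‖LSeries.term (fun n => (ArithmeticFunction.vonMangoldt n : ℂ)) (3 / 2 : ℂ) n‖ := by
    unfold LSeries
    refine tsum_of_norm_bounded hsum.norm.hasSum fun n => ?_
    exact LSeries.norm_term_le_of_re_le_re _ (by simpa using hs) n
  linarith

/-- bound to the right of the strip -/
lemma ZZ_right : ∃ C : ℝ, 0 < C ∧ ∀ w : ℂ, 1 ≤ w.re → ‖ZZ w‖ ≤ C * (1 + Real.log (2 + ‖w‖)) := by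
  obtain ⟨C1, h1, H1⟩ := YL_right
  obtain ⟨C2, h2, H2⟩ := LD_right
  refine ⟨C1 + C2, by positivity, fun w hw => ?_⟩
  have hR : w ∈ Rg := by
    refine ⟨?_, ?_, Or.inl (by linarith)⟩
    · rintro rfl; norm_num at hw
    · rintro rfl; norm_num at hw
  have hre : (1 / 2 + w : ℂ).re = 1 / 2 + w.re := by simp
  have h0 : riemannZeta (1 / 2 + w) ≠ 0 := riemannZeta_ne_zero_of_one_le_re (by rw [hre]; linarith)
  rw [ZZ_eq hR h0]
  have b5 : 0 ≤ Real.log (2 + ‖w‖) := Real.log_nonneg (by have := norm_nonneg w; linarith)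
  refine (norm_add_le _ _).trans ((add_le_add (H1 w hw) (H2 _ (by rw [hre]; linarith))).trans ?_)
  nlinarith

lemma XX_ne_right {w : ℂ} (h : 1 / 2 < w.re) : XX w ≠ 0 := fun h0 => by
  have := Pool.Agent.H24R2.JP.Zer.re_le w h0
  linarith

lemma ZZ_diff {w : ℂ} (h : 1 / 2 < w.re) : DifferentiableAt ℂ ZZ w :=
  ((XX_an w).deriv.differentiableAt).div (XX_diff w) (XX_ne_right h)

end Pool.Agent.Q260.LF
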