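import Pool.Agent.Q260.LF.Arch3

/-! # Comparison of a term with the term on the line -/

set_option autoImplicit false
set_option maxHeartbeats 1000000

open Complex Filter Topology Set MeasureTheory
open scoped ComplexConjugate
open Pool.Agent.Y23 (Zt mu Lg one_le_Lg Lg_cont)

namespace Pool.Agent.Q260.LF

/-- the value on the line -/
noncomputable def u0 (A γ : ℝ) : ℂ := -((A + γ * I) / (A - γ * I))

lemma Api_ne {A : ℝ} (hA : 0 < A) (γ : ℝ) : (A : ℂ) + γ * I ≠ 0 := by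
  intro h
  have := congrArg Complex.re h
  simp at this
  linarith

lemma Ami_ne {A : ℝ} (hA : 0 < A) (γ : ℝ) : (A : ℂ) - γ * I ≠ 0 := by
  intro h
  have := congrArg Complex.re h
  simp at this
  linarith

lemma u0_exp {A : ℝ} (hA : 0 < A) (γ : ℝ) : u0 A γ = Complex.exp (((-(2 * th A γ) : ℝ) : ℂ) * I) := by
  set a := Real.arctan (γ / A) with ha
  have e1 : ((-(2 * th A γ) : ℝ) : ℂ) * I = (a : ℂ) * I + (a : ℂ) * I - Real.pi * I := by
    unfold th
    rw [← ha]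
    push_cast
    ring
  have hc : Real.cos a = 1 / √(1 + (γ / A) ^ 2) := Real.cos_arctan _
  have hs : Real.sin a = (γ / A) / √(1 + (γ / A) ^ 2) := Real.sin_arctan _
  have hq : (√(1 + (γ / A) ^ 2)) ^ 2 = 1 + (γ / A) ^ 2 := Real.sq_sqrt (by positivity)
  have e2 : Complex.exp ((a : ℂ) * I) = (1 + (γ / A : ℝ) * I) / (√(1 + (γ / A) ^ 2) : ℝ) := by
    rw [Complex.exp_mul_I, ← Complex.ofReal_cos, ← Complex.ofReal_sin, hc, hs]
    push_cast
    ring
  rw [e1, Complex.exp_sub, Complex.exp_add, e2, Complex.exp_pi_mul_I]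
  have hq' : ((√(1 + (γ / A) ^ 2) : ℝ) : ℂ) ^ 2 = 1 + (γ / A : ℝ) ^ 2 := by
    rw [← Complex.ofReal_pow, hq]; push_cast; ring
  have h3 : (1 + ((γ / A : ℝ) : ℂ) * I) / (√(1 + (γ / A) ^ 2) : ℝ) * ((1 + ((γ / A : ℝ) : ℂ) * I) / (√(1 + (γ / A) ^ 2) : ℝ)) =
      (1 + ((γ / A : ℝ) : ℂ) * I) ^ 2 / ((√(1 + (γ / A) ^ 2) : ℝ) : ℂ) ^ 2 := by
    rw [div_mul_div_comm]; ring
  have hA' : (A : ℂ) ≠ 0 := by exact_mod_cast hA.ne'
  have h4 : (1 : ℂ) + (γ / A : ℝ) ^ 2 = (1 + ((γ / A : ℝ) : ℂ) * I) * (1 - ((γ / A : ℝ) : ℂ) * I) := by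
    linear_combination (((γ / A : ℝ) : ℂ) ^ 2) * I_sq
  have h5 : (1 : ℂ) + ((γ / A : ℝ) : ℂ) * I = (A + γ * I) / A := by
    push_cast; field_simp
  have h6 : (1 : ℂ) - ((γ / A : ℝ) : ℂ) * I = (A - γ * I) / A := by
    push_cast; field_simp
  have hp := Api_ne hA γ
  have hm := Ami_ne hA γ
  rw [h3, hq', h4, h5, h6]
  unfold u0
  field_simp

lemma u0_norm {A : ℝ} (hA : 0 < A) (γ : ℝ) : ‖u0 A γ‖ = 1 := by
  rw [u0_exp hA, Complex.norm_exp_ofReal_mul_I]

lemma u0_pow_re {A : ℝ} (hA : 0 < A) (n : ℕ) (γ : ℝ) : (u0 A γ ^ n).re = 1 - ff A n |γ| := by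
  have h1 : (u0 A γ ^ n).re = Real.cos (2 * n * th A γ) := by
    rw [u0_exp hA, ← Complex.exp_nat_mul]
    have e : (n : ℂ) * (((-(2 * th A γ) : ℝ) : ℂ) * I) = ((-(2 * n * th A γ) : ℝ) : ℂ) * I := by
      push_cast; ring
    rw [e, Complex.exp_ofReal_mul_I_re, Real.cos_neg]
  rw [h1]
  unfold ff
  rw [sub_sub_cancel]
  rcases le_total 0 γ with h | h
  · rw [abs_of_nonneg h]
  · rw [abs_of_nonpos h]
    have e : th A γ = Real.pi - th A (-γ) := by
      unfold th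
      rw [neg_div, Real.arctan_neg]
      ring
    rw [e, show 2 * (n : ℝ) * (Real.pi - th A (-γ)) = n * (2 * Real.pi) - 2 * n * th A (-γ) by ring,
      Real.cos_nat_mul_two_pi_sub]

lemma pow_sub_one_le {v : ℂ} (hv : ‖v‖ = 1) (n : ℕ) : ‖v ^ n - 1‖ ≤ n * ‖v - 1‖ := by
  have e2 : v ^ n - 1 = (v - 1) * ∑ i ∈ Finset.range n, v ^ i := by
    rw [mul_comm, geom_sum_mul]
  rw [e2, norm_mul, mul_comm]
  apply mul_le_mul_of_nonneg_right _ (norm_nonneg _)
  refine (norm_sum_le _ _).trans ?_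
  simp [hv]

/-- polar form of the map -/
lemma polar {A : ℝ} {z : ℂ} (hA : 1 ≤ A) (hz : |z.re| ≤ 1 / 2) :
    ∃ v : ℂ, ‖v‖ = 1 ∧ ‖v - 1‖ ≤ 2 / 3 * (1 / (A ^ 2 + z.im ^ 2)) ∧
      ww A z = (‖ww A z‖ : ℂ) * (u0 A z.im * v) := by
  have hA0 : 0 < A := by linarith
  have hzz := abs_le.1 hz
  set p : ℂ := z.re / (A + z.im * I) with hp
  have hne := Api_ne hA0 z.im
  have hne' := Ami_ne hA0 z.im
  have hden : 0 < A ^ 2 + z.im ^ 2 := by positivity
  have hn1 : ‖(A : ℂ) + z.im * I‖ ^ 2 = A ^ 2 + z.im ^ 2 := by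
    rw [← Complex.normSq_eq_norm_sq, Complex.normSq_apply]
    simp
    ring
  have hp2 : ‖p ^ 2‖ = z.re ^ 2 / (A ^ 2 + z.im ^ 2) := by
    rw [norm_pow, hp, norm_div, div_pow, hn1, Complex.norm_real, Real.norm_eq_abs, sq_abs]
  have hre2 : z.re ^ 2 ≤ 1 / 4 := by
    have := abs_le.1 hz
    nlinarith
  have hp3 : ‖p ^ 2‖ ≤ 1 / 4 * (1 / (A ^ 2 + z.im ^ 2)) := by
    rw [hp2, div_eq_mul_one_div]
    exact mul_le_mul_of_nonneg_right hre2 (by positivity)
  have hinv1 : 1 / (A ^ 2 + z.im ^ 2) ≤ 1 := by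
    rw [div_le_one hden]
    nlinarith [sq_nonneg z.im]
  have hp4 : ‖p ^ 2‖ ≤ 1 / 4 := hp3.trans (by linarith)
  have hlow : 3 / 4 ≤ ‖1 - p ^ 2‖ := by
    have := norm_sub_norm_le (1 : ℂ) (p ^ 2)
    rw [norm_one] at this
    linarith
  set r : ℝ := ‖1 - p ^ 2‖ with hr
  have hr0 : 0 < r := by linarith
  have hrC : (r : ℂ) ≠ 0 := by exact_mod_cast hr0.ne'
  refine ⟨(1 - p ^ 2) / r, ?_, ?_, ?_⟩
  · rw [norm_div, Complex.norm_real, Real.norm_eq_abs, abs_of_pos hr0, ← hr, div_self hr0.ne']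
  · have e : (1 - p ^ 2) / r - 1 = ((1 - p ^ 2) - r) / r := by field_simp
    rw [e, norm_div, Complex.norm_real, Real.norm_eq_abs, abs_of_pos hr0, div_le_iff₀ hr0]
    have h1 : ‖(1 - p ^ 2) - (r : ℂ)‖ ≤ 2 * ‖p ^ 2‖ := by
      have h2 : ‖(1 : ℂ) - r‖ ≤ ‖p ^ 2‖ := by
        rw [← Complex.ofReal_one, ← Complex.ofReal_sub, Complex.norm_real, Real.norm_eq_abs, hr]
        have h3 := abs_norm_sub_norm_le (1 : ℂ) (1 - p ^ 2)
        rw [norm_one, sub_sub_cancel] at h3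
        exact h3
      calc ‖(1 - p ^ 2) - (r : ℂ)‖ = ‖(1 - (r : ℂ)) - p ^ 2‖ := by congr 1; ring
        _ ≤ ‖(1 : ℂ) - r‖ + ‖p ^ 2‖ := norm_sub_le _ _
        _ ≤ _ := by linarith
    have h4 : 0 ≤ 1 / (A ^ 2 + z.im ^ 2) := by positivity
    nlinarith
  · -- the quotient
    have hnp : (1 : ℂ) - p ≠ 0 := by
      intro h
      have : p = 1 := by linear_combination -h
      rw [this] at hp4
      norm_num at hp4
    have e1 : (1 : ℂ) + p = (z + A) / (A + z.im * I) := by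
      rw [hp]
      field_simp
      have := Complex.re_add_im z
      linear_combination this
    have e2 : (1 : ℂ) - p = (A - conj z) / (A + z.im * I) := by
      rw [hp]
      field_simp
      have h1 : conj z = z.re - z.im * I := by
        apply Complex.ext <;> simp
      rw [h1]
      ring
    have e3 : conj (1 - p) = (A - z) / (A - z.im * I) := by
      rw [e2, map_div₀, map_sub, map_add, map_mul, Complex.conj_conj, Complex.conj_ofReal,
        Complex.conj_ofReal, Complex.conj_I]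
      congr 1
      ring
    have hza : z - A ≠ 0 := sub_ne hA hz
    have hza' : (A : ℂ) - z ≠ 0 := by
      intro h; apply hza; linear_combination -h
    have hsq : (1 - p) * conj (1 - p) = ((‖1 - p‖ ^ 2 : ℝ) : ℂ) := by
      rw [Complex.mul_conj, Complex.normSq_eq_norm_sq]
    have e4 : ww A z = u0 A z.im * ((1 - p ^ 2) / ((‖1 - p‖ ^ 2 : ℝ) : ℂ)) := by
      rw [← hsq, show (1 : ℂ) - p ^ 2 = (1 + p) * (1 - p) by ring]
      have hc : conj (1 - p) ≠ 0 := (map_ne_zero _).2 hnp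
      have e5 : (1 + p) * (1 - p) / ((1 - p) * conj (1 - p)) = (1 + p) / conj (1 - p) := by
        field_simp
      rw [e5, e1, e3]
      unfold ww u0
      field_simp
      ring
    have hn : ‖ww A z‖ = r / ‖1 - p‖ ^ 2 := by
      rw [e4, norm_mul, u0_norm hA0, one_mul, norm_div, Complex.norm_real, Real.norm_eq_abs,
        abs_of_nonneg (by positivity)]
    rw [hn, e4]
    have h1p : ((‖1 - p‖ ^ 2 : ℝ) : ℂ) ≠ 0 := by
      have : (0 : ℝ) < ‖1 - p‖ ^ 2 := by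
        have := norm_pos_iff.2 hnp
        positivity
      exact_mod_cast this.ne'
    push_cast
    push_cast at h1p
    field_simp

lemma cosh_sub_one_le {x : ℝ} (hx : 0 ≤ x) : Real.cosh x - 1 ≤ x ^ 2 / 2 * Real.exp x := by
  have h1 : Real.cosh x = (Real.exp x + Real.exp (-x)) / 2 := Real.cosh_eq x
  have h2 : Real.exp x = Real.exp (x / 2) ^ 2 := by rw [← Real.exp_nat_mul]; congr 1; push_cast; ring
  have h3 : Real.exp (x / 2) * Real.exp (-(x / 2)) = 1 := by rw [← Real.exp_add]; simp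
  have h4 : Real.exp (-x) = Real.exp (-(x / 2)) ^ 2 := by rw [← Real.exp_nat_mul]; congr 1; push_cast; ring
  have h5 : Real.exp (x / 2) - Real.exp (-(x / 2)) ≤ x * Real.exp (x / 2) := by
    have h6 := Real.add_one_le_exp (-x)
    have h7 : Real.exp (-(x / 2)) = Real.exp (x / 2) * Real.exp (-x) := by rw [← Real.exp_add]; congr 1; ring
    rw [h7]
    have := Real.exp_pos (x / 2)
    nlinarith
  have h8 : 0 ≤ Real.exp (x / 2) - Real.exp (-(x / 2)) := by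
    have := Real.exp_le_exp.2 (show -(x / 2) ≤ x / 2 by linarith)
    linarith
  have h9 := pow_le_pow_left₀ h8 h5 2
  rw [h1, h4]
  nlinarith

/-- the comparison with the term on the line -/
lemma cmp_pt {A : ℝ} {z : ℂ} (hA : 1 ≤ A) (hz : |z.re| ≤ 1 / 2) (n : ℕ) :
    |(TT A n z).re - ff A n (|z.im|)| ≤
      n * (1 / (A ^ 2 + z.im ^ 2)) + (n * EE A z) ^ 2 / 2 * Real.exp (n * EE A z) := by
  obtain ⟨v, hv1, hv2, hv3⟩ := polar hA hz
  have hA0 : 0 < A := by linarith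
  set R : ℝ := ‖ww A z‖ with hR
  have hwne := ww_ne hA hz
  have hR0 : 0 < R := norm_pos_iff.2 hwne
  have hRC : (R : ℂ) ≠ 0 := by exact_mod_cast hR0.ne'
  set u : ℂ := u0 A z.im * v with hu
  have hu1 : ‖u‖ = 1 := by rw [hu, norm_mul, u0_norm hA0, hv1, mul_one]
  have hune : u ≠ 0 := by rw [← norm_pos_iff, hu1]; exact one_pos
  have hinv : (ww A z)⁻¹ = ((R⁻¹ : ℝ) : ℂ) * conj u := by
    rw [hv3, mul_inv, Complex.ofReal_inv, Complex.inv_def u, Complex.normSq_eq_norm_sq, hu1]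
    simp
  have hTT : (TT A n z).re = 1 - (R ^ n + R⁻¹ ^ n) / 2 * (u ^ n).re := by
    unfold TT
    rw [hinv, hv3, mul_pow (R : ℂ) u, mul_pow ((R⁻¹ : ℝ) : ℂ) (conj u), ← map_pow, ← Complex.ofReal_pow,
      ← Complex.ofReal_pow]
    have e : (2 - ((R ^ n : ℝ) : ℂ) * u ^ n - ((R⁻¹ ^ n : ℝ) : ℂ) * conj (u ^ n)) / 2 =
        (((1 / 2 : ℝ) : ℝ) : ℂ) * (2 - ((R ^ n : ℝ) : ℂ) * u ^ n - ((R⁻¹ ^ n : ℝ) : ℂ) * conj (u ^ n)) := by
      push_cast; ring
    rw [e, Complex.re_ofReal_mul, Complex.sub_re, Complex.sub_re, Complex.re_ofReal_mul, Complex.re_ofReal_mul,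
      Complex.conj_re]
    norm_num
    ring
  have hff : ff A n |z.im| = 1 - (u0 A z.im ^ n).re := by rw [u0_pow_re hA0]; ring
  rw [hTT, hff]
  have hun : ‖u ^ n‖ = 1 := by rw [norm_pow, hu1, one_pow]
  have hure : |(u ^ n).re| ≤ 1 := (Complex.abs_re_le_norm _).trans hun.le
  have hdiff : |(u0 A z.im ^ n).re - (u ^ n).re| ≤ n * (1 / (A ^ 2 + z.im ^ 2)) := by
    rw [← Complex.sub_re]
    refine (Complex.abs_re_le_norm _).trans ?_
    have e : u0 A z.im ^ n - u ^ n = -(u0 A z.im ^ n * (v ^ n - 1)) := by rw [hu, mul_pow]; ring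
    rw [e, norm_neg, norm_mul, norm_pow, u0_norm hA0, one_pow, one_mul]
    refine (pow_sub_one_le hv1 n).trans ?_
    have h4 : 0 ≤ 1 / (A ^ 2 + z.im ^ 2) := by positivity
    exact mul_le_mul_of_nonneg_left (hv2.trans (by linarith)) (Nat.cast_nonneg _)
  have hcosh : |(R ^ n + R⁻¹ ^ n) / 2 - 1| ≤ (n * EE A z) ^ 2 / 2 * Real.exp (n * EE A z) := by
    have hE := EE_nonneg hA z
    have hl1 : Real.log R ≤ (EE A z) := by
      rw [Real.log_le_iff_le_exp hR0]; exact norm_ww_le hA hz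
    have hl2 : -(EE A z) ≤ Real.log R := by
      have h1 := norm_winv_le hA hz
      rw [norm_inv, ← hR] at h1
      have h2 : Real.log R⁻¹ ≤ EE A z := by
        rw [Real.log_le_iff_le_exp (by positivity)]; exact h1
      rw [Real.log_inv] at h2
      linarith
    have e1 : R ^ n = Real.exp (n * Real.log R) := by rw [Real.exp_nat_mul, Real.exp_log hR0]
    have e2 : R⁻¹ ^ n = Real.exp (-(n * Real.log R)) := by rw [Real.exp_neg, ← e1, inv_pow]
    have e3 : (R ^ n + R⁻¹ ^ n) / 2 = Real.cosh (n * Real.log R) := by rw [e1, e2, Real.cosh_eq]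
    rw [e3]
    have h4 : Real.cosh (n * Real.log R) ≤ Real.cosh (n * EE A z) := by
      rw [Real.cosh_le_cosh, abs_mul, abs_mul, abs_of_nonneg hE]
      exact mul_le_mul_of_nonneg_left (abs_le.2 ⟨hl2, hl1⟩) (abs_nonneg _)
    have h5 : 1 ≤ Real.cosh (n * Real.log R) := Real.one_le_cosh _
    rw [abs_of_nonneg (by linarith)]
    exact (sub_le_sub_right h4 1).trans (cosh_sub_one_le (by positivity))
  have e : (1 - (R ^ n + R⁻¹ ^ n) / 2 * (u ^ n).re - (1 - (u0 A z.im ^ n).re)) =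
      ((u0 A z.im ^ n).re - (u ^ n).re) - ((R ^ n + R⁻¹ ^ n) / 2 - 1) * (u ^ n).re := by ring
  rw [e]
  refine (abs_sub _ _).trans ?_
  rw [abs_mul]
  have h6 : |(R ^ n + R⁻¹ ^ n) / 2 - 1| * |(u ^ n).re| ≤ |(R ^ n + R⁻¹ ^ n) / 2 - 1| * 1 :=
    mul_le_mul_of_nonneg_left hure (abs_nonneg _)
  linarith

/-- the basic sum over the zeros -/
theorem sumA : ∃ C : ℝ, 0 < C ∧ ∀ A : ℝ, 1 ≤ A →
    Summable (fun ρ : Zt => (mu ρ : ℝ) * (1 / (A ^ 2 + (ρ : ℂ).im ^ 2))) ∧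
    ∑' ρ : Zt, (mu ρ : ℝ) * (1 / (A ^ 2 + (ρ : ℂ).im ^ 2)) ≤ C * ((1 + Real.log A) / A) := by
  obtain ⟨C, hC, hm⟩ := main_term
  refine ⟨1 + C, by positivity, fun A hA => ?_⟩
  have hA0 : 0 < A := by linarith
  have e : ∀ ρ : Zt, (mu ρ : ℝ) * (1 / (A ^ 2 + (ρ : ℂ).im ^ 2)) =
      1 / (2 * A ^ 2) * ((mu ρ : ℝ) * ff A 1 |(ρ : ℂ).im|) := by
    intro ρ
    have h1 : ff A 1 |(ρ : ℂ).im| = 2 * A ^ 2 / (A ^ 2 + (ρ : ℂ).im ^ 2) := by
      unfold ff th
      rw [show 2 * ((1 : ℕ) : ℝ) * (Real.pi / 2 - Real.arctan (|(ρ : ℂ).im| / A)) =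
        Real.pi - 2 * Real.arctan (|(ρ : ℂ).im| / A) by push_cast; ring, Real.cos_pi_sub,
        Real.cos_two_mul, Real.cos_sq_arctan, div_pow, sq_abs]
      field_simp
      ring
    rw [h1]
    field_simp
  have hs := (line_hasSum hA 1).summable
  refine ⟨?_, ?_⟩
  · rw [summable_congr e]
    exact hs.mul_left _
  · rw [tsum_congr e, tsum_mul_left]
    have h1 := hm A hA 1 le_rfl
    push_cast at h1
    rw [one_mul] at h1
    have h2 := (abs_le.1 h1).2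
    have hl : 0 ≤ Real.log A := Real.log_nonneg hA
    calc 1 / (2 * A ^ 2) * ∑' ρ : Zt, (mu ρ : ℝ) * ff A 1 |(ρ : ℂ).im| ≤
          1 / (2 * A ^ 2) * (A * Real.log A + C * A) := by
            apply mul_le_mul_of_nonneg_left _ (by positivity); linarith
      _ = (Real.log A + C) / (2 * A) := by field_simp
      _ ≤ (1 + C) * ((1 + Real.log A) / A) := by
        rw [mul_div_assoc', div_le_div_iff₀ (by positivity) hA0]
        have : 0 ≤ C * Real.log A := by positivity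
        nlinarith

end Pool.Agent.Q260.LF
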