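import Mathlib

/-! # The map `z ↦ (z + A) / (z - A)` -/

set_option autoImplicit false

open Complex Filter Topology Set
open scoped ComplexConjugate

namespace Pool.Agent.Q260.LF

/-- the Moebius map -/
noncomputable def ww (A : ℝ) (z : ℂ) : ℂ := (z + A) / (z - A)

/-- the terms -/
noncomputable def TT (A : ℝ) (n : ℕ) (z : ℂ) : ℂ := (2 - ww A z ^ n - (ww A z)⁻¹ ^ n) / 2

lemma sub_ne {A : ℝ} {z : ℂ} (hA : 1 ≤ A) (hz : |z.re| ≤ 1 / 2) : z - A ≠ 0 := by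
  intro h
  have h1 := congrArg Complex.re h
  simp only [sub_re, ofReal_re, zero_re] at h1
  have := abs_le.1 hz
  linarith

lemma add_ne {A : ℝ} {z : ℂ} (hA : 1 ≤ A) (hz : |z.re| ≤ 1 / 2) : z + A ≠ 0 := by
  intro h
  have h1 := congrArg Complex.re h
  simp only [add_re, ofReal_re, zero_re] at h1
  have := abs_le.1 hz
  linarith

lemma ww_ne {A : ℝ} {z : ℂ} (hA : 1 ≤ A) (hz : |z.re| ≤ 1 / 2) : ww A z ≠ 0 :=
  div_ne_zero (add_ne hA hz) (sub_ne hA hz)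

lemma ww_neg (A : ℝ) (z : ℂ) : ww A (-z) = (ww A z)⁻¹ := by
  unfold ww
  rw [inv_div, show -z + (A : ℂ) = -(z - A) by ring, show -z - (A : ℂ) = -(z + A) by ring, neg_div_neg_eq]

lemma TT_neg (A : ℝ) (n : ℕ) (z : ℂ) : TT A n (-z) = TT A n z := by
  unfold TT
  rw [ww_neg, inv_inv]
  ring

lemma ww_conj (A : ℝ) (z : ℂ) : ww A (conj z) = conj (ww A z) := by
  unfold ww
  rw [map_div₀, map_add, map_sub, Complex.conj_ofReal]

lemma TT_conj (A : ℝ) (n : ℕ) (z : ℂ) : TT A n (conj z) = conj (TT A n z) := by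
  unfold TT
  rw [ww_conj]
  simp only [map_div₀, map_sub, map_pow, map_inv₀, map_ofNat]

lemma normSq_sub {A : ℝ} (z : ℂ) : ‖z - A‖ ^ 2 = (A - z.re) ^ 2 + z.im ^ 2 := by
  rw [← Complex.normSq_eq_norm_sq, Complex.normSq_apply]
  simp only [sub_re, sub_im, ofReal_re, ofReal_im]
  ring

lemma normSq_add {A : ℝ} (z : ℂ) : ‖z + A‖ ^ 2 = (A + z.re) ^ 2 + z.im ^ 2 := by
  rw [← Complex.normSq_eq_norm_sq, Complex.normSq_apply]
  simp only [add_re, add_im, ofReal_re, ofReal_im]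
  ring

/-- the exponent of growth -/
noncomputable def EE (A : ℝ) (z : ℂ) : ℝ := 2 * |z.re| * A / ((A - 1 / 2) ^ 2 + z.im ^ 2)

lemma EE_nonneg {A : ℝ} (hA : 1 ≤ A) (z : ℂ) : 0 ≤ EE A z := by unfold EE; positivity

lemma EE_neg (A : ℝ) (z : ℂ) : EE A (-z) = EE A z := by unfold EE; simp

lemma norm_ww_le {A : ℝ} {z : ℂ} (hA : 1 ≤ A) (hz : |z.re| ≤ 1 / 2) : ‖ww A z‖ ≤ Real.exp (EE A z) := by
  have hzz := abs_le.1 hz
  have hs : 0 < ‖z - A‖ := norm_pos_iff.2 (sub_ne hA hz)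
  have h1 : ‖ww A z‖ ^ 2 ≤ Real.exp (EE A z) ^ 2 := by
    rw [← Real.exp_nat_mul]
    refine le_trans ?_ (Real.add_one_le_exp _)
    unfold ww
    rw [norm_div, div_pow, div_le_iff₀ (by positivity), normSq_add, normSq_sub]
    have hp : 0 < (A - 1 / 2) ^ 2 + z.im ^ 2 := by
      have : 0 < (A - 1 / 2) ^ 2 := by
        have : 0 < A - 1 / 2 := by linarith
        positivity
      positivity
    have h2 : (A - 1 / 2) ^ 2 + z.im ^ 2 ≤ (A - z.re) ^ 2 + z.im ^ 2 := by nlinarith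
    have h3 : 4 * z.re * A ≤ 4 * |z.re| * A := by
      have := le_abs_self z.re
      nlinarith
    have h4 : 4 * |z.re| * A ≤ ((2 : ℕ) * EE A z) * ((A - z.re) ^ 2 + z.im ^ 2) := by
      unfold EE
      push_cast
      rw [mul_div_assoc', div_mul_eq_mul_div, le_div_iff₀ hp]
      have h5 : 0 ≤ |z.re| * A := by positivity
      nlinarith
    nlinarith
  exact (pow_le_pow_iff_left₀ (norm_nonneg _) (Real.exp_pos _).le two_ne_zero).1 h1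

lemma norm_winv_le {A : ℝ} {z : ℂ} (hA : 1 ≤ A) (hz : |z.re| ≤ 1 / 2) : ‖(ww A z)⁻¹‖ ≤ Real.exp (EE A z) := by
  rw [← ww_neg, ← EE_neg]
  exact norm_ww_le hA (by simpa using hz)

lemma ww_sub_one {A : ℝ} {z : ℂ} (hA : 1 ≤ A) (hz : |z.re| ≤ 1 / 2) : ww A z - 1 = 2 * A / (z - A) := by
  have := sub_ne hA hz
  unfold ww
  field_simp
  ring

lemma norm_ww_sub_one_sq {A : ℝ} {z : ℂ} (hA : 1 ≤ A) (hz : |z.re| ≤ 1 / 2) :
    ‖ww A z - 1‖ ^ 2 ≤ 4 * A ^ 2 / ((A - 1 / 2) ^ 2 + z.im ^ 2) := by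
  have hzz := abs_le.1 hz
  rw [ww_sub_one hA hz, norm_div, div_pow, normSq_sub]
  have e : ‖(2 * A : ℂ)‖ ^ 2 = 4 * A ^ 2 := by
    rw [norm_mul, Complex.norm_ofNat, Complex.norm_real, Real.norm_eq_abs, mul_pow, sq_abs]; norm_num
  rw [e]
  have hp : 0 < (A - 1 / 2) ^ 2 + z.im ^ 2 := by
    have : 0 < (A - 1 / 2) ^ 2 := by
      have : 0 < A - 1 / 2 := by linarith
      positivity
    positivity
  exact div_le_div_of_nonneg_left (by positivity) hp (by nlinarith)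

/-- general bound for the second difference -/
lemma pair_bd {w : ℂ} (hw : w ≠ 0) {R : ℝ} (h1 : ‖w‖ ≤ R) (h2 : ‖w⁻¹‖ ≤ R) (hR : 1 ≤ R) (n : ℕ) :
    ‖2 - w ^ n - w⁻¹ ^ n‖ ≤ n ^ 2 * ‖w - 1‖ ^ 2 * R ^ (3 * n) := by
  have e : 2 - w ^ n - w⁻¹ ^ n = -((w ^ n - 1) ^ 2 * w⁻¹ ^ n) := by
    have : w ^ n * w⁻¹ ^ n = 1 := by rw [← mul_pow, mul_inv_cancel₀ hw, one_pow]
    linear_combination (w ^ n - 2) * this
  have e2 : w ^ n - 1 = (w - 1) * ∑ i ∈ Finset.range n, w ^ i := by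
    rw [mul_comm, geom_sum_mul]
  have h3 : ‖∑ i ∈ Finset.range n, w ^ i‖ ≤ n * R ^ n := by
    refine (norm_sum_le _ _).trans ?_
    calc ∑ i ∈ Finset.range n, ‖w ^ i‖ ≤ ∑ _i ∈ Finset.range n, R ^ n := by
          refine Finset.sum_le_sum fun i hi => ?_
          rw [norm_pow]
          have := Finset.mem_range.1 hi
          exact (pow_le_pow_left₀ (norm_nonneg _) h1 i).trans (pow_le_pow_right₀ hR this.le)
      _ = n * R ^ n := by simp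
  have h4 : ‖w ^ n - 1‖ ≤ ‖w - 1‖ * (n * R ^ n) := by
    rw [e2, norm_mul]
    exact mul_le_mul_of_nonneg_left h3 (norm_nonneg _)
  rw [e, norm_neg, norm_mul, norm_pow, norm_pow]
  have h5 : ‖w ^ n - 1‖ ^ 2 ≤ (‖w - 1‖ * (n * R ^ n)) ^ 2 := pow_le_pow_left₀ (norm_nonneg _) h4 2
  have h6 : ‖w⁻¹‖ ^ n ≤ R ^ n := pow_le_pow_left₀ (norm_nonneg _) h2 n
  calc ‖w ^ n - 1‖ ^ 2 * ‖w⁻¹‖ ^ n ≤ (‖w - 1‖ * (n * R ^ n)) ^ 2 * R ^ n :=
        mul_le_mul h5 h6 (by positivity) (by positivity)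
    _ = _ := by ring

/-- the bound for the terms -/
lemma norm_TT_le {A : ℝ} {z : ℂ} (hA : 1 ≤ A) (hz : |z.re| ≤ 1 / 2) (n : ℕ) :
    ‖TT A n z‖ ≤ 2 * n ^ 2 * A ^ 2 / ((A - 1 / 2) ^ 2 + z.im ^ 2) * Real.exp (3 * n * EE A z) := by
  have hE := EE_nonneg hA z
  have h1 := pair_bd (ww_ne hA hz) (norm_ww_le hA hz) (norm_winv_le hA hz) (Real.one_le_exp hE) n
  have h2 := norm_ww_sub_one_sq hA hz
  unfold TT
  rw [norm_div, Complex.norm_ofNat]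
  rw [← Real.exp_nat_mul] at h1
  push_cast at h1
  have h3 : (n : ℝ) ^ 2 * ‖ww A z - 1‖ ^ 2 * Real.exp (3 * n * EE A z) ≤
      (n : ℝ) ^ 2 * (4 * A ^ 2 / ((A - 1 / 2) ^ 2 + z.im ^ 2)) * Real.exp (3 * n * EE A z) := by
    gcongr
  have h4 : (n : ℝ) ^ 2 * (4 * A ^ 2 / ((A - 1 / 2) ^ 2 + z.im ^ 2)) * Real.exp (3 * n * EE A z) =
      2 * (2 * n ^ 2 * A ^ 2 / ((A - 1 / 2) ^ 2 + z.im ^ 2) * Real.exp (3 * n * EE A z)) := by ring
  linarith [h1.trans h3]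

end Pool.Agent.Q260.LF
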