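import Pool.Agent.Q260.LF.PF
import Pool.Agent.Q260.LF.W

/-! # The Li coefficients seen from the distance `A` as sums over the zeros -/

set_option autoImplicit false
set_option maxHeartbeats 1000000

open Complex Filter Topology Set MeasureTheory
open scoped ComplexConjugate
open Pool.Agent.H24R2.JP (XX)
open Pool.Agent.Y23 (Zt mu ZZ XX_diff XX_an zsummable half_re)

namespace Pool.Agent.Q260.LF

/-- Riemann's function `ξ(s) = s (s - 1) / 2 * π^(-s/2) Γ(s/2) ζ(s)` -/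
noncomputable def xi (s : ℂ) : ℂ := (1 + s * (s - 1) * completedRiemannZeta₀ s) / 2

/-- the Li coefficients -/
noncomputable def li (A : ℝ) (n : ℕ) : ℝ :=
  (iteratedDeriv n (fun u : ℂ => Complex.log (xi (1 / 2 + A * (1 + u) / (1 - u)))) 0).re /
    ((n - 1).factorial : ℝ)

lemma xi_XX (z : ℂ) : xi (1 / 2 + z) = XX z / 8 := by
  unfold xi XX; ring

lemma XX_real (x : ℝ) : (XX x).im = 0 := by
  have h := Pool.Agent.H24R2.JP.B1h.XX_conj (x : ℂ)
  rw [Complex.conj_ofReal] at h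
  exact Complex.conj_eq_iff_im.1 h.symm

lemma XX_pos {x : ℝ} (hx : 1 / 2 ≤ x) : 0 < (XX x).re := by
  by_contra hneg
  push Not at hneg
  have hc : ContinuousOn (fun t : ℝ => (XX t).re) (Icc (1 / 2) x) :=
    (Complex.continuous_re.comp (XX_diff.continuous.comp Complex.continuous_ofReal)).continuousOn
  have h0 : (XX ((1 / 2 : ℝ) : ℂ)).re = 4 := by
    have e : (((1 / 2 : ℝ) : ℂ)) = 1 / 2 := by push_cast; ring
    rw [e, Pool.Agent.H24R2.JP.Zer.XX_half]; norm_num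
  have h1 := intermediate_value_Icc' hx hc
  have h2 : (0 : ℝ) ∈ Icc ((XX x).re) ((XX ((1 / 2 : ℝ) : ℂ)).re) := ⟨hneg, by rw [h0]; norm_num⟩
  obtain ⟨t, ht, ht0⟩ := h1 h2
  have h3 : XX t = 0 := Complex.ext ht0 (XX_real t)
  rcases eq_or_lt_of_le ht.1 with h | h
  · rw [← h] at ht0
    have ht0' : (XX ((1 / 2 : ℝ) : ℂ)).re = 0 := ht0
    rw [h0] at ht0'
    norm_num at ht0'
  · exact XX_ne_right (w := (t : ℂ)) (by simpa using h) h3

/-- the path -/
noncomputable def ph (A : ℝ) (u : ℂ) : ℂ := A * (1 + u) / (1 - u)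

lemma ph_deriv (A : ℝ) {u : ℂ} (hu : u ≠ 1) : HasDerivAt (ph A) (2 * A / (1 - u) ^ 2) u := by
  have h0 : (1 - u : ℂ) ≠ 0 := sub_ne_zero.2 (Ne.symm hu)
  have h1 : HasDerivAt (fun u : ℂ => (A : ℂ) * (1 + u)) (A * 1) u :=
    ((hasDerivAt_id u).const_add 1).const_mul (A : ℂ)
  have h2 : HasDerivAt (fun u : ℂ => 1 - u) (-1) u := (hasDerivAt_id u).const_sub 1
  have h3 := h1.div h2 h0
  refine h3.congr_deriv ?_
  field_simp
  ring

lemma ph_re {A : ℝ} (hA : 3 / 2 ≤ A) {u : ℂ} (hu : ‖u‖ < 1 / 1000) : 1 < (ph A u).re := by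
  have hu1 : u ≠ 1 := by
    rintro rfl
    rw [norm_one] at hu
    norm_num at hu
  have h0 : (1 - u : ℂ) ≠ 0 := sub_ne_zero.2 (Ne.symm hu1)
  have e : ph A u = A + 2 * A * u / (1 - u) := by
    unfold ph
    field_simp
    ring
  have h1 : ‖2 * A * u / (1 - u)‖ ≤ A / 100 := by
    rw [norm_div, norm_mul, norm_mul, Complex.norm_ofNat, Complex.norm_real, Real.norm_eq_abs,
      abs_of_pos (by linarith)]
    have h2 : 1 / 2 ≤ ‖1 - u‖ := by
      have := norm_sub_norm_le (1 : ℂ) u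
      rw [norm_one] at this
      linarith
    rw [div_le_iff₀ (by linarith)]
    nlinarith [norm_nonneg u]
  rw [e, add_re, ofReal_re]
  have h3 := (abs_le.1 (Complex.abs_re_le_norm (2 * A * u / (1 - u)))).1
  linarith

lemma alg_id {p q u : ℂ} (h1 : 1 - u ≠ 0) (h2 : q - u * p ≠ 0) (h3 : p - u * q ≠ 0) :
    ((p - q) / 2 * (1 + u) / (1 - u)) /
      (((p - q) / 2 * (1 + u) / (1 - u)) ^ 2 - ((p + q) / 2) ^ 2) * ((p - q) / (1 - u) ^ 2) =
      (2 * (1 - u)⁻¹ - p / (q - u * p) - q / (p - u * q)) / 2 := by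
  have e : ((p - q) / 2 * (1 + u) / (1 - u)) ^ 2 - ((p + q) / 2) ^ 2 =
      -((q - u * p) * (p - u * q)) / (1 - u) ^ 2 := by
    field_simp
    ring
  rw [e]
  obtain ⟨D1, hD1⟩ : ∃ D1 : ℂ, D1 = q - u * p := ⟨_, rfl⟩
  obtain ⟨D2, hD2⟩ : ∃ D2 : ℂ, D2 = p - u * q := ⟨_, rfl⟩
  rw [← hD1, ← hD2]
  rw [← hD1] at h2
  rw [← hD2] at h3
  have e1 : (p - q) / 2 * (1 + u) / (1 - u) / (-(D1 * D2) / (1 - u) ^ 2) * ((p - q) / (1 - u) ^ 2) =
      -((p - q) ^ 2 * (1 + u)) / (2 * (1 - u) * D1 * D2) := by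
    field_simp
  have e2 : (2 * (1 - u)⁻¹ - p / D1 - q / D2) / 2 =
      (2 * D1 * D2 - (1 - u) * (p * D2 + q * D1)) / (2 * (1 - u) * D1 * D2) := by
    field_simp
    ring
  rw [e1, e2]
  congr 1
  rw [hD1, hD2]
  ring

lemma EE_le {A : ℝ} {z : ℂ} (hA : 3 / 2 ≤ A) (hz : |z.re| ≤ 1 / 2) : EE A z ≤ 3 / 2 := by
  unfold EE
  have h1 : 0 < (A - 1 / 2) ^ 2 := by
    have : 0 < A - 1 / 2 := by linarith
    positivity
  rw [div_le_iff₀ (by positivity)]
  nlinarith [sq_nonneg z.im, abs_nonneg z.re]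

lemma exp_bd (n : ℕ) : Real.exp (3 * n * (3 / 2)) ≤ 243 ^ n := by
  have h1 : Real.exp 5 ≤ 243 := by
    have h2 : Real.exp 1 ≤ 3 := by linarith [Real.exp_one_lt_d9]
    have h3 : Real.exp 5 = Real.exp 1 ^ 5 := by rw [← Real.exp_nat_mul]; norm_num
    rw [h3]
    calc Real.exp 1 ^ 5 ≤ 3 ^ 5 := pow_le_pow_left₀ (Real.exp_pos _).le h2 5
      _ = 243 := by norm_num
  calc Real.exp (3 * n * (3 / 2)) ≤ Real.exp (n * 5) := by
        apply Real.exp_le_exp.2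
        have : (0 : ℝ) ≤ n := Nat.cast_nonneg n
        linarith
    _ = Real.exp 5 ^ n := by rw [Real.exp_nat_mul]
    _ ≤ 243 ^ n := pow_le_pow_left₀ (Real.exp_pos _).le h1 n

lemma TT_crude {A : ℝ} {z : ℂ} (hA : 3 / 2 ≤ A) (hz : |z.re| ≤ 1 / 2) (n : ℕ) :
    ‖TT A n z‖ ≤ (1 / (1 + (z.im - 0) ^ 2)) * (2 * A ^ 2 * (n ^ 2 * 243 ^ n)) := by
  have h1 := norm_TT_le (by linarith : (1 : ℝ) ≤ A) hz n
  have h2 := EE_le hA hz
  have h3 : Real.exp (3 * n * EE A z) ≤ 243 ^ n := by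
    refine le_trans (Real.exp_le_exp.2 ?_) (exp_bd n)
    exact mul_le_mul_of_nonneg_left h2 (by positivity)
  have h4 : 2 * (n : ℝ) ^ 2 * A ^ 2 / ((A - 1 / 2) ^ 2 + z.im ^ 2) ≤ 2 * n ^ 2 * A ^ 2 / (1 + z.im ^ 2) := by
    apply div_le_div_of_nonneg_left (by positivity) (by positivity)
    nlinarith
  rw [sub_zero]
  calc ‖TT A n z‖ ≤ 2 * (n : ℝ) ^ 2 * A ^ 2 / (1 + z.im ^ 2) * 243 ^ n :=
        h1.trans (mul_le_mul h4 h3 (Real.exp_pos _).le (by positivity))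
    _ = _ := by ring

lemma norm_ww_243 {A : ℝ} {z : ℂ} (hA : 3 / 2 ≤ A) (hz : |z.re| ≤ 1 / 2) : ‖ww A z‖ ≤ 243 ∧ ‖(ww A z)⁻¹‖ ≤ 243 := by
  have h1 := norm_ww_le (by linarith : (1 : ℝ) ≤ A) hz
  have h1' := norm_winv_le (by linarith : (1 : ℝ) ≤ A) hz
  have h2 := EE_le hA hz
  have h3 := exp_bd 1
  have h4 : Real.exp (EE A z) ≤ 243 := by
    refine le_trans (Real.exp_le_exp.2 ?_) (by simpa using h3)
    linarith
  exact ⟨h1.trans h4, h1'.trans h4⟩

/-- the expansion of one term -/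
lemma term_hasSum {A : ℝ} {z : ℂ} (hA : 3 / 2 ≤ A) (hz : |z.re| ≤ 1 / 2) {u : ℂ} (hu : ‖u‖ < 1 / 1000) :
    HasSum (fun n : ℕ => TT A (n + 1) z * u ^ n) (hk (ph A u) z * (2 * A / (1 - u) ^ 2)) := by
  have hA1 : (1 : ℝ) ≤ A := by linarith
  obtain ⟨n1, n2⟩ := norm_ww_243 hA hz
  have hw := ww_ne hA1 hz
  set w := ww A z with hwdef
  have hp := add_ne hA1 hz
  have hq := sub_ne hA1 hz
  have b0 : ‖u‖ < 1 := by linarith
  have b1 : ‖w * u‖ < 1 := by
    rw [norm_mul]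
    nlinarith [norm_nonneg u, norm_nonneg w]
  have b2 : ‖w⁻¹ * u‖ < 1 := by
    rw [norm_mul]
    nlinarith [norm_nonneg u, norm_nonneg w⁻¹]
  have s0 := (hasSum_geometric_of_norm_lt_one b0).mul_left 2
  have s1 := (hasSum_geometric_of_norm_lt_one b1).mul_left w
  have s2 := (hasSum_geometric_of_norm_lt_one b2).mul_left w⁻¹
  have s3 := ((s0.sub s1).sub s2).div_const 2
  have hu1 : (1 - u : ℂ) ≠ 0 := by
    intro h
    have : u = 1 := by linear_combination -h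
    rw [this, norm_one] at b0
    exact lt_irrefl _ b0
  have hne : ∀ x : ℂ, ‖x‖ < 1 → 1 - x ≠ 0 := by
    intro x hx h
    have : x = 1 := by linear_combination -h
    rw [this, norm_one] at hx
    exact lt_irrefl _ hx
  have ew : w = (z + A) / (z - A) := hwdef
  have ewi : w⁻¹ = (z - A) / (z + A) := by rw [ew, inv_div]
  have h2 : (z - A) - u * (z + A) ≠ 0 := by
    have e : (z - A) - u * (z + A) = (z - A) * (1 - w * u) := by rw [ew]; field_simp
    rw [e]; exact mul_ne_zero hq (hne _ b1)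
  have h3 : (z + A) - u * (z - A) ≠ 0 := by
    have e : (z + A) - u * (z - A) = (z + A) * (1 - w⁻¹ * u) := by rw [ewi]; field_simp
    rw [e]; exact mul_ne_zero hp (hne _ b2)
  have key := alg_id (p := z + A) (q := z - A) hu1 h2 h3
  have e1 : (2 * (1 - u)⁻¹ - w * (1 - w * u)⁻¹ - w⁻¹ * (1 - w⁻¹ * u)⁻¹) / 2 =
      hk (ph A u) z * (2 * A / (1 - u) ^ 2) := by
    have a1 : w * (1 - w * u)⁻¹ = (z + A) / ((z - A) - u * (z + A)) := by
      have e : (z - A) - u * (z + A) = (z - A) * (1 - w * u) := by rw [ew]; field_simp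
      rw [e, ew, div_mul_eq_div_div, div_eq_mul_inv _ (1 - _)]
    have a2 : w⁻¹ * (1 - w⁻¹ * u)⁻¹ = (z - A) / ((z + A) - u * (z - A)) := by
      have e : (z + A) - u * (z - A) = (z + A) * (1 - w⁻¹ * u) := by rw [ewi]; field_simp
      rw [e, ewi, div_mul_eq_div_div, div_eq_mul_inv _ (1 - _)]
    rw [a1, a2, ← key]
    unfold hk ph
    have a3 : ((z + A) - (z - A)) / 2 = (A : ℂ) := by ring
    have a4 : ((z + A) + (z - A)) / 2 = z := by ring
    have a5 : (z + A) - (z - A) = 2 * (A : ℂ) := by ring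
    rw [a3, a4, a5]
  rw [e1] at s3
  have e2 : (fun n : ℕ => TT A (n + 1) z * u ^ n) =
      fun i : ℕ => (2 * u ^ i - w * (w * u) ^ i - w⁻¹ * (w⁻¹ * u) ^ i) / 2 := by
    funext n
    unfold TT
    rw [← hwdef, mul_pow, mul_pow]
    ring
  rw [e2]
  exact s3

lemma sum_bd : Summable (fun n : ℕ => ((n + 1 : ℕ) : ℝ) ^ 2 * 243 ^ (n + 1) * (1 / 1000) ^ n) := by
  have h1 : Summable (fun n : ℕ => (n : ℝ) ^ 2 * (243 / 1000 : ℝ) ^ n) :=
    summable_pow_mul_geometric_of_norm_lt_one 2 (by rw [Real.norm_eq_abs, abs_of_pos] <;> norm_num)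
  have h2 := ((summable_nat_add_iff 1).2 h1).mul_left 1000
  refine h2.congr fun n => ?_
  have : (243 / 1000 : ℝ) ^ (n + 1) = 243 ^ (n + 1) * (1 / 1000) ^ n / 1000 := by
    rw [div_pow, pow_succ (1000 : ℝ), one_div, inv_pow]
    field_simp
  rw [this]
  ring

/-- the family of all terms -/
noncomputable def fam (A : ℝ) (u : ℂ) (x : Zt × ℕ) : ℂ :=
  (mu x.1 : ℂ) * (TT A (x.2 + 1) ((x.1 : ℂ) - 1 / 2) * u ^ x.2)

lemma fam_summable {A : ℝ} (hA : 3 / 2 ≤ A) {u : ℂ} (hu : ‖u‖ < 1 / 1000) : Summable (fam A u) := by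
  have h1 := (zsummable 0).mul_left (2 * A ^ 2)
  have h2 := h1.mul_of_nonneg sum_bd (fun ρ => by positivity) (fun n => by positivity)
  refine Summable.of_norm_bounded h2 fun x => ?_
  obtain ⟨ρ, n⟩ := x
  unfold fam
  simp only
  rw [norm_mul, norm_mul, norm_pow, Complex.norm_natCast]
  have h3 := TT_crude hA (half_re ρ) (n + 1)
  have h4 : ((ρ : ℂ) - 1 / 2).im = (ρ : ℂ).im := by simp
  rw [h4] at h3
  have h5 : ‖u‖ ^ n ≤ (1 / 1000) ^ n := pow_le_pow_left₀ (norm_nonneg _) hu.le n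
  calc (mu ρ : ℝ) * (‖TT A (n + 1) ((ρ : ℂ) - 1 / 2)‖ * ‖u‖ ^ n) ≤
        (mu ρ : ℝ) * ((1 / (1 + ((ρ : ℂ).im - 0) ^ 2) * (2 * A ^ 2 * (((n + 1 : ℕ) : ℝ) ^ 2 * 243 ^ (n + 1)))) *
          (1 / 1000) ^ n) := by
        refine mul_le_mul_of_nonneg_left ?_ (Nat.cast_nonneg _)
        exact mul_le_mul h3 h5 (by positivity) (by positivity)
    _ = _ := by ring

lemma TT_summable {A : ℝ} (hA : 3 / 2 ≤ A) (n : ℕ) :
    Summable (fun ρ : Zt => (mu ρ : ℂ) * TT A n ((ρ : ℂ) - 1 / 2)) := by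
  have h1 := (zsummable 0).mul_left (2 * A ^ 2 * ((n : ℝ) ^ 2 * 243 ^ n))
  refine Summable.of_norm_bounded h1 fun ρ => ?_
  rw [norm_mul, Complex.norm_natCast]
  have h3 := TT_crude hA (half_re ρ) n
  have h4 : ((ρ : ℂ) - 1 / 2).im = (ρ : ℂ).im := by simp
  rw [h4] at h3
  calc (mu ρ : ℝ) * ‖TT A n ((ρ : ℂ) - 1 / 2)‖ ≤
        (mu ρ : ℝ) * ((1 / (1 + ((ρ : ℂ).im - 0) ^ 2) * (2 * A ^ 2 * ((n : ℝ) ^ 2 * 243 ^ n)))) :=
        mul_le_mul_of_nonneg_left h3 (Nat.cast_nonneg _)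
    _ = _ := by ring

/-- the coefficients -/
noncomputable def cf (A : ℝ) (n : ℕ) : ℂ := ∑' ρ : Zt, (mu ρ : ℂ) * TT A n ((ρ : ℂ) - 1 / 2)

/-- the power series of the logarithmic derivative -/
lemma logD_hasSum {A : ℝ} (hA : 3 / 2 ≤ A) {u : ℂ} (hu : ‖u‖ < 1 / 1000) :
    HasSum (fun n : ℕ => cf A (n + 1) * u ^ n) (ZZ (ph A u) * (2 * A / (1 - u) ^ 2)) := by
  have hs := fam_summable hA hu
  have h1 : ∀ ρ : Zt, HasSum (fun n : ℕ => fam A u (ρ, n))
      ((mu ρ : ℂ) * (hk (ph A u) ((ρ : ℂ) - 1 / 2) * (2 * A / (1 - u) ^ 2))) := fun ρ =>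
    (term_hasSum hA (half_re ρ) hu).mul_left _
  have h2 := hs.hasSum.prod_fiberwise h1
  have h3 : ZZ (ph A u) * (2 * A / (1 - u) ^ 2) = ∑' x, fam A u x := by
    rw [pf (ph_re hA hu), ← tsum_mul_right, ← h2.tsum_eq]
    refine tsum_congr fun ρ => ?_
    ring
  rw [h3]
  have h4 : HasSum (fun x : ℕ × Zt => fam A u (x.2, x.1)) (∑' x, fam A u x) := by
    have := (Equiv.prodComm ℕ Zt).hasSum_iff (f := fam A u) (a := ∑' x, fam A u x)
    exact this.2 hs.hasSum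
  refine h4.prod_fiberwise fun n => ?_
  unfold cf
  rw [← tsum_mul_right]
  have h5 : (fun ρ : Zt => fam A u (ρ, n)) = fun ρ : Zt =>
      (mu ρ : ℂ) * TT A (n + 1) ((ρ : ℂ) - 1 / 2) * u ^ n := by
    funext ρ
    unfold fam
    ring
  show HasSum (fun ρ : Zt => fam A u (ρ, n)) _
  rw [h5]
  exact ((TT_summable hA (n + 1)).mul_right (u ^ n)).hasSum

/-- derivatives at zero from a power series -/
lemma iter_of_hasSum {G : ℂ → ℂ} {a : ℕ → ℂ} {r : ℝ} (hr : 0 < r)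
    (h : ∀ u : ℂ, ‖u‖ < r → HasSum (fun n : ℕ => a n * u ^ n) (G u)) (n : ℕ) :
    iteratedDeriv n G 0 = n.factorial * a n := by
  have h1 : HasFPowerSeriesAt G (FormalMultilinearSeries.ofScalars ℂ a) 0 := by
    rw [hasFPowerSeriesAt_iff]
    filter_upwards [Metric.ball_mem_nhds (0 : ℂ) hr] with u hu
    rw [zero_add]
    have hu' : ‖u‖ < r := by simpa using hu
    have e : (fun n : ℕ => u ^ n • (FormalMultilinearSeries.ofScalars ℂ a).coeff n) = fun n => a n * u ^ n := by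
      funext n
      rw [FormalMultilinearSeries.coeff_ofScalars, smul_eq_mul, mul_comm]
    rw [e]
    exact h u hu'
  have h2 := h1.analyticAt.hasFPowerSeriesAt
  have h3 := h2.eq_formalMultilinearSeries h1
  have h4 := congrArg (fun p => FormalMultilinearSeries.coeff p n) h3
  simp only [FormalMultilinearSeries.coeff_ofScalars] at h4
  rw [← h4, mul_div_cancel₀]
  exact_mod_cast n.factorial_ne_zero

/-- the Li coefficients as sums over the zeros -/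
theorem li_succ {A : ℝ} (hA : 3 / 2 ≤ A) (n : ℕ) : li A (n + 1) = (cf A (n + 1)).re := by
  have hev : ∀ᶠ u : ℂ in 𝓝 0, XX (ph A u) / 8 ∈ slitPlane := by
    have hc : ContinuousAt (fun u : ℂ => XX (ph A u) / 8) 0 := by
      have h1 := (ph_deriv A (u := 0) (by norm_num)).continuousAt
      exact (XX_diff.continuous.continuousAt.comp h1).div_const 8
    refine hc.preimage_mem_nhds (isOpen_slitPlane.mem_nhds ?_)
    left
    have e : ph A 0 = (A : ℂ) := by unfold ph; simp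
    have h2 := XX_pos (x := A) (by linarith)
    rw [e]
    have e8 : (XX (A : ℂ) / 8).re = (XX (A : ℂ)).re / 8 := by simp
    rw [e8]
    positivity
  have hev2 : ∀ᶠ u : ℂ in 𝓝 0, ‖u‖ < 1 / 1000 := by
    filter_upwards [Metric.ball_mem_nhds (0 : ℂ) (by norm_num : (0 : ℝ) < 1 / 1000)] with u hu
    simpa using hu
  have hD : deriv (fun u : ℂ => Complex.log (xi (1 / 2 + A * (1 + u) / (1 - u)))) =ᶠ[𝓝 0]
      fun u => ZZ (ph A u) * (2 * A / (1 - u) ^ 2) := by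
    filter_upwards [hev, hev2] with u h1 h2
    have hu1 : u ≠ 1 := by
      rintro rfl
      rw [norm_one] at h2
      norm_num at h2
    have e0 : (fun u : ℂ => Complex.log (xi (1 / 2 + A * (1 + u) / (1 - u)))) =
        fun u : ℂ => Complex.log (XX (ph A u) / 8) := by
      funext v
      have : (1 / 2 + A * (1 + v) / (1 - v) : ℂ) = 1 / 2 + ph A v := rfl
      rw [this, xi_XX]
    rw [e0]
    have h3 := (((XX_diff (ph A u)).hasDerivAt.comp u (ph_deriv A hu1)).div_const 8).clog h1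
    have h5 : deriv (fun u : ℂ => Complex.log (XX (ph A u) / 8)) u =
        deriv XX (ph A u) * (2 * A / (1 - u) ^ 2) / 8 / (XX (ph A u) / 8) := h3.deriv
    rw [h5]
    have h4 : XX (ph A u) ≠ 0 := XX_ne_right (by linarith [ph_re hA h2])
    show _ = deriv XX (ph A u) / XX (ph A u) * _
    field_simp
  unfold li
  rw [iteratedDeriv_succ', hD.iteratedDeriv_eq n,
    iter_of_hasSum (by norm_num : (0 : ℝ) < 1 / 1000) (fun u hu => logD_hasSum hA hu) n]
  have e1 : ((n.factorial : ℂ) * cf A (n + 1)).re = n.factorial * (cf A (n + 1)).re := by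
    rw [Complex.mul_re, Complex.natCast_re, Complex.natCast_im]
    ring
  rw [e1, Nat.add_sub_cancel, mul_div_cancel_left₀]
  exact_mod_cast n.factorial_ne_zero

theorem li_eq {A : ℝ} (hA : 3 / 2 ≤ A) {n : ℕ} (hn : 1 ≤ n) : li A n = (cf A n).re := by
  obtain ⟨m, rfl⟩ : ∃ m, n = m + 1 := ⟨n - 1, by omega⟩
  exact li_succ hA m

end Pool.Agent.Q260.LF
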