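import Pool.Agent.Q260.LF.B6

/-! # Lower bounds for the coefficients from zero-free half-planes -/

set_option autoImplicit false
set_option maxHeartbeats 1000000

open Filter Topology
open scoped ComplexConjugate
open Pool.Agent.Y23 (Zt mu half_re isZ_refl IsZ finite_low)

namespace Pool.Agent.Q260.LF

/-- the pointwise bound of the error -/
lemma err_pt2 {h A : ℝ} (hA : 2 ≤ A) {n : ℕ} (hn : (n : ℝ) ≤ A ^ 2) {z : ℂ}
    (hz : |z.re| ≤ 1 / 2) (hh : |z.re| ≤ h) :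
    (n * EE A z) ^ 2 / 2 * Real.exp (n * EE A z) ≤
      2 * n ^ 2 * Real.exp 2 * Real.exp (2 * h * n / A) * (1 / (A ^ 2 + z.im ^ 2)) := by
  have hA0 : 0 < A := by linarith
  have hE0 := EE_nonneg (by linarith : 1 ≤ A) z
  have hE := EE_le2 hA (z := z)
  set D : ℝ := A ^ 2 + z.im ^ 2 with hD
  have hD0 : 0 < D := by positivity
  set η : ℝ := |z.re| with hη
  have hη0 : 0 ≤ η := abs_nonneg _
  have hDA : A ^ 2 ≤ D := by rw [hD]; nlinarith [sq_nonneg z.im]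
  have h2A : 1 + 2 / A ≤ 2 := by
    have : 2 / A ≤ 1 := by rw [div_le_one hA0]; exact hA
    linarith
  have hx0 : 0 ≤ n * EE A z := by positivity
  have hx1 : n * EE A z ≤ 2 * n * A / D := by
    have : EE A z ≤ 1 * (A / D) * 2 := by
      refine hE.trans ?_
      have h3 : 0 ≤ A / D := by positivity
      have h4 : 0 ≤ 1 + 2 / A := by positivity
      have h5 : 2 * η ≤ 1 := by linarith
      gcongr
    calc n * EE A z ≤ n * (1 * (A / D) * 2) := by gcongr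
      _ = _ := by ring
  have hx2 : (n * EE A z) ^ 2 ≤ 4 * n ^ 2 * (1 / D) := by
    calc (n * EE A z) ^ 2 ≤ (2 * n * A / D) ^ 2 := pow_le_pow_left₀ hx0 hx1 2
      _ = 4 * n ^ 2 * (A ^ 2 / D) * (1 / D) := by field_simp; ring
      _ ≤ 4 * n ^ 2 * 1 * (1 / D) := by
        gcongr
        rw [div_le_one hD0]; exact hDA
      _ = _ := by ring
  have hx4 : n * EE A z ≤ 2 + 2 * h * n / A := by
    have h6 : A / D ≤ 1 / A := by rw [div_le_div_iff₀ hD0 hA0]; nlinarith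
    calc n * EE A z ≤ n * (2 * η * (A / D) * (1 + 2 / A)) := by gcongr
      _ ≤ n * (2 * η * (1 / A) * (1 + 2 / A)) := by gcongr
      _ = 2 * η * n / A + 4 * η * (n / A ^ 2) := by field_simp; ring
      _ ≤ 2 * h * n / A + 4 * (1 / 2) * 1 := by
        gcongr
        rw [div_le_one (by positivity)]; exact hn
      _ = _ := by ring
  have hexp : Real.exp (n * EE A z) ≤ Real.exp 2 * Real.exp (2 * h * n / A) := by
    rw [← Real.exp_add]
    exact Real.exp_le_exp.2 hx4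
  calc (n * EE A z) ^ 2 / 2 * Real.exp (n * EE A z) ≤
      4 * n ^ 2 * (1 / D) / 2 * (Real.exp 2 * Real.exp (2 * h * n / A)) := by gcongr
    _ = _ := by ring

lemma li_re_sum {A : ℝ} (hA : 3 / 2 ≤ A) {n : ℕ} (hn : 1 ≤ n) :
    Summable (fun ρ : Zt => (mu ρ : ℝ) * (TT A n ((ρ : ℂ) - 1 / 2)).re) ∧
    li A n = ∑' ρ : Zt, (mu ρ : ℝ) * (TT A n ((ρ : ℂ) - 1 / 2)).re := by
  have hTs := TT_summable hA n
  have e : ∀ ρ : Zt, ((mu ρ : ℂ) * TT A n ((ρ : ℂ) - 1 / 2)).re = (mu ρ : ℝ) * (TT A n ((ρ : ℂ) - 1 / 2)).re := by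
    intro ρ
    rw [← Complex.ofReal_natCast, Complex.re_ofReal_mul]
  refine ⟨(Complex.hasSum_re hTs.hasSum).summable.congr e, ?_⟩
  rw [li_eq hA hn]
  unfold cf
  rw [Complex.re_tsum hTs]
  exact tsum_congr e

/-- the lower bound -/
theorem partF {h : ℝ} (h0 : 0 ≤ h) (hz : ∀ ρ : Zt, |(ρ : ℂ).re - 1 / 2| ≤ h) :
    ∀ᶠ A : ℝ in atTop, ∀ n : ℕ, 1 ≤ n → (n : ℝ) ≤ A ^ 2 → -(n ^ 2 * Real.exp (2 * h * n / A)) ≤ li A n := by
  obtain ⟨C, hC, hs⟩ := sumA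
  set K : ℝ := (1 + 2 * Real.exp 2) * C with hK
  have hK0 : 0 < K := by positivity
  filter_upwards [grow hK0 one_pos one_pos, eventually_ge_atTop 2] with A hA1 hA n hn1 hn
  have hA0 : 0 < A := by linarith
  have hl : 0 ≤ Real.log A := Real.log_nonneg (by linarith)
  rw [Real.rpow_one, one_mul] at hA1
  obtain ⟨s1, s2⟩ := hs A (by linarith)
  obtain ⟨t1, t2⟩ := li_re_sum (by linarith : 3 / 2 ≤ A) hn1
  set X : ℝ := Real.exp (2 * h * n / A) with hX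
  have hX1 : 1 ≤ X := Real.one_le_exp (by positivity)
  set b : ℝ := n + 2 * n ^ 2 * Real.exp 2 * X with hb
  have hb0 : 0 ≤ b := by positivity
  have hpt : ∀ ρ : Zt, -(b * ((mu ρ : ℝ) * (1 / (A ^ 2 + (ρ : ℂ).im ^ 2)))) ≤
      (mu ρ : ℝ) * (TT A n ((ρ : ℂ) - 1 / 2)).re := by
    intro ρ
    have him : ((ρ : ℂ) - 1 / 2).im = (ρ : ℂ).im := by simp
    have hrr : ((ρ : ℂ) - 1 / 2).re = (ρ : ℂ).re - 1 / 2 := by simp
    have h3 := cmp_pt (by linarith : 1 ≤ A) (half_re ρ) n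
    have h4 := err_pt2 (h := h) hA hn (half_re ρ) (by rw [hrr]; exact hz ρ)
    rw [him] at h3 h4
    have hmu : (0 : ℝ) ≤ (mu ρ : ℝ) := Nat.cast_nonneg _
    have h5 := (abs_le.1 h3).1
    have h6 := ff_nonneg A n (|(ρ : ℂ).im|)
    have h7 : -(b * (1 / (A ^ 2 + (ρ : ℂ).im ^ 2))) ≤ (TT A n ((ρ : ℂ) - 1 / 2)).re := by
      rw [hb, add_mul]
      linarith
    calc -(b * ((mu ρ : ℝ) * (1 / (A ^ 2 + (ρ : ℂ).im ^ 2)))) = (mu ρ : ℝ) * -(b * (1 / (A ^ 2 + (ρ : ℂ).im ^ 2))) := by ring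
      _ ≤ _ := mul_le_mul_of_nonneg_left h7 hmu
  have h8 := (s1.mul_left b).neg.tsum_le_tsum hpt t1
  rw [tsum_neg, tsum_mul_left, ← t2] at h8
  refine le_trans ?_ h8
  rw [neg_le_neg_iff]
  have hn1' : (1 : ℝ) ≤ n := by exact_mod_cast hn1
  have h1l : 1 ≤ 1 + Real.log A := by linarith
  have hbn : b ≤ (1 + 2 * Real.exp 2) * (n ^ 2 * X) := by
    have : (n : ℝ) ≤ n ^ 2 * X := by
      have h9 : (n : ℝ) * 1 ≤ n * (n * X) := by
        apply mul_le_mul_of_nonneg_left _ (by positivity)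
        nlinarith
      nlinarith
    rw [hb]
    linarith
  have hKA : K * (1 + Real.log A) ≤ A := by
    have h10 : (1 + Real.log A) ≤ (1 + Real.log A) ^ 3 := by
      have : 1 ≤ (1 + Real.log A) ^ 2 := one_le_pow₀ h1l
      nlinarith
    have := mul_le_mul_of_nonneg_left h10 hK0.le
    linarith
  calc b * ∑' ρ : Zt, (mu ρ : ℝ) * (1 / (A ^ 2 + (ρ : ℂ).im ^ 2)) ≤
      ((1 + 2 * Real.exp 2) * (n ^ 2 * X)) * (C * ((1 + Real.log A) / A)) := by gcongr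
    _ = (n ^ 2 * X) * ((K * (1 + Real.log A)) / A) := by rw [hK]; ring
    _ ≤ (n ^ 2 * X) * 1 := by
      gcongr
      rw [div_le_one hA0]; exact hKA
    _ = _ := by ring

/-- if all the zeros are on the line -/
theorem partR (hz : ∀ ρ : Zt, (ρ : ℂ).re = 1 / 2) :
    (∀ A : ℝ, 2 ≤ A → ∀ n : ℕ, 1 ≤ n → 0 ≤ li A n) ∧
    ∃ C : ℝ, 0 < C ∧ ∀ A : ℝ, 2 ≤ A → ∀ n : ℕ, 1 ≤ n → |li A n - n * A * Real.log (n * A)| ≤ C * (n * A) := by
  constructor
  · intro A hA n hn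
    obtain ⟨t1, t2⟩ := li_re_sum (by linarith : 3 / 2 ≤ A) hn
    rw [t2]
    refine tsum_nonneg fun ρ => mul_nonneg (Nat.cast_nonneg _) ?_
    set z : ℂ := (ρ : ℂ) - 1 / 2 with hzd
    have hre : z.re = 0 := by simp [hzd, hz ρ]
    have hA1 : 1 ≤ A := by linarith
    have hzh : |z.re| ≤ 1 / 2 := by rw [hre]; norm_num
    have hn1 : ‖ww A z‖ = 1 := by
      have h1 : ‖z + A‖ ^ 2 = ‖z - A‖ ^ 2 := by rw [normSq_add, normSq_sub, hre]; ring
      have h2 : ‖z + A‖ = ‖z - A‖ := by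
        have := (sq_eq_sq₀ (norm_nonneg _) (norm_nonneg _)).1 h1
        exact this
      unfold ww
      rw [norm_div, h2, div_self (norm_ne_zero_iff.2 (sub_ne hA1 hzh))]
    unfold TT
    have h3 : ((2 - ww A z ^ n - (ww A z)⁻¹ ^ n) / 2).re = (2 - (ww A z ^ n).re - ((ww A z)⁻¹ ^ n).re) / 2 := by
      have e : (2 - ww A z ^ n - (ww A z)⁻¹ ^ n) / 2 = ((1 / 2 : ℝ) : ℂ) * (2 - ww A z ^ n - (ww A z)⁻¹ ^ n) := by
        push_cast; ring
      rw [e, Complex.re_ofReal_mul, Complex.sub_re, Complex.sub_re]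
      norm_num
      ring
    rw [h3]
    have h4 : (ww A z ^ n).re ≤ 1 := (Complex.re_le_norm _).trans (by rw [norm_pow, hn1, one_pow])
    have h5 : ((ww A z)⁻¹ ^ n).re ≤ 1 := (Complex.re_le_norm _).trans (by rw [norm_pow, norm_inv, hn1, inv_one, one_pow])
    linarith
  · obtain ⟨C2, hC2, hs2⟩ := sumA
    obtain ⟨C3, hC3, hmain⟩ := main_term
    refine ⟨C3 + C2, by positivity, fun A hA n hn => ?_⟩
    have hA0 : 0 < A := by linarith
    have hl : 0 ≤ Real.log A := Real.log_nonneg (by linarith)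
    obtain ⟨t1, t2⟩ := li_re_sum (by linarith : 3 / 2 ≤ A) hn
    obtain ⟨s1, s2⟩ := hs2 A (by linarith)
    have hFs := (line_hasSum (by linarith : 1 ≤ A) n).summable
    have hm1 := hmain A (by linarith) n hn
    have hpt : ∀ ρ : Zt, ‖(mu ρ : ℝ) * (TT A n ((ρ : ℂ) - 1 / 2)).re - (mu ρ : ℝ) * ff A n (|(ρ : ℂ).im|)‖ ≤
        n * ((mu ρ : ℝ) * (1 / (A ^ 2 + (ρ : ℂ).im ^ 2))) := by
      intro ρ
      have him : ((ρ : ℂ) - 1 / 2).im = (ρ : ℂ).im := by simp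
      have hrr : ((ρ : ℂ) - 1 / 2).re = 0 := by simp [hz ρ]
      have h3 := cmp_pt (by linarith : 1 ≤ A) (half_re ρ) n
      have hEE : EE A ((ρ : ℂ) - 1 / 2) = 0 := by unfold EE; rw [hrr]; simp
      rw [him, hEE, mul_zero] at h3
      norm_num at h3
      have hmu : (0 : ℝ) ≤ (mu ρ : ℝ) := Nat.cast_nonneg _
      rw [← mul_sub, Real.norm_eq_abs, abs_mul, abs_of_nonneg hmu]
      calc (mu ρ : ℝ) * |(TT A n ((ρ : ℂ) - 1 / 2)).re - ff A n (|(ρ : ℂ).im|)| ≤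
          (mu ρ : ℝ) * (n * (A ^ 2 + (ρ : ℂ).im ^ 2)⁻¹) := by
            exact mul_le_mul_of_nonneg_left h3 hmu
        _ = _ := by rw [one_div]; ring
    have h5 := tsum_of_norm_bounded (s1.mul_left (n : ℝ)).hasSum hpt
    rw [t1.tsum_sub hFs, ← t2, tsum_mul_left, Real.norm_eq_abs] at h5
    have h3 : (1 + Real.log A) / A ≤ A := by
      rw [div_le_iff₀ hA0]
      have := Real.log_le_sub_one_of_pos hA0
      nlinarith
    have h6 : (n : ℝ) * ∑' ρ : Zt, (mu ρ : ℝ) * (1 / (A ^ 2 + (ρ : ℂ).im ^ 2)) ≤ C2 * (n * A) := by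
      calc (n : ℝ) * ∑' ρ : Zt, (mu ρ : ℝ) * (1 / (A ^ 2 + (ρ : ℂ).im ^ 2)) ≤ n * (C2 * ((1 + Real.log A) / A)) := by
            gcongr
        _ ≤ n * (C2 * A) := by gcongr
        _ = _ := by ring
    have h8 := abs_sub_le (li A n) (∑' ρ : Zt, (mu ρ : ℝ) * ff A n |(ρ : ℂ).im|) (n * A * Real.log (n * A))
    calc _ ≤ _ := h8
      _ ≤ C2 * (n * A) + C3 * (n * A) := by linarith
      _ = _ := by ring

end Pool.Agent.Q260.LF
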