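import Pool.Agent.Q260.LF.Coef

/-! # Counting the zeros; sums over the zeros as integrals -/

set_option autoImplicit false
set_option maxHeartbeats 1000000

open Complex Filter Topology Set MeasureTheory
open scoped ComplexConjugate
open Pool.Agent.Y23 (Zt mu Lg one_le_Lg Lg_cont zsum cnt finite_low IsZ)

namespace Pool.Agent.Q260.LF

/-- the number of zeros of height at most `u` -/
noncomputable def N2 (u : ℝ) : ℝ := ∑' ρ : Zt, if |(ρ : ℂ).im| ≤ u then (mu ρ : ℝ) else 0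

lemma N2_summable (u : ℝ) : Summable (fun ρ : Zt => if |(ρ : ℂ).im| ≤ u then (mu ρ : ℝ) else 0) := by
  refine summable_of_finite_support ((finite_low u).subset ?_)
  intro ρ hρ
  rw [Function.mem_support] at hρ
  by_contra h
  have h' : ¬ |(ρ : ℂ).im| ≤ u := h
  rw [if_neg h'] at hρ
  exact hρ rfl

lemma N2_nonneg (u : ℝ) : 0 ≤ N2 u := tsum_nonneg fun ρ => by split_ifs <;> positivity

lemma N2_mono : Monotone N2 := by
  intro u v h
  refine (N2_summable u).tsum_le_tsum (fun ρ => ?_) (N2_summable v)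
  split_ifs with h1 h2
  · exact le_rfl
  · exact absurd (h1.trans h) h2
  · exact Nat.cast_nonneg _
  · exact le_rfl

instance : Countable Zt := by
  have h : ({s : ℂ | riemannZeta s = 0 ∧ 0 < s.re ∧ s.re < 1} : Set ℂ).Countable := by
    have h1 : ({s : ℂ | riemannZeta s = 0 ∧ 0 < s.re ∧ s.re < 1} : Set ℂ) ⊆
        ⋃ n : ℕ, {s : ℂ | IsZ s ∧ |s.im| ≤ n} := by
      intro s hs
      obtain ⟨n, hn⟩ := exists_nat_ge |s.im|
      exact mem_iUnion.2 ⟨n, hs, hn⟩
    exact (countable_iUnion fun n : ℕ => (Pool.Agent.Y23.isZ_finite (n : ℝ)).countable).mono h1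
  exact h.to_subtype

lemma Lg_mono' {u v : ℝ} (h : |u| ≤ |v|) : Lg u ≤ Lg v :=
  Real.log_le_log (by positivity) (by linarith)

lemma Lg_add_one {u : ℝ} (hu : 0 ≤ u) : Lg (u + 1) ≤ 2 * Lg u := by
  unfold Lg
  rw [abs_of_nonneg hu, abs_of_nonneg (by linarith)]
  have h : Real.log (3 + (u + 1)) ≤ Real.log ((3 + u) ^ 2) := Real.log_le_log (by linarith) (by nlinarith)
  rw [Real.log_pow] at h
  exact_mod_cast h

/-- an upper bound for the number of zeros -/
lemma N2_le : ∃ C : ℝ, 0 < C ∧ ∀ u : ℝ, 0 ≤ u → N2 u ≤ C * ((1 + u) * Lg u) := by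
  classical
  obtain ⟨K, hK, hz⟩ := zsum
  refine ⟨12 * K, by positivity, fun u hu => ?_⟩
  refine Real.tsum_le_of_sum_le (fun ρ => by split_ifs <;> positivity) fun S => ?_
  rw [← Finset.sum_filter]
  set S' := S.filter (fun ρ : Zt => |(ρ : ℂ).im| ≤ u) with hS'
  set T : ℤ := ⌈u⌉ with hT
  have hT0 : 0 ≤ T := Int.ceil_nonneg hu
  have hTu : u ≤ T := Int.le_ceil u
  have hTu' : (T : ℝ) < u + 1 := Int.ceil_lt_add_one u
  have key : ∀ ρ ∈ S', (mu ρ : ℝ) ≤
      2 * ∑ j ∈ Finset.Icc (-T) T, (mu ρ : ℝ) * (1 / (1 + ((ρ : ℂ).im - j) ^ 2)) := by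
    intro ρ hρ
    rw [hS', Finset.mem_filter] at hρ
    have h1 := abs_le.1 hρ.2
    have hj : ⌊(ρ : ℂ).im⌋ ∈ Finset.Icc (-T) T := by
      rw [Finset.mem_Icc]
      constructor
      · rw [Int.le_floor]; push_cast; linarith
      · have h2 : (⌊(ρ : ℂ).im⌋ : ℝ) ≤ T := (Int.floor_le _).trans (by linarith)
        exact_mod_cast h2
    have h3 : (mu ρ : ℝ) * (1 / (1 + ((ρ : ℂ).im - ⌊(ρ : ℂ).im⌋) ^ 2)) ≤
        ∑ j ∈ Finset.Icc (-T) T, (mu ρ : ℝ) * (1 / (1 + ((ρ : ℂ).im - j) ^ 2)) :=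
      Finset.single_le_sum (f := fun j : ℤ => (mu ρ : ℝ) * (1 / (1 + ((ρ : ℂ).im - j) ^ 2)))
        (fun j _ => by positivity) hj
    have h4 : (1 : ℝ) / 2 ≤ 1 / (1 + ((ρ : ℂ).im - ⌊(ρ : ℂ).im⌋) ^ 2) := by
      apply one_div_le_one_div_of_le (by positivity)
      have h5 := Int.floor_le (ρ : ℂ).im
      have h6 := Int.lt_floor_add_one (ρ : ℂ).im
      nlinarith
    have h7 : (0 : ℝ) ≤ (mu ρ : ℝ) := Nat.cast_nonneg _
    nlinarith
  calc ∑ ρ ∈ S', (mu ρ : ℝ) ≤ ∑ ρ ∈ S', 2 * ∑ j ∈ Finset.Icc (-T) T, (mu ρ : ℝ) * (1 / (1 + ((ρ : ℂ).im - j) ^ 2)) :=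
        Finset.sum_le_sum key
    _ = 2 * ∑ j ∈ Finset.Icc (-T) T, ∑ ρ ∈ S', (mu ρ : ℝ) * (1 / (1 + ((ρ : ℂ).im - j) ^ 2)) := by
        rw [← Finset.mul_sum, Finset.sum_comm]
    _ ≤ 2 * ∑ j ∈ Finset.Icc (-T) T, K * (2 * Lg u) := by
        refine mul_le_mul_of_nonneg_left (Finset.sum_le_sum fun j hj => ?_) (by norm_num)
        have h1 := hz (j : ℝ) (S'.map (Function.Embedding.subtype _)) (by
          intro s hs
          rw [Finset.mem_map] at hs
          obtain ⟨v, _, rfl⟩ := hs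
          exact v.2)
        rw [Finset.sum_map] at h1
        refine h1.trans (mul_le_mul_of_nonneg_left ?_ hK.le)
        refine le_trans (Lg_mono' (v := u + 1) ?_) (Lg_add_one hu)
        rw [Finset.mem_Icc] at hj
        rw [abs_of_nonneg (show (0 : ℝ) ≤ u + 1 by linarith), abs_le]
        have h2 : (-(T : ℝ)) ≤ j := by exact_mod_cast hj.1
        have h3 : (j : ℝ) ≤ T := by exact_mod_cast hj.2
        constructor <;> linarith
    _ = 2 * ((2 * T + 1 : ℝ) * (K * (2 * Lg u))) := by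
        rw [Finset.sum_const, nsmul_eq_mul]
        congr 2
        rw [Int.card_Icc]
        have : ((T + 1 - -T).toNat : ℤ) = 2 * T + 1 := by omega
        have h2 : (((T + 1 - -T).toNat : ℤ) : ℝ) = ((2 * T + 1 : ℤ) : ℝ) := by rw [this]
        push_cast at h2
        exact h2
    _ ≤ 12 * K * ((1 + u) * Lg u) := by
        have h1 := one_le_Lg u
        have h2 : (2 * T + 1 : ℝ) ≤ 3 * (1 + u) := by linarith
        have h3 : 0 ≤ K * Lg u := by positivity
        nlinarith [mul_le_mul_of_nonneg_right h2 h3]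

/-- sums over the zeros as integrals against the counting function -/
theorem fub {k : ℝ → ℝ} (hk : AEStronglyMeasurable k (volume.restrict (Ioi 0)))
    (hint : IntegrableOn (fun u => |k u| * ((1 + u) * Lg u)) (Ioi 0)) :
    HasSum (fun ρ : Zt => (mu ρ : ℝ) * ∫ u in Ioi |(ρ : ℂ).im|, k u) (∫ u in Ioi (0 : ℝ), k u * N2 u) := by
  classical
  obtain ⟨C, hC, hN⟩ := N2_le
  set F : Zt → ℝ → ℝ := fun ρ => (Ici |(ρ : ℂ).im|).indicator (fun u => (mu ρ : ℝ) * k u) with hF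
  have hk1 : IntegrableOn k (Ioi 0) := by
    refine Integrable.mono' hint hk ?_
    filter_upwards [ae_restrict_mem measurableSet_Ioi] with u hu
    have hu' : (0 : ℝ) < u := hu
    rw [Real.norm_eq_abs]
    have h1 := one_le_Lg u
    have h2 : 1 ≤ (1 + u) * Lg u := by nlinarith
    exact le_mul_of_one_le_right (abs_nonneg _) h2
  have hFint : ∀ ρ, Integrable (F ρ) (volume.restrict (Ioi 0)) := fun ρ =>
    (hk1.const_mul (mu ρ : ℝ)).indicator measurableSet_Ici
  have hFnorm : ∀ ρ u, ‖F ρ u‖ = (if |(ρ : ℂ).im| ≤ u then (mu ρ : ℝ) else 0) * |k u| := by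
    intro ρ u
    simp only [hF, indicator, mem_Ici]
    split_ifs
    · rw [norm_mul, Real.norm_eq_abs, Real.norm_eq_abs, abs_of_nonneg (Nat.cast_nonneg _)]
    · simp
  have hsum : Summable fun ρ => ∫ u, ‖F ρ u‖ ∂(volume.restrict (Ioi 0)) := by
    refine summable_of_sum_le (c := C * ∫ u in Ioi (0 : ℝ), |k u| * ((1 + u) * Lg u))
      (fun ρ => integral_nonneg fun u => norm_nonneg _) fun S => ?_
    rw [← integral_finset_sum S fun ρ _ => (hFint ρ).norm, ← integral_const_mul]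
    refine integral_mono_ae (integrable_finset_sum S fun ρ _ => (hFint ρ).norm) (hint.const_mul C) ?_
    filter_upwards [ae_restrict_mem measurableSet_Ioi] with u hu
    have hu' : (0 : ℝ) < u := hu
    simp only [hFnorm]
    rw [← Finset.sum_mul]
    have h1 : ∑ ρ ∈ S, (if |(ρ : ℂ).im| ≤ u then (mu ρ : ℝ) else 0) ≤ N2 u :=
      (N2_summable u).sum_le_tsum S (fun ρ _ => by split_ifs <;> positivity)
    calc (∑ ρ ∈ S, (if |(ρ : ℂ).im| ≤ u then (mu ρ : ℝ) else 0)) * |k u| ≤ (C * ((1 + u) * Lg u)) * |k u| :=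
          mul_le_mul_of_nonneg_right (h1.trans (hN u hu'.le)) (abs_nonneg _)
      _ = C * (|k u| * ((1 + u) * Lg u)) := by ring
  have hmain := hasSum_integral_of_summable_integral_norm hFint hsum
  have e1 : ∀ ρ : Zt, ∫ u, F ρ u ∂(volume.restrict (Ioi 0)) = (mu ρ : ℝ) * ∫ u in Ioi |(ρ : ℂ).im|, k u := by
    intro ρ
    rw [← integral_const_mul]
    simp only [hF]
    rw [setIntegral_indicator measurableSet_Ici]
    refine setIntegral_congr_set ?_
    have h1 : (Ioi (0 : ℝ) ∩ Ioi |(ρ : ℂ).im|) = Ioi |(ρ : ℂ).im| := by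
      rw [inter_eq_right]
      exact Ioi_subset_Ioi (abs_nonneg _)
    have h2 : (Ioi (0 : ℝ) ∩ Ici |(ρ : ℂ).im| : Set ℝ) =ᵐ[volume] (Ioi (0 : ℝ) ∩ Ioi |(ρ : ℂ).im| : Set ℝ) :=
      (ae_eq_refl _).inter Ioi_ae_eq_Ici.symm
    rwa [h1] at h2
  have e2 : ∫ u, ∑' ρ, F ρ u ∂(volume.restrict (Ioi 0)) = ∫ u in Ioi (0 : ℝ), k u * N2 u := by
    refine integral_congr_ae (Eventually.of_forall fun u => ?_)
    show ∑' ρ, F ρ u = k u * N2 u
    unfold N2
    rw [← tsum_mul_left]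
    refine tsum_congr fun ρ => ?_
    simp only [hF, indicator, mem_Ici]
    split_ifs
    · ring
    · ring
  rw [e2] at hmain
  simp only [e1] at hmain
  exact hmain

end Pool.Agent.Q260.LF
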